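import Mathlib

/-!
One-dimensional Gaussian estimates.
-/

set_option autoImplicit false

open MeasureTheory ProbabilityTheory Real Set
open scoped ENNReal NNReal

namespace Q290.Ent

/-- the standard normal law -/
noncomputable def γ : Measure ℝ := gaussianReal 0 1

instance : IsProbabilityMeasure γ := by unfold γ; infer_instance

lemma γ_upper {t : ℝ} (ht : 0 ≤ t) : γ.real (Ici t) ≤ exp (-t ^ 2 / 2) := by
  have h := measure_ge_le_exp_mul_mgf (μ := γ) (X := id) t ht
    (by simpa [γ] using integrable_exp_mul_gaussianReal (μ := 0) (v := 1) t)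
  have h2 : mgf id γ t = exp (t ^ 2 / 2) := by
    unfold γ
    rw [mgf_id_gaussianReal]
    simp
  rw [h2, ← exp_add] at h
  calc γ.real (Ici t) = γ.real {ω | t ≤ id ω} := rfl
    _ ≤ _ := h
    _ = _ := by congr 1; ring

lemma γ_symm (t : ℝ) : γ.real (Iic (-t)) = γ.real (Ici t) := by
  have h : γ.map (fun x => -x) = γ := by
    unfold γ
    rw [gaussianReal_map_neg, neg_zero]
  calc γ.real (Iic (-t)) = (γ.map (fun x => -x)).real (Iic (-t)) := by rw [h]
    _ = γ.real (Ici t) := by
      rw [measureReal_def, Measure.map_apply (by fun_prop) measurableSet_Iic, measureReal_def]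
      congr 2
      ext x
      simp

lemma sqrt_two_pi_le : √(2 * π * (1 : ℝ≥0)) ≤ exp 1 := by
  rw [Real.sqrt_le_left (exp_pos 1).le]
  have h1 := Real.exp_one_gt_d9
  have h2 := Real.pi_lt_d2
  have : (2.7182818283 : ℝ) ^ 2 ≤ exp 1 ^ 2 := by gcongr
  norm_num at this ⊢
  linarith

lemma pdf_ge (x : ℝ) : exp (-x ^ 2 / 2 - 1) ≤ gaussianPDFReal 0 1 x := by
  unfold gaussianPDFReal
  have h := sqrt_two_pi_le
  have h0 : 0 < √(2 * π * (1 : ℝ≥0)) := by
    apply Real.sqrt_pos.2
    have := Real.pi_pos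
    simp [this]
  have h1 : exp (-1) ≤ (√(2 * π * (1 : ℝ≥0)))⁻¹ := by
    rw [exp_neg]
    exact inv_anti₀ h0 h
  calc exp (-x ^ 2 / 2 - 1) = exp (-1) * exp (-x ^ 2 / 2) := by
        rw [← exp_add]; congr 1; ring
    _ ≤ (√(2 * π * (1 : ℝ≥0)))⁻¹ * exp (-x ^ 2 / 2) := by gcongr
    _ = _ := by
      congr 2
      simp

/-- lower bound of the mass of an interval -/
lemma γ_Icc {a b m : ℝ} (hab : a ≤ b) (hm : ∀ x ∈ Icc a b, x ^ 2 ≤ m ^ 2) :
    (b - a) * exp (-m ^ 2 / 2 - 1) ≤ γ.real (Icc a b) := by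
  have h1 : γ.real (Icc a b) = ∫ x in Icc a b, gaussianPDFReal 0 1 x := by
    unfold γ
    rw [measureReal_def, gaussianReal_apply_eq_integral 0 (by norm_num), ENNReal.toReal_ofReal]
    exact integral_nonneg fun x => gaussianPDFReal_nonneg _ _ _
  rw [h1]
  have h2 : ∫ x in Icc a b, exp (-m ^ 2 / 2 - 1) = (b - a) * exp (-m ^ 2 / 2 - 1) := by
    rw [setIntegral_const, measureReal_def, Real.volume_Icc, ENNReal.toReal_ofReal (by linarith)]
    rfl
  rw [← h2]
  refine setIntegral_mono_on ?_ ?_ measurableSet_Icc fun x hx => ?_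
  · exact (continuous_const.continuousOn).integrableOn_compact isCompact_Icc
  · exact (integrable_gaussianPDFReal 0 1).integrableOn
  · refine le_trans ?_ (pdf_ge x)
    have := hm x hx
    apply exp_le_exp.2
    linarith

lemma γ_lower {t : ℝ} (ht : 0 ≤ t) : exp (-(t + 2) ^ 2 / 2) ≤ γ.real (Ici t) := by
  have h := γ_Icc (a := t) (b := t + 1) (m := t + 1) (by linarith) (by
    intro x hx
    have := hx.1
    have := hx.2
    nlinarith)
  have h2 : γ.real (Icc t (t + 1)) ≤ γ.real (Ici t) := measureReal_mono Icc_subset_Ici_self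
  refine le_trans ?_ (h.trans h2)
  rw [show t + 1 - t = 1 by ring, one_mul]
  apply exp_le_exp.2
  nlinarith

lemma γ_small : exp (-3) ≤ γ.real (Icc (-(1 / 4)) (1 / 4)) := by
  have h := γ_Icc (a := -(1 / 4)) (b := 1 / 4) (m := 1 / 4) (by norm_num) (by
    intro x hx
    have h1 := hx.1
    have h2 := hx.2
    nlinarith)
  refine le_trans ?_ h
  have h1 : exp (-1) ≤ 1 / 2 := by
    rw [exp_neg]
    have := Real.exp_one_gt_d9
    rw [inv_eq_one_div]
    apply one_div_le_one_div_of_le (by norm_num)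
    linarith
  have h2 : (1 : ℝ) / 2 * exp (-2) = (1 / 4 - -(1 / 4)) * exp (-2) := by norm_num
  calc exp (-3) = exp (-1) * exp (-2) := by rw [← exp_add]; norm_num
    _ ≤ (1 / 2) * exp (-2) := by gcongr
    _ = (1 / 4 - -(1 / 4)) * exp (-2) := h2
    _ ≤ _ := by
      apply mul_le_mul_of_nonneg_left _ (by norm_num)
      apply exp_le_exp.2
      norm_num

lemma γ_two_sided {t : ℝ} (ht : 0 ≤ t) : γ.real {x | t < |x|} ≤ 2 * exp (-t ^ 2 / 2) := by
  have h1 : {x : ℝ | t < |x|} ⊆ Ici t ∪ Iic (-t) := by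
    intro x hx
    have hx' : t < |x| := hx
    rcases lt_abs.1 hx' with h | h
    · exact Or.inl h.le
    · exact Or.inr (by simp only [mem_Iic]; linarith)
  calc γ.real {x : ℝ | t < |x|} ≤ γ.real (Ici t ∪ Iic (-t)) := measureReal_mono h1
    _ ≤ γ.real (Ici t) + γ.real (Iic (-t)) := measureReal_union_le _ _
    _ = 2 * γ.real (Ici t) := by rw [γ_symm]; ring
    _ ≤ _ := by
      have := γ_upper ht
      linarith

/-- the complement -/
lemma γ_Ici_neg (y : ℝ) : γ.real (Ici (-y)) = 1 - γ.real (Ioi y) := by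
  have h1 : γ.real (Ici (-y)) + γ.real (Iio (-y)) = 1 := by
    have := measureReal_add_measureReal_compl (μ := γ) (s := Ici (-y)) measurableSet_Ici
    rw [compl_Ici, probReal_univ] at this
    exact this
  have h2 : γ.real (Iio (-y)) = γ.real (Ioi y) := by
    have h : γ.map (fun x => -x) = γ := by
      unfold γ
      rw [gaussianReal_map_neg, neg_zero]
    calc γ.real (Iio (-y)) = (γ.map (fun x => -x)).real (Iio (-y)) := by rw [h]
      _ = γ.real (Ioi y) := by
        rw [measureReal_def, Measure.map_apply (by fun_prop) measurableSet_Iio, measureReal_def]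
        congr 2
        ext x
        simp
  linarith

/-- the mass of `(y, ∞)` from below -/
lemma γ_Ioi_ge {y : ℝ} (hy : 0 ≤ y) : exp (-(y + 2) ^ 2 / 2) ≤ γ.real (Ioi y) := by
  have h := γ_lower hy
  have h2 : γ.real (Ici y) = γ.real (Ioi y) := by
    unfold γ
    have := nullSingletonClass_gaussianReal (μ := 0) (v := 1) (by norm_num)
    rw [measureReal_def, measureReal_def]
    congr 1
    exact (measure_congr Ioi_ae_eq_Ici).symm
  rwa [h2] at h

/-- upper bound for the distribution function by the exponential of a linear function -/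
lemma γ_C1 {c : ℝ} (hc : 1 ≤ c) (y : ℝ) :
    γ.real (Ici (-y)) ≤ exp (-(exp (-(c + 3) ^ 2 / 2) * (c + 1 - y))) := by
  set κ := exp (-(c + 3) ^ 2 / 2) with hκ
  have hκ0 : 0 < κ := exp_pos _
  have hκ8 : κ ≤ exp (-8) := by
    apply exp_le_exp.2
    nlinarith
  have he2 : exp (-2 : ℝ) ≤ 1 - 0 := by
    have := exp_le_one_iff.2 (show (-2 : ℝ) ≤ 0 by norm_num)
    linarith
  rcases le_or_gt (c + 1) y with h | h
  · have h1 : γ.real (Ici (-y)) ≤ 1 := measureReal_le_one
    refine h1.trans (one_le_exp ?_)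
    nlinarith
  have hle : ∀ u v : ℝ, v ≤ u → 1 - u ≤ exp (-v) := by
    intro u v huv
    have := add_one_le_exp (-v)
    linarith
  rcases le_or_gt 0 y with h0 | h0
  · rw [γ_Ici_neg]
    apply hle
    refine le_trans ?_ (γ_Ioi_ge h0)
    have h1 : exp (-(y + 2) ^ 2 / 2) = κ * exp (((c + 3) ^ 2 - (y + 2) ^ 2) / 2) := by
      rw [hκ, ← exp_add]; congr 1; ring
    rw [h1]
    apply mul_le_mul_of_nonneg_left _ hκ0.le
    refine le_trans ?_ (add_one_le_exp _)
    nlinarith
  rcases le_or_gt (-1) y with h1 | h1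
  · rw [γ_Ici_neg]
    apply hle
    have h2 : γ.real (Ioi 0) ≤ γ.real (Ioi y) := measureReal_mono (Ioi_subset_Ioi h0.le)
    have h3 := γ_Ioi_ge (le_refl (0 : ℝ))
    refine le_trans ?_ (h3.trans h2)
    have h4 : exp (-(0 + 2 : ℝ) ^ 2 / 2) = exp (-2) := by norm_num
    rw [h4]
    have h5 : c + 1 - y ≤ (c + 2) := by linarith
    have h6 : c + 2 ≤ exp (c + 1) := by
      have := add_one_le_exp (c + 1)
      linarith
    calc κ * (c + 1 - y) ≤ κ * exp (c + 1) := by
          apply mul_le_mul_of_nonneg_left _ hκ0.le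
          linarith
      _ = exp (-(c + 3) ^ 2 / 2 + (c + 1)) := by rw [hκ, ← exp_add]
      _ ≤ exp (-2) := by
        apply exp_le_exp.2
        nlinarith
  · have h2 := γ_upper (t := -y) (by linarith)
    refine h2.trans ?_
    apply exp_le_exp.2
    have h6 : c + 1 ≤ exp c := add_one_le_exp c
    have h7 : κ * (c + 1) ≤ exp (-4) := by
      calc κ * (c + 1) ≤ κ * exp c := by gcongr
        _ = exp (-(c + 3) ^ 2 / 2 + c) := by rw [hκ, ← exp_add]
        _ ≤ exp (-4) := by
          apply exp_le_exp.2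
          nlinarith
    have h8 : exp (-4 : ℝ) ≤ 1 / 4 := by
      rw [exp_neg, inv_eq_one_div]
      apply one_div_le_one_div_of_le (by norm_num)
      have := add_one_le_exp (4 : ℝ)
      linarith
    have h9 : κ ≤ 1 / 4 := by
      refine hκ8.trans (le_trans ?_ h8)
      apply exp_le_exp.2
      norm_num
    nlinarith

/-- lower bound for the distribution function -/
lemma γ_D1 {y : ℝ} (hy : 2 ≤ y) : exp (-(2 * exp (-y ^ 2 / 2))) ≤ γ.real (Ici (-y)) := by
  rw [γ_Ici_neg]
  have h1 : γ.real (Ioi y) ≤ exp (-y ^ 2 / 2) :=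
    (measureReal_mono Ioi_subset_Ici_self).trans (γ_upper (by linarith))
  have h2 : exp (-y ^ 2 / 2) ≤ 1 / 2 := by
    have h3 : exp (-y ^ 2 / 2) ≤ exp (-1) := by
      apply exp_le_exp.2
      nlinarith
    refine h3.trans ?_
    rw [exp_neg]
    have := Real.exp_one_gt_d9
    rw [inv_eq_one_div]
    apply one_div_le_one_div_of_le (by norm_num)
    linarith
  set u := exp (-y ^ 2 / 2) with hu
  have hu0 : 0 < u := exp_pos _
  have h3 : exp (-(2 * u)) ≤ 1 - u := by
    have h4 : 1 + 2 * u ≤ exp (2 * u) := by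
      have := add_one_le_exp (2 * u)
      linarith
    rw [exp_neg]
    have h5 : (exp (2 * u))⁻¹ ≤ (1 + 2 * u)⁻¹ := inv_anti₀ (by linarith) h4
    refine h5.trans ?_
    rw [inv_eq_one_div, div_le_iff₀ (by linarith)]
    nlinarith
  linarith

end Q290.Ent
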