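import Mathlib

/-!
Scales: `N k = 2^(16^k)`, amplitudes `s k = 2^(-e k)` with `e (k+1) = e k + 8^k`, frequencies
`θ k = π / (2 N k)`; symmetric windows of integers and trigonometric sums over them.
-/

set_option autoImplicit false

open Finset Real

namespace Q290.Ent

/-- exponents of the amplitudes -/
def e : ℕ → ℕ
  | 0 => 0
  | (k + 1) => e k + 8 ^ k

/-- amplitude of the `k`-th mode -/
noncomputable def s (k : ℕ) : ℝ := (1 / 2) ^ e k

/-- the `k`-th scale -/
def N (k : ℕ) : ℕ := 2 ^ (16 ^ k)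

/-- frequency of the `k`-th mode -/
noncomputable def θ (k : ℕ) : ℝ := π / (2 * N k)

lemma e_succ (k : ℕ) : e (k + 1) = e k + 8 ^ k := rfl

lemma seven_e (k : ℕ) : 7 * e k + 1 = 8 ^ k := by
  induction k with
  | zero => rfl
  | succ k ih =>
    rw [e_succ, pow_succ, ← ih]
    ring

lemma e_ge (k : ℕ) : k ≤ e k := by
  induction k with
  | zero => rfl
  | succ k ih =>
    rw [e_succ]
    have : 1 ≤ 8 ^ k := Nat.one_le_pow _ _ (by norm_num)
    omega

lemma e_mono : Monotone e := by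
  refine monotone_nat_of_le_succ fun k => ?_
  rw [e_succ]
  exact Nat.le_add_right _ _

lemma e_succ' (k : ℕ) : e (k + 1) = 8 * e k + 1 := by
  rw [e_succ, ← seven_e k]
  ring

lemma s_pos (k : ℕ) : 0 < s k := by unfold s; positivity

lemma s_le_one (k : ℕ) : s k ≤ 1 := pow_le_one₀ (by norm_num) (by norm_num)

lemma s_le (k : ℕ) : s k ≤ (1 / 2) ^ k :=
  pow_le_pow_of_le_one (by norm_num) (by norm_num) (e_ge k)

lemma s_succ (k : ℕ) : s (k + 1) = s k * (1 / 2) ^ (8 ^ k) := by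
  unfold s
  rw [e_succ, pow_add]

lemma summable_s : Summable s :=
  Summable.of_nonneg_of_le (fun k => (s_pos k).le) s_le
    (summable_geometric_of_lt_one (by norm_num) (by norm_num))

lemma tsum_s_le : ∑' k, s k ≤ 2 := by
  calc ∑' k, s k ≤ ∑' k : ℕ, ((1 : ℝ) / 2) ^ k :=
        summable_s.tsum_le_tsum s_le (summable_geometric_of_lt_one (by norm_num) (by norm_num))
    _ = 2 := by rw [tsum_geometric_of_lt_one (by norm_num) (by norm_num)]; norm_num

lemma sum_s_le (k : ℕ) : ∑ j ∈ range k, s j ≤ 2 :=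
  (summable_s.sum_le_tsum _ (fun j _ => (s_pos j).le)).trans tsum_s_le

lemma N_pos (k : ℕ) : 0 < N k := by unfold N; positivity

lemma N_posR (k : ℕ) : (0 : ℝ) < N k := by exact_mod_cast N_pos k

lemma θ_pos (k : ℕ) : 0 < θ k := by
  unfold θ
  have := N_posR k
  positivity

lemma θ_mul (k : ℕ) : θ k * N k = π / 2 := by
  unfold θ
  have := (N_posR k).ne'
  field_simp

lemma N_dvd {j k : ℕ} (h : j ≤ k) : N j ∣ N k := by
  unfold N
  exact pow_dvd_pow 2 (Nat.pow_le_pow_right (by norm_num) h)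

lemma two_le_N (k : ℕ) : 2 ≤ N k := by
  unfold N
  calc 2 = 2 ^ 1 := rfl
    _ ≤ 2 ^ (16 ^ k) := Nat.pow_le_pow_right (by norm_num) (Nat.one_le_pow _ _ (by norm_num))

lemma θ_le (k : ℕ) : θ k ≤ π / 4 := by
  unfold θ
  have h : (2 : ℝ) ≤ N k := by exact_mod_cast two_le_N k
  have := Real.pi_pos
  apply div_le_div_of_nonneg_left this.le (by norm_num)
  linarith

/-! ### windows -/

/-- the integers `x` with `A < |x| ≤ A + n` -/
def W (A n : ℕ) : Finset ℤ :=
  ((range n).image fun i : ℕ => (A + 1 + i : ℤ)) ∪ ((range n).image fun i : ℕ => -(A + 1 + i : ℤ))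

lemma sum_W {M : Type*} [AddCommMonoid M] (A n : ℕ) (f : ℤ → M) :
    ∑ x ∈ W A n, f x = ∑ i ∈ range n, (f (A + 1 + i) + f (-(A + 1 + i))) := by
  unfold W
  rw [sum_union, sum_image, sum_image, sum_add_distrib]
  · intro i _ j _ h
    simp only at h
    omega
  · intro i _ j _ h
    simp only at h
    omega
  · rw [disjoint_left]
    intro x h1 h2
    rw [mem_image] at h1 h2
    obtain ⟨i, _, rfl⟩ := h1
    obtain ⟨j, _, h⟩ := h2
    omega

lemma card_W (A n : ℕ) : (W A n).card = 2 * n := by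
  have := sum_W (M := ℕ) A n (fun _ => 1)
  simp only [sum_const, smul_eq_mul, mul_one, card_range] at this
  omega

lemma mem_W {A n : ℕ} {x : ℤ} : x ∈ W A n ↔ (A : ℤ) < |x| ∧ |x| ≤ A + n := by
  unfold W
  simp only [mem_union, mem_image, mem_range]
  constructor
  · rintro (⟨i, hi, rfl⟩ | ⟨i, hi, rfl⟩)
    · rw [abs_of_nonneg (by omega)]
      omega
    · rw [abs_neg, abs_of_nonneg (by omega)]
      omega
  · rintro ⟨h1, h2⟩
    rcases le_or_gt 0 x with h | h
    · rw [abs_of_nonneg h] at h1 h2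
      exact Or.inl ⟨(x - A - 1).toNat, by omega, by omega⟩
    · rw [abs_of_neg h] at h1 h2
      exact Or.inr ⟨(-x - A - 1).toNat, by omega, by omega⟩

lemma sum_sin_W (A n : ℕ) (t : ℝ) : ∑ x ∈ W A n, sin (t * x) = 0 := by
  rw [sum_W]
  refine sum_eq_zero fun i _ => ?_
  push_cast
  rw [show t * (-((A : ℝ) + 1 + i)) = -(t * ((A : ℝ) + 1 + i)) by ring, sin_neg]
  ring

lemma sum_cos_W (A n : ℕ) (t : ℝ) :
    ∑ x ∈ W A n, cos (t * x) = 2 * ∑ i ∈ range n, cos (t * (A + 1 + i)) := by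
  rw [sum_W, mul_sum]
  refine sum_congr rfl fun i _ => ?_
  push_cast
  rw [show t * (-((A : ℝ) + 1 + i)) = -(t * ((A : ℝ) + 1 + i)) by ring, cos_neg]
  ring

/-- a geometric sum over a whole number of periods vanishes -/
lemma sum_cos_period {t : ℝ} (h0 : 0 < t) (h1 : t < 2 * π) {n m : ℕ} (h : t * n = 2 * π * m)
    (c : ℝ) : ∑ i ∈ range n, cos (t * (c + i)) = 0 := by
  have hz : Complex.exp (t * Complex.I) ≠ 1 := by
    intro h2
    rw [Complex.exp_eq_one_iff] at h2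
    obtain ⟨q, hq⟩ := h2
    have h3 : (t : ℂ) = q * (2 * π) := by
      have h4 : (t : ℂ) * Complex.I = (q * (2 * π)) * Complex.I := by rw [hq]; ring
      exact mul_right_cancel₀ Complex.I_ne_zero h4
    have h5 : t = q * (2 * π) := by exact_mod_cast h3
    have hpi := Real.pi_pos
    rcases le_or_gt q 0 with hq0 | hq0
    · have : (q : ℝ) ≤ 0 := by exact_mod_cast hq0
      nlinarith
    · have : (1 : ℝ) ≤ q := by exact_mod_cast hq0
      nlinarith
  have hs : ∑ i ∈ range n, Complex.exp (t * Complex.I) ^ i = 0 := by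
    rw [geom_sum_eq hz]
    have : Complex.exp (t * Complex.I) ^ n = 1 := by
      rw [← Complex.exp_nat_mul, Complex.exp_eq_one_iff]
      refine ⟨m, ?_⟩
      have : ((t * n : ℝ) : ℂ) = ((2 * π * m : ℝ) : ℂ) := by rw [h]
      push_cast at this ⊢
      calc (n : ℂ) * (t * Complex.I) = (t * n) * Complex.I := by ring
        _ = _ := by rw [this]; ring
    rw [this, sub_self, zero_div]
  have h2 : ∑ i ∈ range n, Complex.exp (((t * (c + i) : ℝ) : ℂ) * Complex.I) = 0 := by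
    have : ∀ i ∈ range n, Complex.exp (((t * (c + i) : ℝ) : ℂ) * Complex.I) =
        Complex.exp ((t * c : ℝ) * Complex.I) * Complex.exp (t * Complex.I) ^ i := by
      intro i _
      rw [← Complex.exp_nat_mul, ← Complex.exp_add]
      congr 1
      push_cast
      ring
    rw [sum_congr rfl this, ← mul_sum, hs, mul_zero]
  have h3 := congrArg Complex.re h2
  rw [Complex.re_sum, Complex.zero_re] at h3
  rw [← h3]
  refine sum_congr rfl fun i _ => ?_
  rw [Complex.exp_ofReal_mul_I_re]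

lemma sum_cos_W_zero {j A n : ℕ} (h : 4 * N j ∣ n) : ∑ x ∈ W A n, cos (θ j * x) = 0 := by
  obtain ⟨m, rfl⟩ := h
  rw [sum_cos_W]
  have hp : θ j * ((4 * N j * m : ℕ) : ℝ) = 2 * π * m := by
    push_cast
    have := θ_mul j
    calc θ j * (4 * N j * m) = 4 * (θ j * N j) * m := by ring
      _ = _ := by rw [this]; ring
  have hlt : θ j < 2 * π := by
    have := θ_le j
    have := Real.pi_pos
    linarith
  rw [sum_cos_period (θ_pos j) hlt hp, mul_zero]

/-! ### the cosine on the ball -/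

lemma cos_ge {k : ℕ} {x : ℤ} (hx : |x| ≤ N k) : 1 - |(x : ℝ)| / N k ≤ cos (θ k * x) := by
  have hN := N_posR k
  have hx' : |(x : ℝ)| ≤ N k := by exact_mod_cast hx
  have h1 : cos (θ k * x) = sin (π / 2 - θ k * |(x : ℝ)|) := by
    rw [sin_pi_div_two_sub]
    rcases abs_choice (x : ℝ) with h | h
    · rw [h]
    · rw [h, mul_neg, cos_neg]
  rw [h1]
  have h2 : θ k * |(x : ℝ)| ≤ π / 2 := by
    rw [← θ_mul k]
    exact mul_le_mul_of_nonneg_left hx' (θ_pos k).le
  have h3 : 0 ≤ θ k * |(x : ℝ)| := mul_nonneg (θ_pos k).le (abs_nonneg _)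
  have h4 := mul_le_sin (x := π / 2 - θ k * |(x : ℝ)|) (by linarith) (by linarith)
  refine le_trans (le_of_eq ?_) h4
  unfold θ
  have := Real.pi_pos.ne'
  field_simp

lemma cos_nonneg_ball {k : ℕ} {x : ℤ} (hx : |x| ≤ N k) : 0 ≤ cos (θ k * x) := by
  refine le_trans ?_ (cos_ge hx)
  have hN := N_posR k
  have hx' : |(x : ℝ)| ≤ N k := by exact_mod_cast hx
  rw [sub_nonneg]
  exact (div_le_one hN).2 hx'

lemma cos_le {k : ℕ} {x : ℤ} (hx : |x| ≤ N k) :
    cos (θ k * x) ≤ π / 2 * ((N k - |(x : ℝ)|) / N k) := by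
  have hN := N_posR k
  have hx' : |(x : ℝ)| ≤ N k := by exact_mod_cast hx
  have h1 : cos (θ k * x) = sin (π / 2 - θ k * |(x : ℝ)|) := by
    rw [sin_pi_div_two_sub]
    rcases abs_choice (x : ℝ) with h | h
    · rw [h]
    · rw [h, mul_neg, cos_neg]
  rw [h1]
  have h2 : θ k * |(x : ℝ)| ≤ π / 2 := by
    rw [← θ_mul k]
    exact mul_le_mul_of_nonneg_left hx' (θ_pos k).le
  refine (sin_le (by linarith)).trans (le_of_eq ?_)
  unfold θ
  field_simp

/-- `N (k+1) = N k ^ 16` -/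
lemma N_succ (k : ℕ) : N (k + 1) = N k ^ 16 := by
  unfold N
  rw [← pow_mul, pow_succ]

lemma one_sub_cos_le {k : ℕ} {x : ℤ} (hx : |x| ≤ N k) :
    1 - cos (θ (k + 1) * x) ≤ 2 / (N k : ℝ) ^ 30 := by
  have hN := N_posR k
  have hx' : |(x : ℝ)| ≤ N k := by exact_mod_cast hx
  have h1 := one_sub_sq_div_two_le_cos (x := θ (k + 1) * x)
  have h2 : (θ (k + 1) * x) ^ 2 ≤ (π / 2) ^ 2 / (N k : ℝ) ^ 30 := by
    have h3 : |θ (k + 1) * x| ≤ (π / 2) / (N k : ℝ) ^ 15 := by
      rw [abs_mul, abs_of_pos (θ_pos _)]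
      calc θ (k + 1) * |(x : ℝ)| ≤ θ (k + 1) * N k :=
            mul_le_mul_of_nonneg_left hx' (θ_pos _).le
        _ = _ := by
          unfold θ
          rw [N_succ]
          push_cast
          field_simp
    rw [← sq_abs]
    calc |θ (k + 1) * x| ^ 2 ≤ ((π / 2) / (N k : ℝ) ^ 15) ^ 2 := by gcongr
      _ = _ := by rw [div_pow, ← pow_mul]
  have h4 : (π / 2) ^ 2 / 2 ≤ 2 := by
    have := Real.pi_lt_four
    have := Real.pi_pos
    nlinarith
  calc 1 - cos (θ (k + 1) * x) ≤ (θ (k + 1) * x) ^ 2 / 2 := by linarith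
    _ ≤ ((π / 2) ^ 2 / (N k : ℝ) ^ 30) / 2 := by gcongr
    _ = ((π / 2) ^ 2 / 2) / (N k : ℝ) ^ 30 := by ring
    _ ≤ 2 / (N k : ℝ) ^ 30 := by gcongr

end Q290.Ent
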