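import Mathlib
import Pool.Agent.Q290.Ent.Seq
import Pool.Agent.Q290.Ent.OneD
import Pool.Agent.Helper41.Gauss

/-!
The Gaussian field: independent standard normal variables plus the random modes.
-/

set_option autoImplicit false

open MeasureTheory ProbabilityTheory Filter Topology
open scoped ENNReal NNReal

namespace Q290.Ent

/-- law of the independent normal variables on the sites -/
noncomputable def Pg : Measure (ℤ → ℝ) := Measure.infinitePi fun _ : ℤ => γ

/-- law of the coefficients of the modes -/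
noncomputable def Pp : Measure (ℕ × Bool → ℝ) := Measure.infinitePi fun _ : ℕ × Bool => γ

instance : IsProbabilityMeasure Pg := by unfold Pg; infer_instance
instance : IsProbabilityMeasure Pp := by unfold Pp; infer_instance

/-- the sample space -/
abbrev Om : Type := (ℤ → ℝ) × (ℕ × Bool → ℝ)

/-- the probability -/
noncomputable def PP : Measure Om := Pg.prod Pp

instance : IsProbabilityMeasure PP := by unfold PP; infer_instance

/-- the `j`-th mode at the site `x` -/
noncomputable def mode (j : ℕ) (x : ℤ) (w : ℕ × Bool → ℝ) : ℝ :=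
  s j * (w (j, false) * Real.cos (θ j * x) + w (j, true) * Real.sin (θ j * x))

lemma measurable_mode (j : ℕ) (x : ℤ) : Measurable (mode j x) := by
  unfold mode
  fun_prop

/-- the coefficients of the modes beyond `k + 1` are not large -/
def Tail (k : ℕ) : Set (ℕ × Bool → ℝ) :=
  {w | ∀ i, k + 1 ≤ i → |w (i + 1, false)| ≤ 4 ^ e i ∧ |w (i + 1, true)| ≤ 4 ^ e i}

lemma measurableSet_Tail (k : ℕ) : MeasurableSet (Tail k) := by
  have : Tail k = ⋂ i : ℕ, ⋂ _ : k + 1 ≤ i,
      ({w | |w (i + 1, false)| ≤ 4 ^ e i} ∩ {w | |w (i + 1, true)| ≤ 4 ^ e i}) := by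
    ext w
    simp [Tail]
  rw [this]
  refine MeasurableSet.iInter fun i => MeasurableSet.iInter fun _ => MeasurableSet.inter ?_ ?_
  · exact measurableSet_le (by fun_prop) measurable_const
  · exact measurableSet_le (by fun_prop) measurable_const

lemma s_mul_four (i : ℕ) : 2 * (s (i + 1) * 4 ^ e i) ≤ (1 / 64) ^ i := by
  unfold s
  rw [e_succ', show (4 : ℝ) ^ e i = 2 ^ (2 * e i) by rw [pow_mul]; norm_num]
  have h1 : ((1 : ℝ) / 2) ^ (8 * e i + 1) = (1 / 2) ^ (6 * e i) * (1 / 2) ^ (2 * e i) * (1 / 2) := by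
    rw [← pow_add, ← pow_succ]
    congr 1
    ring
  have h2 : ((1 : ℝ) / 2) ^ (2 * e i) * 2 ^ (2 * e i) = 1 := by
    rw [← mul_pow]
    norm_num
  calc 2 * (((1 : ℝ) / 2) ^ (8 * e i + 1) * 2 ^ (2 * e i))
      = (1 / 2) ^ (6 * e i) * ((1 / 2) ^ (2 * e i) * 2 ^ (2 * e i)) := by rw [h1]; ring
    _ = (1 / 64) ^ e i := by rw [h2, mul_one, pow_mul]; norm_num
    _ ≤ (1 / 64) ^ i := pow_le_pow_of_le_one (by norm_num) (by norm_num) (e_ge i)

lemma mode_le {k : ℕ} {w : ℕ × Bool → ℝ} (hw : w ∈ Tail k) {i : ℕ} (hi : k + 1 ≤ i) (x : ℤ) :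
    |mode (i + 1) x w| ≤ (1 / 64) ^ i := by
  refine le_trans ?_ (s_mul_four i)
  obtain ⟨h1, h2⟩ := hw i hi
  unfold mode
  rw [abs_mul, abs_of_pos (s_pos _)]
  have h3 : |w (i + 1, false) * Real.cos (θ (i + 1) * x) +
      w (i + 1, true) * Real.sin (θ (i + 1) * x)| ≤ 2 * 4 ^ e i := by
    refine (abs_add_le _ _).trans ?_
    rw [abs_mul, abs_mul]
    have h4 := Real.abs_cos_le_one (θ (i + 1) * x)
    have h5 := Real.abs_sin_le_one (θ (i + 1) * x)
    have h6 : |w (i + 1, false)| * |Real.cos (θ (i + 1) * x)| ≤ 4 ^ e i * 1 :=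
      mul_le_mul h1 h4 (abs_nonneg _) (by positivity)
    have h7 : |w (i + 1, true)| * |Real.sin (θ (i + 1) * x)| ≤ 4 ^ e i * 1 :=
      mul_le_mul h2 h5 (abs_nonneg _) (by positivity)
    linarith
  calc s (i + 1) * _ ≤ s (i + 1) * (2 * 4 ^ e i) := mul_le_mul_of_nonneg_left h3 (s_pos _).le
    _ = _ := by ring

lemma summable_mode {k : ℕ} {w : ℕ × Bool → ℝ} (hw : w ∈ Tail k) (x : ℤ) :
    Summable fun j => mode j x w := by
  rw [← summable_nat_add_iff (k + 2)]
  refine Summable.of_norm_bounded (g := fun i : ℕ => ((1 : ℝ) / 64) ^ (i + (k + 1))) ?_ fun i => ?_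
  · exact (summable_nat_add_iff (k + 1)).2
      (summable_geometric_of_lt_one (by norm_num) (by norm_num))
  · rw [Real.norm_eq_abs]
    exact mode_le hw (i := i + (k + 1)) (by omega) x

lemma tail_sum_le {k : ℕ} {w : ℕ × Bool → ℝ} (hw : w ∈ Tail k) (x : ℤ) :
    |∑' j, mode (j + (k + 2)) x w| ≤ 1 := by
  have hs : Summable fun i : ℕ => ((1 : ℝ) / 64) ^ (i + (k + 1)) :=
    (summable_nat_add_iff (k + 1)).2 (summable_geometric_of_lt_one (by norm_num) (by norm_num))
  have h1 : ‖∑' j, mode (j + (k + 2)) x w‖ ≤ ∑' i : ℕ, ((1 : ℝ) / 64) ^ (i + (k + 1)) := by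
    refine tsum_of_norm_bounded hs.hasSum fun i => ?_
    rw [Real.norm_eq_abs]
    exact mode_le hw (i := i + (k + 1)) (by omega) x
  rw [Real.norm_eq_abs] at h1
  refine h1.trans ?_
  calc ∑' i : ℕ, ((1 : ℝ) / 64) ^ (i + (k + 1)) ≤ ∑' i : ℕ, ((1 : ℝ) / 64) ^ i * (1 / 64) := by
        refine hs.tsum_le_tsum (fun i => ?_)
          ((summable_geometric_of_lt_one (by norm_num) (by norm_num)).mul_right _)
        rw [← pow_succ]
        exact pow_le_pow_of_le_one (by norm_num) (by norm_num) (by omega)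
    _ = (∑' i : ℕ, ((1 : ℝ) / 64) ^ i) * (1 / 64) := tsum_mul_right
    _ ≤ 1 := by rw [tsum_geometric_of_lt_one (by norm_num) (by norm_num)]; norm_num

lemma Pp_coord (i : ℕ × Bool) {S : Set ℝ} (hS : MeasurableSet S) :
    Pp {w | w i ∈ S} = γ S := by
  have := (measurePreserving_eval_infinitePi (fun _ : ℕ × Bool => γ) i).measure_preimage
    hS.nullMeasurableSet
  exact this

lemma Tail_compl (k : ℕ) : Pp.real (Tail k)ᶜ ≤ Real.exp (-(16 : ℝ) ^ e (k + 1) / 4) := by
  have hsub : (Tail k)ᶜ ⊆ ⋃ i : ℕ, ({w | |w (i + (k + 1) + 1, false)| ∈ Set.Ioi (4 ^ e (i + (k + 1)))} ∪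
      {w | |w (i + (k + 1) + 1, true)| ∈ Set.Ioi (4 ^ e (i + (k + 1)))}) := by
    intro w hw
    simp only [Tail, Set.mem_compl_iff] at hw
    by_contra h
    apply hw
    intro i hi
    simp only [Set.mem_iUnion, Set.mem_union, not_exists, not_or] at h
    have := h (i - (k + 1))
    rw [Nat.sub_add_cancel hi] at this
    exact ⟨not_lt.1 this.1, not_lt.1 this.2⟩
  have hb : ∀ (i : ℕ) (b : Bool), Pp {w | |w (i + (k + 1) + 1, b)| ∈ Set.Ioi ((4 : ℝ) ^ e (i + (k + 1)))} ≤
      ENNReal.ofReal (Real.exp (-(16 : ℝ) ^ e (k + 1) / 4) * ((1 / 4) * (1 / 2) ^ i / 2)) := by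
    intro i b
    have h1 : {w : ℕ × Bool → ℝ | |w (i + (k + 1) + 1, b)| ∈ Set.Ioi ((4 : ℝ) ^ e (i + (k + 1)))} =
        {w | w (i + (k + 1) + 1, b) ∈ {x : ℝ | (4 : ℝ) ^ e (i + (k + 1)) < |x|}} := rfl
    rw [h1, Pp_coord _ (measurableSet_lt measurable_const (by fun_prop))]
    rw [← ofReal_measureReal]
    apply ENNReal.ofReal_le_ofReal
    refine (γ_two_sided (by positivity)).trans ?_
    have h2 : ((4 : ℝ) ^ e (i + (k + 1))) ^ 2 = 16 ^ e (i + (k + 1)) := by
      rw [← pow_mul, mul_comm, pow_mul]; norm_num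
    rw [h2]
    have h3 : (16 : ℝ) ^ e (k + 1) ≤ 16 ^ e (i + (k + 1)) :=
      pow_le_pow_right₀ (by norm_num) (e_mono (by omega))
    have h4 : (4 : ℝ) * (i + 4) ≤ 16 ^ e (i + (k + 1)) := by
      have h5 : i + 1 ≤ e (i + (k + 1)) := by
        have := e_ge (i + (k + 1))
        omega
      have h6 : (16 : ℝ) ^ (i + 1) ≤ 16 ^ e (i + (k + 1)) := pow_le_pow_right₀ (by norm_num) h5
      refine le_trans ?_ h6
      have h7 : ∀ i : ℕ, (4 : ℝ) * (i + 4) ≤ 16 ^ (i + 1) := by
        intro i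
        induction i with
        | zero => norm_num
        | succ i ih =>
          rw [pow_succ]
          push_cast
          have : (0 : ℝ) ≤ i := Nat.cast_nonneg i
          linarith
      exact h7 i
    have h8 : Real.exp (-(16 : ℝ) ^ e (i + (k + 1)) / 2) ≤
        Real.exp (-(16 : ℝ) ^ e (k + 1) / 4) * Real.exp (-(i + 4 : ℝ)) := by
      rw [← Real.exp_add]
      apply Real.exp_le_exp.2
      linarith
    have h9 : Real.exp (-(i + 4 : ℝ)) ≤ (1 / 2) ^ (i + 4) := by
      have : Real.exp (-1) ≤ 1 / 2 := by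
        rw [Real.exp_neg]
        have := Real.exp_one_gt_d9
        rw [inv_eq_one_div]
        apply one_div_le_one_div_of_le (by norm_num)
        linarith
      calc Real.exp (-(i + 4 : ℝ)) = Real.exp (-1) ^ (i + 4) := by
            rw [← Real.exp_nat_mul]; congr 1; push_cast; ring
        _ ≤ _ := by gcongr
    calc 2 * Real.exp (-(16 : ℝ) ^ e (i + (k + 1)) / 2)
        ≤ 2 * (Real.exp (-(16 : ℝ) ^ e (k + 1) / 4) * (1 / 2) ^ (i + 4)) := by
          apply mul_le_mul_of_nonneg_left _ (by norm_num)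
          exact h8.trans (mul_le_mul_of_nonneg_left h9 (Real.exp_pos _).le)
      _ = _ := by rw [pow_add]; ring
  have hsum : ∑' i : ℕ, ENNReal.ofReal (Real.exp (-(16 : ℝ) ^ e (k + 1) / 4) * ((1 / 4) * (1 / 2) ^ i)) ≤
      ENNReal.ofReal (Real.exp (-(16 : ℝ) ^ e (k + 1) / 4)) := by
    have hsm : Summable fun i : ℕ => Real.exp (-(16 : ℝ) ^ e (k + 1) / 4) * ((1 / 4) * (1 / 2) ^ i) :=
      ((summable_geometric_of_lt_one (by norm_num) (by norm_num)).mul_left _).mul_left _
    rw [← ENNReal.ofReal_tsum_of_nonneg (fun i => by positivity) hsm]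
    apply ENNReal.ofReal_le_ofReal
    rw [tsum_mul_left, tsum_mul_left, tsum_geometric_of_lt_one (by norm_num) (by norm_num)]
    have := Real.exp_pos (-(16 : ℝ) ^ e (k + 1) / 4)
    norm_num
    linarith
  rw [measureReal_def]
  apply ENNReal.toReal_le_of_le_ofReal (Real.exp_pos _).le
  calc Pp (Tail k)ᶜ ≤ Pp (⋃ i : ℕ, _) := measure_mono hsub
    _ ≤ ∑' i : ℕ, Pp _ := measure_iUnion_le _
    _ ≤ ∑' i : ℕ, ENNReal.ofReal (Real.exp (-(16 : ℝ) ^ e (k + 1) / 4) * ((1 / 4) * (1 / 2) ^ i)) := by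
        refine ENNReal.tsum_le_tsum fun i => ?_
        refine (measure_union_le _ _).trans ((add_le_add (hb i false) (hb i true)).trans ?_)
        rw [← ENNReal.ofReal_add (by positivity) (by positivity)]
        apply ENNReal.ofReal_le_ofReal
        linarith
    _ ≤ _ := hsum

/-- configurations for which the sums of the modes converge -/
def Good : Set (ℕ × Bool → ℝ) := ⋃ k, Tail k

lemma measurableSet_Good : MeasurableSet Good := MeasurableSet.iUnion measurableSet_Tail

lemma Good_compl : Pp Goodᶜ = 0 := by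
  have h1 : ∀ k, Pp.real Goodᶜ ≤ Real.exp (-(16 : ℝ) ^ e (k + 1) / 4) := fun k =>
    (measureReal_mono (Set.compl_subset_compl.2 (Set.subset_iUnion Tail k))).trans (Tail_compl k)
  have h2 : Tendsto (fun k : ℕ => Real.exp (-(k : ℝ) / 4)) atTop (𝓝 0) := by
    refine Real.tendsto_exp_atBot.comp ?_
    have : Tendsto (fun k : ℕ => (k : ℝ) * (-(1 / 4))) atTop atBot :=
      tendsto_natCast_atTop_atTop.atTop_mul_const_of_neg (by norm_num)
    refine this.congr fun k => by ring
  have h3 : Pp.real Goodᶜ ≤ 0 := by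
    refine ge_of_tendsto' h2 fun k => (h1 k).trans ?_
    apply Real.exp_le_exp.2
    have h4 : (k : ℝ) ≤ 16 ^ e (k + 1) := by
      have h5 : k < 16 ^ k := Nat.lt_pow_self (by norm_num)
      have h6 : (16 : ℕ) ^ k ≤ 16 ^ e (k + 1) := Nat.pow_le_pow_right (by norm_num)
        ((Nat.le_succ k).trans (e_ge (k + 1)))
      exact_mod_cast h5.le.trans h6
    linarith
  have h4 : Pp.real Goodᶜ = 0 := le_antisymm h3 measureReal_nonneg
  rw [measureReal_eq_zero_iff] at h4
  exact h4

open Classical in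
/-- the superposition of the modes -/
noncomputable def pp (x : ℤ) (w : ℕ × Bool → ℝ) : ℝ := if w ∈ Good then ∑' j, mode j x w else 0

lemma summable_mode_good {w : ℕ × Bool → ℝ} (hw : w ∈ Good) (x : ℤ) :
    Summable fun j => mode j x w := by
  obtain ⟨k, hk⟩ := Set.mem_iUnion.1 hw
  exact summable_mode hk x

lemma measurable_pp (x : ℤ) : Measurable (pp x) := by
  classical
  have h : Tendsto (fun (n : ℕ) (w : ℕ × Bool → ℝ) =>
      if w ∈ Good then ∑ j ∈ Finset.range n, mode j x w else 0) atTop (𝓝 (pp x)) := by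
    rw [tendsto_pi_nhds]
    intro w
    by_cases hw : w ∈ Good
    · simp only [pp, if_pos hw]
      exact (summable_mode_good hw x).hasSum.tendsto_sum_nat
    · simp only [pp, if_neg hw]
      exact tendsto_const_nhds
  refine measurable_of_tendsto_metrizable (fun n => ?_) h
  exact Measurable.ite measurableSet_Good
    (Finset.measurable_fun_sum _ fun j _ => measurable_mode j x) measurable_const

/-- the field -/
noncomputable def X (x : ℤ) (w : Om) : ℝ := w.1 x + pp x w.2

lemma measurable_X (x : ℤ) : Measurable (X x) := by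
  unfold X
  have := measurable_pp x
  fun_prop

end Q290.Ent
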