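import Mathlib
import Pool.Agent.Q290.Ent.Field

/-!
The characteristic functions of the field.
-/

set_option autoImplicit false

open MeasureTheory ProbabilityTheory Filter Topology
open scoped ENNReal NNReal

namespace Q290.Ent

/-- the covariance kernel -/
noncomputable def KK (x y : ℤ) : ℝ :=
  (if x = y then 1 else 0) + ∑' j, s j ^ 2 * Real.cos (θ j * ((x : ℝ) - y))

lemma summable_s_sq : Summable fun j => s j ^ 2 := by
  refine Summable.of_nonneg_of_le (fun j => by positivity) (fun j => ?_) summable_s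
  have := s_pos j
  have := s_le_one j
  nlinarith

lemma summable_KK (u : ℝ) : Summable fun j => s j ^ 2 * Real.cos (θ j * u) := by
  refine Summable.of_norm_bounded summable_s_sq fun j => ?_
  rw [Real.norm_eq_abs, abs_mul, abs_of_nonneg (by positivity)]
  exact mul_le_of_le_one_right (by positivity) (Real.abs_cos_le_one _)

/-- characteristic function of a finite combination of independent standard normal variables -/
lemma char_finset {ι : Type} (F : Finset ι) (v : ι → ℝ) :
    ∫ w, Complex.exp (Complex.I * ((∑ m ∈ F, v m * w m : ℝ) : ℂ))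
      ∂(Measure.infinitePi fun _ : ι => γ) = Complex.exp (-(1 / 2 : ℂ) * ((∑ m ∈ F, v m ^ 2 : ℝ) : ℂ)) := by
  set P := Measure.infinitePi fun _ : ι => γ with hP
  have hind : iIndepFun (fun (m : ι) (w : ι → ℝ) => v m * w m) P := by
    have := iIndepFun_infinitePi (P := fun _ : ι => γ) (X := fun m => fun x : ℝ => v m * x)
      (fun m => by fun_prop)
    exact this
  have hmeas : ∀ m : ι, Measurable fun w : ι → ℝ => v m * w m := fun m => by fun_prop
  have h1 := iIndepFun.charFun_map_fun_finsetSum_eq_prod (P := P) (s := F)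
    (X := fun (m : ι) (w : ι → ℝ) => v m * w m) (fun m _ => (hmeas m).aemeasurable)
    (hind.restrict F)
  have h2 := congrFun h1 1
  have hmeas2 : Measurable fun w : ι → ℝ => ∑ m ∈ F, v m * w m :=
    Finset.measurable_fun_sum _ fun m _ => hmeas m
  rw [charFun_apply_real, integral_map hmeas2.aemeasurable (by fun_prop)] at h2
  rw [Finset.prod_apply] at h2
  have h3 : ∀ m ∈ F, charFun (P.map fun w : ι → ℝ => v m * w m) 1 =
      Complex.exp (-(1 / 2 : ℂ) * (v m : ℂ) ^ 2) := by
    intro m _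
    have e1 : P.map (fun w : ι → ℝ => v m * w m) = gaussianReal 0 (NNReal.mk (v m ^ 2) (sq_nonneg _)) := by
      have e2 : (fun w : ι → ℝ => v m * w m) = (fun x : ℝ => v m * x) ∘ (fun w : ι → ℝ => w m) := rfl
      rw [e2, ← Measure.map_map (by fun_prop) (by fun_prop),
        (measurePreserving_eval_infinitePi (fun _ : ι => γ) m).map_eq]
      unfold γ
      rw [gaussianReal_map_const_mul]
      simp
    have e3 : ((NNReal.mk (v m ^ 2) (sq_nonneg _) : ℝ≥0) : ℝ) = v m ^ 2 := rfl
    rw [e1, charFun_gaussianReal]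
    congr 1
    rw [e3]
    push_cast
    ring
  rw [Finset.prod_congr rfl h3, ← Complex.exp_sum] at h2
  rw [← Finset.mul_sum] at h2
  push_cast at h2 ⊢
  rw [← h2]
  refine integral_congr_ae (Eventually.of_forall fun w => ?_)
  simp only
  congr 1
  ring

lemma char_g (n : ℕ) (q : Fin n → ℤ) (a : Fin n → ℝ) :
    ∫ w, Complex.exp (Complex.I * ((∑ i, a i * w (q i) : ℝ) : ℂ)) ∂Pg =
      Complex.exp (-(1 / 2 : ℂ) * ((∑ i, ∑ j, a i * a j * (if q i = q j then 1 else 0) : ℝ) : ℂ)) := by
  classical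
  let F : Finset ℤ := Finset.univ.image q
  let v : ℤ → ℝ := fun x => ∑ i, if q i = x then a i else 0
  have h := char_finset F v
  have e1 : ∀ w : ℤ → ℝ, ∑ m ∈ F, v m * w m = ∑ i, a i * w (q i) := by
    intro w
    simp only [v]
    simp_rw [Finset.sum_mul]
    rw [Finset.sum_comm]
    refine Finset.sum_congr rfl fun i _ => ?_
    rw [Finset.sum_eq_single (q i)]
    · simp
    · intro b _ hb
      rw [if_neg (Ne.symm hb), zero_mul]
    · intro h
      exact absurd (Finset.mem_image_of_mem q (Finset.mem_univ i)) h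
  have e2 : ∑ m ∈ F, v m ^ 2 = ∑ i, ∑ j, a i * a j * (if q i = q j then 1 else 0) := by
    have e3 : ∀ m, v m ^ 2 = ∑ i, ∑ j, a i * a j * ((if q i = m then 1 else 0) * (if q j = m then 1 else 0)) := by
      intro m
      simp only [v]
      rw [sq, Finset.sum_mul_sum]
      refine Finset.sum_congr rfl fun i _ => Finset.sum_congr rfl fun j _ => ?_
      split_ifs <;> ring
    simp_rw [e3]
    rw [Finset.sum_comm]
    refine Finset.sum_congr rfl fun i _ => ?_
    rw [Finset.sum_comm]
    refine Finset.sum_congr rfl fun j _ => ?_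
    rw [← Finset.mul_sum]
    congr 1
    rw [Finset.sum_eq_single (q i)]
    · by_cases hij : q i = q j
      · simp [hij]
      · simp [hij, Ne.symm hij]
    · intro b _ hb
      rw [if_neg (Ne.symm hb), zero_mul]
    · intro h
      exact absurd (Finset.mem_image_of_mem q (Finset.mem_univ i)) h
  rw [e2] at h
  unfold Pg
  rw [← h]
  refine integral_congr_ae (Eventually.of_forall fun w => ?_)
  simp only
  rw [e1]

/-- the coefficients of a linear combination -/
noncomputable def vv {n : ℕ} (q : Fin n → ℤ) (a : Fin n → ℝ) : ℕ × Bool → ℝ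
  | (j, false) => s j * ∑ i, a i * Real.cos (θ j * q i)
  | (j, true) => s j * ∑ i, a i * Real.sin (θ j * q i)

lemma sum_mode {n : ℕ} (q : Fin n → ℤ) (a : Fin n → ℝ) (M : ℕ) (w : ℕ × Bool → ℝ) :
    ∑ i, a i * ∑ j ∈ Finset.range M, mode j (q i) w =
      ∑ m ∈ Finset.range M ×ˢ (Finset.univ : Finset Bool), vv q a m * w m := by
  rw [Finset.sum_product]
  simp only [Fintype.sum_bool, vv]
  simp_rw [Finset.mul_sum]
  rw [Finset.sum_comm]
  refine Finset.sum_congr rfl fun j _ => ?_
  rw [Finset.sum_mul, Finset.sum_mul, ← Finset.sum_add_distrib]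
  refine Finset.sum_congr rfl fun i _ => ?_
  unfold mode
  ring

lemma sum_vv_sq {n : ℕ} (q : Fin n → ℤ) (a : Fin n → ℝ) (M : ℕ) :
    ∑ m ∈ Finset.range M ×ˢ (Finset.univ : Finset Bool), vv q a m ^ 2 =
      ∑ i, ∑ i', a i * a i' * ∑ j ∈ Finset.range M, s j ^ 2 * Real.cos (θ j * ((q i : ℝ) - q i')) := by
  rw [Finset.sum_product]
  simp only [Fintype.sum_bool, vv]
  have h1 : ∀ j, (s j * ∑ i, a i * Real.sin (θ j * q i)) ^ 2 + (s j * ∑ i, a i * Real.cos (θ j * q i)) ^ 2 =
      ∑ i, ∑ i', a i * a i' * (s j ^ 2 * Real.cos (θ j * ((q i : ℝ) - q i'))) := by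
    intro j
    rw [mul_pow, mul_pow, ← mul_add, sq (∑ i, a i * Real.sin (θ j * q i)),
      sq (∑ i, a i * Real.cos (θ j * q i)), Finset.sum_mul_sum, Finset.sum_mul_sum,
      ← Finset.sum_add_distrib, Finset.mul_sum]
    refine Finset.sum_congr rfl fun i _ => ?_
    rw [← Finset.sum_add_distrib, Finset.mul_sum]
    refine Finset.sum_congr rfl fun i' _ => ?_
    rw [mul_sub, Real.cos_sub]
    ring
  rw [Finset.sum_congr rfl fun j _ => h1 j, Finset.sum_comm]
  refine Finset.sum_congr rfl fun i _ => ?_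
  rw [Finset.sum_comm]
  refine Finset.sum_congr rfl fun i' _ => ?_
  rw [Finset.mul_sum]

lemma char_p (n : ℕ) (q : Fin n → ℤ) (a : Fin n → ℝ) :
    ∫ w, Complex.exp (Complex.I * ((∑ i, a i * pp (q i) w : ℝ) : ℂ)) ∂Pp =
      Complex.exp (-(1 / 2 : ℂ) * ((∑ i, ∑ i', a i * a i' *
        ∑' j, s j ^ 2 * Real.cos (θ j * ((q i : ℝ) - q i')) : ℝ) : ℂ)) := by
  have hlim1 : Tendsto (fun M : ℕ => ∫ w, Complex.exp (Complex.I *
      ((∑ m ∈ Finset.range M ×ˢ (Finset.univ : Finset Bool), vv q a m * w m : ℝ) : ℂ)) ∂Pp) atTop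
      (𝓝 (∫ w, Complex.exp (Complex.I * ((∑ i, a i * pp (q i) w : ℝ) : ℂ)) ∂Pp)) := by
    refine tendsto_integral_of_dominated_convergence (fun _ => (1 : ℝ)) ?_ (integrable_const _) ?_ ?_
    · intro M
      refine (Continuous.measurable ?_).aestronglyMeasurable
      fun_prop
    · intro M
      refine Eventually.of_forall fun w => ?_
      rw [mul_comm, Complex.norm_exp_ofReal_mul_I]
    · have hg : ∀ᵐ w ∂Pp, w ∈ Good := by
        rw [ae_iff]
        exact Good_compl
      filter_upwards [hg] with w hw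
      have h1 : Tendsto (fun M : ℕ => ∑ i, a i * ∑ j ∈ Finset.range M, mode j (q i) w) atTop
          (𝓝 (∑ i, a i * pp (q i) w)) := by
        refine tendsto_finsetSum _ fun i _ => ?_
        refine Tendsto.const_mul _ ?_
        unfold pp
        rw [if_pos hw]
        exact (summable_mode_good hw (q i)).hasSum.tendsto_sum_nat
      have h2 : Continuous fun x : ℝ => Complex.exp (Complex.I * (x : ℂ)) := by fun_prop
      have h3 := (h2.tendsto _).comp h1
      refine h3.congr fun M => ?_
      simp only [Function.comp_apply]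
      rw [sum_mode]
  have hlim2 : Tendsto (fun M : ℕ => Complex.exp (-(1 / 2 : ℂ) *
      ((∑ m ∈ Finset.range M ×ˢ (Finset.univ : Finset Bool), vv q a m ^ 2 : ℝ) : ℂ))) atTop
      (𝓝 (Complex.exp (-(1 / 2 : ℂ) * ((∑ i, ∑ i', a i * a i' *
        ∑' j, s j ^ 2 * Real.cos (θ j * ((q i : ℝ) - q i')) : ℝ) : ℂ)))) := by
    have h1 : Tendsto (fun M : ℕ => ∑ i, ∑ i', a i * a i' * ∑ j ∈ Finset.range M,
        s j ^ 2 * Real.cos (θ j * ((q i : ℝ) - q i'))) atTop
        (𝓝 (∑ i, ∑ i', a i * a i' * ∑' j, s j ^ 2 * Real.cos (θ j * ((q i : ℝ) - q i')))) := by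
      refine tendsto_finsetSum _ fun i _ => tendsto_finsetSum _ fun i' _ => ?_
      exact (summable_KK _).hasSum.tendsto_sum_nat.const_mul _
    have h2 : Continuous fun x : ℝ => Complex.exp (-(1 / 2 : ℂ) * (x : ℂ)) := by fun_prop
    have h3 := (h2.tendsto _).comp h1
    refine h3.congr fun M => ?_
    simp only [Function.comp_apply]
    rw [sum_vv_sq]
  refine tendsto_nhds_unique hlim1 (hlim2.congr fun M => ?_)
  exact (char_finset _ _).symm

lemma charKernel_X : Pool.Agent.Helper41.CharKernel X PP KK := by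
  intro n q a
  have h1 : ∀ w : Om, Complex.exp (Complex.I * ((∑ i, a i * X (q i) w : ℝ) : ℂ)) =
      Complex.exp (Complex.I * ((∑ i, a i * w.1 (q i) : ℝ) : ℂ)) *
        Complex.exp (Complex.I * ((∑ i, a i * pp (q i) w.2 : ℝ) : ℂ)) := by
    intro w
    rw [← Complex.exp_add, ← mul_add, ← Complex.ofReal_add, ← Finset.sum_add_distrib]
    congr 3
    refine Finset.sum_congr rfl fun i _ => ?_
    unfold X
    ring
  simp_rw [h1]
  unfold PP
  rw [integral_prod_mul (μ := Pg) (ν := Pp)
    (fun w : ℤ → ℝ => Complex.exp (Complex.I * ((∑ i, a i * w (q i) : ℝ) : ℂ)))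
    (fun w : ℕ × Bool → ℝ => Complex.exp (Complex.I * ((∑ i, a i * pp (q i) w : ℝ) : ℂ)))]
  rw [char_g, char_p, ← Complex.exp_add, ← mul_add, ← Complex.ofReal_add, ← Finset.sum_add_distrib]
  congr 3
  refine Finset.sum_congr rfl fun i _ => ?_
  rw [← Finset.sum_add_distrib]
  refine Finset.sum_congr rfl fun i' _ => ?_
  unfold KK
  ring

lemma isGaussianProcess_X : IsGaussianProcess X PP := charKernel_X.isGaussianProcess measurable_X

lemma mean_X (x : ℤ) : ∫ w, X x w ∂PP = 0 := charKernel_X.mean measurable_X x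

lemma KK_symm (x y : ℤ) : KK x y = KK y x := by
  unfold KK
  congr 1
  · by_cases h : x = y
    · rw [if_pos h, if_pos h.symm]
    · rw [if_neg h, if_neg (fun h' => h h'.symm)]
  · congr 1
    funext j
    rw [show θ j * ((x : ℝ) - y) = -(θ j * ((y : ℝ) - x)) by ring, Real.cos_neg]

lemma memLp_X (x : ℤ) : MemLp (X x) 2 PP := charKernel_X.memLp measurable_X x

lemma cov_X (x y : ℤ) : ∫ w, X x w * X y w ∂PP = KK x y := by
  have h := charKernel_X.cov measurable_X KK_symm x y
  rw [covariance_eq_sub (memLp_X x) (memLp_X y), mean_X, mean_X] at h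
  simpa using h

end Q290.Ent
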