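import Mathlib

/-!
Capacities and equilibrium potentials of a stationary Gaussian field on `ℤ` with spectral measure
`μ`: existence and uniqueness, and two inequalities.
-/

set_option autoImplicit false

open MeasureTheory ProbabilityTheory Filter Topology
open scoped ENNReal NNReal

namespace Q290.Ent

/-- the function `x ↦ ∫ exp(i l x) g(l) μ(dl)` on the integers -/
noncomputable def ft (μ : Measure ℝ) (g : Lp ℂ 2 μ) (x : ℤ) : ℂ :=
  ∫ l, Complex.exp (Complex.I * l * x) * g l ∂μ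

/-- `h = ft μ g` is a real function of the reproducing kernel Hilbert space, at least `1` on the
ball of radius `T` -/
def IsPotential (μ : Measure ℝ) (T : ℝ) (g : Lp ℂ 2 μ) (h : ℤ → ℝ) : Prop :=
  (∀ x, (h x : ℂ) = ft μ g x) ∧ ∀ x : ℤ, |(x : ℝ)| ≤ T → 1 ≤ h x

/-- the equilibrium potential of the ball of radius `T` -/
def IsEquilibrium (μ : Measure ℝ) (T : ℝ) (h : ℤ → ℝ) : Prop :=
  ∃ g, IsPotential μ T g h ∧ ∀ g' h', IsPotential μ T g' h' → ‖g‖ ≤ ‖g'‖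

section
variable {μ : Measure ℝ} [IsFiniteMeasure μ]

lemma norm_char' (l : ℝ) (x : ℤ) : ‖Complex.exp (-(Complex.I * l * x))‖ = 1 := by
  rw [show -(Complex.I * (l : ℂ) * (x : ℂ)) = ((-(l * x) : ℝ) : ℂ) * Complex.I by push_cast; ring,
    Complex.norm_exp_ofReal_mul_I]

lemma memLp_char (x : ℤ) : MemLp (fun l : ℝ => Complex.exp (-(Complex.I * l * x))) 2 μ :=
  MemLp.of_bound (by fun_prop : Continuous fun l : ℝ =>
    Complex.exp (-(Complex.I * l * x))).aestronglyMeasurable 1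
    (Eventually.of_forall fun l => (norm_char' l x).le)

/-- the character `exp(-i l x)` in `L²` -/
noncomputable def chi (μ : Measure ℝ) [IsFiniteMeasure μ] (x : ℤ) : Lp ℂ 2 μ :=
  (memLp_char (μ := μ) x).toLp

lemma ft_eq (g : Lp ℂ 2 μ) (x : ℤ) : ft μ g x = inner ℂ (chi μ x) g := by
  rw [L2.inner_def]
  unfold ft
  apply integral_congr_ae
  filter_upwards [(memLp_char (μ := μ) x).coeFn_toLp] with l hl
  unfold chi
  rw [hl, RCLike.inner_apply, ← Complex.exp_conj, mul_comm]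
  congr 2
  simp [Complex.conj_ofReal]

lemma inner_chi (x y : ℤ) : inner ℂ (chi μ x) (chi μ y) =
    ∫ l, Complex.exp (Complex.I * l * ((x - y : ℤ) : ℂ)) ∂μ := by
  rw [← ft_eq]
  unfold ft
  apply integral_congr_ae
  filter_upwards [(memLp_char (μ := μ) y).coeFn_toLp] with l hl
  unfold chi
  rw [hl, ← Complex.exp_add]
  congr 1
  push_cast
  ring

lemma norm_chi (x : ℤ) : ‖chi μ x‖ ^ 2 = μ.real Set.univ := by
  have h := inner_self_eq_norm_sq_to_K (𝕜 := ℂ) (chi μ x)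
  rw [inner_chi] at h
  simp only [sub_self, Int.cast_zero, mul_zero, Complex.exp_zero, integral_const, Complex.real_smul,
    mul_one] at h
  have h2 : ((μ.real Set.univ : ℝ) : ℂ) = ((‖chi μ x‖ ^ 2 : ℝ) : ℂ) := by
    rw [h]
    push_cast
    rfl
  exact_mod_cast h2.symm

lemma ft_sub (g g' : Lp ℂ 2 μ) (x : ℤ) : ft μ (g - g') x = ft μ g x - ft μ g' x := by
  rw [ft_eq, ft_eq, ft_eq, inner_sub_right]

lemma norm_ft_le (g : Lp ℂ 2 μ) (x : ℤ) : ‖ft μ g x‖ ^ 2 ≤ μ.real Set.univ * ‖g‖ ^ 2 := by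
  rw [ft_eq, ← norm_chi x, ← mul_pow]
  have := norm_inner_le_norm (𝕜 := ℂ) (chi μ x) g
  gcongr

/-- the constraint set -/
def Adm (μ : Measure ℝ) [IsFiniteMeasure μ] (T : ℝ) : Set (Lp ℂ 2 μ) :=
  {g | ∀ x : ℤ, (inner ℂ (chi μ x) g : ℂ).im = 0 ∧ (|(x : ℝ)| ≤ T → 1 ≤ (inner ℂ (chi μ x) g : ℂ).re)}

lemma adm_iff {T : ℝ} {g : Lp ℂ 2 μ} : g ∈ Adm μ T ↔ ∃ h, IsPotential μ T g h := by
  constructor
  · intro hg
    refine ⟨fun x => (inner ℂ (chi μ x) g : ℂ).re, fun x => ?_, fun x hx => (hg x).2 hx⟩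
    rw [ft_eq]
    apply Complex.ext
    · simp
    · simp [(hg x).1]
  · rintro ⟨h, h1, h2⟩ x
    rw [← ft_eq, ← h1 x]
    simp only [Complex.ofReal_im, Complex.ofReal_re, true_and]
    exact h2 x

lemma adm_closed (T : ℝ) : IsClosed (Adm μ T) := by
  have : Adm μ T = ⋂ x : ℤ, ({g | (inner ℂ (chi μ x) g : ℂ).im = 0} ∩
      ⋂ _ : |(x : ℝ)| ≤ T, {g | 1 ≤ (inner ℂ (chi μ x) g : ℂ).re}) := by
    ext g
    simp [Adm]
  rw [this]
  refine isClosed_iInter fun x => IsClosed.inter ?_ (isClosed_iInter fun _ => ?_)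
  · refine isClosed_eq ?_ continuous_const
    exact Complex.continuous_im.comp (continuous_const.inner continuous_id)
  · refine isClosed_le continuous_const ?_
    exact Complex.continuous_re.comp (continuous_const.inner continuous_id)

lemma inner_real_smul (a : ℝ) (f g : Lp ℂ 2 μ) : inner ℂ f (a • g) = (a : ℂ) * inner ℂ f g := by
  have : a • g = (a : ℂ) • g := by
    have h := smul_assoc a (1 : ℂ) g
    rw [one_smul] at h
    rw [← h]
    congr 1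
    simp [Algebra.smul_def]
  rw [this, inner_smul_right]

lemma adm_convex (T : ℝ) : Convex ℝ (Adm μ T) := by
  intro g hg g' hg' a b ha hb hab x
  rw [inner_add_right, inner_real_smul, inner_real_smul]
  obtain ⟨h1, h2⟩ := hg x
  obtain ⟨h3, h4⟩ := hg' x
  constructor
  · simp [h1, h3]
  · intro hx
    have h5 := h2 hx
    have h6 := h4 hx
    simp only [Complex.add_re, Complex.mul_re, Complex.ofReal_re, Complex.ofReal_im, zero_mul,
      sub_zero]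
    nlinarith

/-- minimizers exist -/
lemma exists_min {T : ℝ} (hne : (Adm μ T).Nonempty) : ∃ g ∈ Adm μ T, ∀ g' ∈ Adm μ T, ‖g‖ ≤ ‖g'‖ := by
  obtain ⟨g, hg, h⟩ := exists_norm_eq_iInf_of_complete_convex hne (adm_closed T).isComplete
    (adm_convex T) (0 : Lp ℂ 2 μ)
  refine ⟨g, hg, fun g' hg' => ?_⟩
  have h2 : ⨅ w : Adm μ T, ‖0 - (w : Lp ℂ 2 μ)‖ ≤ ‖0 - g'‖ :=
    ciInf_le (f := fun w : Adm μ T => ‖0 - (w : Lp ℂ 2 μ)‖)
      ⟨0, Set.forall_mem_range.2 fun _ => norm_nonneg _⟩ ⟨g', hg'⟩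
  rw [← h, zero_sub, zero_sub, norm_neg, norm_neg] at h2
  exact h2

/-- the distance of an admissible element from the minimizer -/
lemma dist_min {T : ℝ} {g g' : Lp ℂ 2 μ} (hg : g ∈ Adm μ T) (hmin : ∀ g'' ∈ Adm μ T, ‖g‖ ≤ ‖g''‖)
    (hg' : g' ∈ Adm μ T) : ‖g' - g‖ ^ 2 ≤ ‖g'‖ ^ 2 - ‖g‖ ^ 2 := by
  have h0 : ‖(0 : Lp ℂ 2 μ) - g‖ = ⨅ w : Adm μ T, ‖(0 : Lp ℂ 2 μ) - w‖ := by
    apply le_antisymm
    · have : Nonempty (Adm μ T) := ⟨⟨g, hg⟩⟩
      refine le_ciInf fun w => ?_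
      rw [zero_sub, zero_sub, norm_neg, norm_neg]
      exact hmin w w.2
    · exact ciInf_le (f := fun w : Adm μ T => ‖0 - (w : Lp ℂ 2 μ)‖)
        ⟨0, Set.forall_mem_range.2 fun _ => norm_nonneg _⟩ ⟨g, hg⟩
  have h1 := (norm_eq_iInf_iff_real_inner_le_zero (adm_convex T) hg).1 h0 g' hg'
  rw [zero_sub, inner_neg_left, inner_sub_right, real_inner_self_eq_norm_sq] at h1
  rw [@norm_sub_sq_real]
  have h2 : inner ℝ g' g = inner ℝ g g' := real_inner_comm _ _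
  rw [h2]
  linarith

lemma isEquilibrium_iff {T : ℝ} {h : ℤ → ℝ} :
    IsEquilibrium μ T h ↔ ∃ g ∈ Adm μ T, (∀ g' ∈ Adm μ T, ‖g‖ ≤ ‖g'‖) ∧ ∀ x, (h x : ℂ) = ft μ g x := by
  constructor
  · rintro ⟨g, h1, h2⟩
    refine ⟨g, adm_iff.2 ⟨h, h1⟩, fun g' hg' => ?_, h1.1⟩
    obtain ⟨h', hh⟩ := adm_iff.1 hg'
    exact h2 g' h' hh
  · rintro ⟨g, h1, h2, h3⟩
    obtain ⟨h', hh⟩ := adm_iff.1 h1
    have : h' = h := by
      funext x
      have := hh.1 x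
      rw [← h3 x] at this
      exact_mod_cast this
    subst this
    exact ⟨g, hh, fun g' h'' hg' => h2 g' (adm_iff.2 ⟨h'', hg'⟩)⟩

theorem existsUnique_equilibrium {T : ℝ} (hne : (Adm μ T).Nonempty) : ∃! h, IsEquilibrium μ T h := by
  obtain ⟨g, hg, hmin⟩ := exists_min hne
  obtain ⟨h, hh⟩ := adm_iff.1 hg
  refine ⟨h, isEquilibrium_iff.2 ⟨g, hg, hmin, hh.1⟩, fun h' hh' => ?_⟩
  obtain ⟨g', h1, h2, h3⟩ := isEquilibrium_iff.1 hh'
  have h4 := dist_min hg hmin h1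
  have h5 : ‖g'‖ = ‖g‖ := le_antisymm (h2 g hg) (hmin g' h1)
  rw [h5, sub_self] at h4
  have h6 : ‖g' - g‖ = 0 := by
    have := norm_nonneg (g' - g)
    nlinarith
  have h7 : g' = g := sub_eq_zero.1 (norm_eq_zero.1 h6)
  subst h7
  funext x
  have := h3 x
  rw [← hh.1 x] at this
  exact_mod_cast this

/-- lower bound for the norm of admissible elements: test with the uniform measure of a finite set -/
lemma dual_bound {T : ℝ} {g : Lp ℂ 2 μ} (hg : g ∈ Adm μ T) {F : Finset ℤ} (hF : F.Nonempty)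
    (hFT : ∀ x ∈ F, |(x : ℝ)| ≤ T) {V : ℝ}
    (hV : ‖∑ x ∈ F, chi μ x‖ ^ 2 ≤ V * (F.card : ℝ) ^ 2) : 1 ≤ V * ‖g‖ ^ 2 := by
  have hc : (0 : ℝ) < F.card := by exact_mod_cast hF.card_pos
  have h1 : (F.card : ℝ) ≤ ‖inner ℂ (∑ x ∈ F, chi μ x) g‖ := by
    have h2 : (F.card : ℝ) ≤ (inner ℂ (∑ x ∈ F, chi μ x) g : ℂ).re := by
      rw [sum_inner, Complex.re_sum]
      calc (F.card : ℝ) = ∑ x ∈ F, (1 : ℝ) := by simp
        _ ≤ _ := Finset.sum_le_sum fun x hx => (hg x).2 (hFT x hx)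
    exact h2.trans (Complex.re_le_norm _)
  have h3 := norm_inner_le_norm (𝕜 := ℂ) (∑ x ∈ F, chi μ x) g
  have h4 : (F.card : ℝ) ^ 2 ≤ (‖∑ x ∈ F, chi μ x‖ * ‖g‖) ^ 2 := by
    have := h1.trans h3
    gcongr
  rw [mul_pow] at h4
  have h5 : (F.card : ℝ) ^ 2 ≤ (V * (F.card : ℝ) ^ 2) * ‖g‖ ^ 2 :=
    h4.trans (mul_le_mul_of_nonneg_right hV (by positivity))
  have h6 : (0 : ℝ) < (F.card : ℝ) ^ 2 := by positivity
  have h7 : (F.card : ℝ) ^ 2 * 1 ≤ (F.card : ℝ) ^ 2 * (V * ‖g‖ ^ 2) := by linarith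
  exact le_of_mul_le_mul_left h7 h6

lemma norm_sum_chi (F : Finset ℤ) : ((‖∑ x ∈ F, chi μ x‖ ^ 2 : ℝ) : ℂ) =
    ∑ x ∈ F, ∑ y ∈ F, ∫ l, Complex.exp (Complex.I * l * ((x - y : ℤ) : ℂ)) ∂μ := by
  have h := inner_self_eq_norm_sq_to_K (𝕜 := ℂ) (∑ x ∈ F, chi μ x)
  rw [sum_inner] at h
  have h2 : ((‖∑ x ∈ F, chi μ x‖ ^ 2 : ℝ) : ℂ) = ((‖∑ x ∈ F, chi μ x‖ : ℂ)) ^ 2 := by
    push_cast
    rfl
  rw [h2]
  refine h.symm.trans (Finset.sum_congr rfl fun x _ => ?_)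
  rw [inner_sum]
  exact Finset.sum_congr rfl fun y _ => inner_chi x y

end

end Q290.Ent
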