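import Mathlib
import Pool.Agent.Q290.Ent.Seq
import Pool.Agent.Q290.Ent.Char

/-!
The spectral measure.
-/

set_option autoImplicit false

open MeasureTheory ProbabilityTheory Filter Topology
open scoped ENNReal NNReal

namespace Q290.Ent

/-- absolutely continuous part: the normalized Lebesgue measure of `(-π, π]` -/
noncomputable def μac : Measure ℝ :=
  ENNReal.ofReal (1 / (2 * Real.pi)) • volume.restrict (Set.Ioc (-Real.pi) Real.pi)

/-- discrete part: mass `s j ^ 2 / 2` at the points `± θ j` -/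
noncomputable def μd : Measure ℝ :=
  Measure.sum fun j => ENNReal.ofReal (s j ^ 2 / 2) • (Measure.dirac (θ j) + Measure.dirac (-θ j))

/-- the spectral measure -/
noncomputable def μs : Measure ℝ := μac + μd

lemma μac_univ : μac Set.univ = 1 := by
  unfold μac
  rw [Measure.smul_apply, Measure.restrict_apply_univ, Real.volume_Ioc, smul_eq_mul,
    ← ENNReal.ofReal_mul (by have := Real.pi_pos; positivity)]
  have := Real.pi_pos.ne'
  rw [show 1 / (2 * Real.pi) * (Real.pi - -Real.pi) = 1 by field_simp; ring]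
  simp

instance : IsProbabilityMeasure μac := ⟨μac_univ⟩

lemma μd_apply {S : Set ℝ} (hS : MeasurableSet S) :
    μd S = ∑' j, ENNReal.ofReal (s j ^ 2 / 2) * (Measure.dirac (θ j) S + Measure.dirac (-θ j) S) := by
  unfold μd
  rw [Measure.sum_apply _ hS]
  rfl

lemma μd_univ_lt : μd Set.univ < ∞ := by
  rw [μd_apply MeasurableSet.univ]
  have h1 : ∀ j, ENNReal.ofReal (s j ^ 2 / 2) * (Measure.dirac (θ j) (Set.univ : Set ℝ) +
      Measure.dirac (-θ j) (Set.univ : Set ℝ)) = ENNReal.ofReal (s j ^ 2) := by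
    intro j
    rw [measure_univ, measure_univ, show (1 : ℝ≥0∞) + 1 = ENNReal.ofReal 2 by norm_num,
      ← ENNReal.ofReal_mul (by positivity)]
    congr 1
    ring
  simp_rw [h1]
  rw [← ENNReal.ofReal_tsum_of_nonneg (fun j => by positivity) summable_s_sq]
  exact ENNReal.ofReal_lt_top

instance : IsFiniteMeasure μd := ⟨μd_univ_lt⟩
instance : IsFiniteMeasure μs := by unfold μs; infer_instance

lemma θ_inj : Function.Injective θ := by
  intro i j h
  unfold θ at h
  have hi := N_posR i
  have hj := N_posR j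
  have h1 : (N i : ℝ) = N j := by
    have := Real.pi_pos
    rw [div_eq_div_iff (by positivity) (by positivity)] at h
    have h2 : Real.pi * (N j : ℝ) = Real.pi * N i := by linarith
    exact (mul_left_cancel₀ this.ne' h2).symm
  have h2 : N i = N j := by exact_mod_cast h1
  unfold N at h2
  exact Nat.pow_right_injective (le_refl 2 |>.trans (by norm_num : 2 ≤ 16))
    (Nat.pow_right_injective (le_refl 2) h2)

lemma θ_ne_neg (i j : ℕ) : θ i ≠ -θ j := by
  have := θ_pos i
  have := θ_pos j
  intro h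
  linarith

lemma μd_singleton (j : ℕ) : μd {θ j} = ENNReal.ofReal (s j ^ 2 / 2) := by
  rw [μd_apply (measurableSet_singleton _), tsum_eq_single j]
  · rw [Measure.dirac_apply' _ (measurableSet_singleton _),
      Measure.dirac_apply' _ (measurableSet_singleton _)]
    have : -θ j ≠ θ j := fun h => θ_ne_neg j j h.symm
    simp [this]
  · intro i hi
    rw [Measure.dirac_apply' _ (measurableSet_singleton _),
      Measure.dirac_apply' _ (measurableSet_singleton _)]
    have h1 : θ i ≠ θ j := fun h => hi (θ_inj h)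
    have h2 : -θ i ≠ θ j := fun h => θ_ne_neg j i h.symm
    simp [h1, h2]

lemma μd_singleton_neg (j : ℕ) : μd {-θ j} = ENNReal.ofReal (s j ^ 2 / 2) := by
  rw [μd_apply (measurableSet_singleton _), tsum_eq_single j]
  · rw [Measure.dirac_apply' _ (measurableSet_singleton _),
      Measure.dirac_apply' _ (measurableSet_singleton _)]
    have : θ j ≠ -θ j := fun h => θ_ne_neg j j h
    simp [this]
  · intro i hi
    rw [Measure.dirac_apply' _ (measurableSet_singleton _),
      Measure.dirac_apply' _ (measurableSet_singleton _)]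
    have h1 : -θ i ≠ -θ j := fun h => hi (θ_inj (neg_injective h))
    have h2 : θ i ≠ -θ j := θ_ne_neg i j
    simp [h2, θ_inj.eq_iff, hi]

lemma μac_singleton (x : ℝ) : μac {x} = 0 := by
  unfold μac
  rw [Measure.smul_apply]
  have : (volume.restrict (Set.Ioc (-Real.pi) Real.pi)) {x} = 0 :=
    le_antisymm ((Measure.restrict_apply_le _ _).trans (by simp)) bot_le
  rw [this, smul_zero]

lemma μs_singleton (j : ℕ) : μs {θ j} = ENNReal.ofReal (s j ^ 2 / 2) := by
  unfold μs
  rw [Measure.add_apply, μac_singleton, μd_singleton, zero_add]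

lemma μs_singleton_neg (j : ℕ) : μs {-θ j} = ENNReal.ofReal (s j ^ 2 / 2) := by
  unfold μs
  rw [Measure.add_apply, μac_singleton, μd_singleton_neg, zero_add]

/-! ### the Fourier transform -/

lemma integrable_bdd {F : ℝ → ℂ} (hF : Continuous F) (hb : ∀ l, ‖F l‖ ≤ 1) (ν : Measure ℝ)
    [IsFiniteMeasure ν] : Integrable F ν :=
  Integrable.of_bound hF.aestronglyMeasurable 1 (Eventually.of_forall hb)

lemma norm_char (l : ℝ) (x : ℤ) : ‖Complex.exp (Complex.I * l * x)‖ = 1 := by
  rw [show Complex.I * (l : ℂ) * (x : ℂ) = ((l * x : ℝ) : ℂ) * Complex.I by push_cast; ring,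
    Complex.norm_exp_ofReal_mul_I]

lemma continuous_char (x : ℤ) : Continuous fun l : ℝ => Complex.exp (Complex.I * l * x) := by
  fun_prop

lemma integral_μac (x : ℤ) :
    ∫ l, Complex.exp (Complex.I * l * x) ∂μac = if x = 0 then 1 else 0 := by
  unfold μac
  have hpi := Real.pi_pos
  rw [integral_smul_measure, ← intervalIntegral.integral_of_le (by linarith),
    ENNReal.toReal_ofReal (by positivity)]
  by_cases hx : x = 0
  · subst hx
    simp only [Int.cast_zero, mul_zero, Complex.exp_zero, if_pos]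
    rw [intervalIntegral.integral_const, sub_neg_eq_add, ← two_mul]
    rw [smul_smul, one_div, inv_mul_cancel₀ (by positivity), one_smul]
  · rw [if_neg hx]
    have hx' : (Complex.I * (x : ℂ)) ≠ 0 :=
      mul_ne_zero Complex.I_ne_zero (by exact_mod_cast hx)
    have h1 : ∀ l : ℝ, Complex.exp (Complex.I * l * x) = Complex.exp ((Complex.I * x) * l) := by
      intro l
      congr 1
      ring
    simp_rw [h1]
    rw [integral_exp_mul_complex hx']
    have h2 : Complex.exp (Complex.I * x * (Real.pi : ℝ)) =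
        Complex.exp (Complex.I * x * ((-Real.pi : ℝ) : ℂ)) := by
      rw [Complex.exp_eq_exp_iff_exists_int]
      refine ⟨x, ?_⟩
      push_cast
      ring
    rw [h2, sub_self, zero_div, smul_zero]

lemma integral_μd (x : ℤ) :
    ∫ l, Complex.exp (Complex.I * l * x) ∂μd = ((∑' j, s j ^ 2 * Real.cos (θ j * x) : ℝ) : ℂ) := by
  have hint : Integrable (fun l : ℝ => Complex.exp (Complex.I * l * x)) μd :=
    integrable_bdd (continuous_char x) (fun l => (norm_char l x).le) _
  have h1 := integral_sum_measure (f := fun l : ℝ => Complex.exp (Complex.I * l * x))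
    (μ := fun j => ENNReal.ofReal (s j ^ 2 / 2) • (Measure.dirac (θ j) + Measure.dirac (-θ j)))
    hint
  unfold μd
  rw [h1, Complex.ofReal_tsum]
  congr 1
  funext j
  rw [integral_smul_measure, integral_add_measure, integral_dirac, integral_dirac,
    ENNReal.toReal_ofReal (by positivity)]
  · rw [Complex.real_smul]
    push_cast
    have h2 : Complex.exp (Complex.I * (θ j : ℂ) * x) + Complex.exp (Complex.I * (-(θ j : ℂ)) * x) =
        2 * Complex.cos ((θ j : ℂ) * x) := by
      rw [Complex.two_cos]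
      congr 2 <;> ring
    rw [h2]
    ring
  · exact integrable_bdd (continuous_char x) (fun l => (norm_char l x).le) _
  · exact integrable_bdd (continuous_char x) (fun l => (norm_char l x).le) _

lemma integral_μs (x y : ℤ) :
    ∫ l, Complex.exp (Complex.I * l * ((x - y : ℤ) : ℂ)) ∂μs = (KK x y : ℂ) := by
  unfold μs
  rw [integral_add_measure (integrable_bdd (continuous_char _) (fun l => (norm_char l _).le) _)
    (integrable_bdd (continuous_char _) (fun l => (norm_char l _).le) _), integral_μac, integral_μd]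
  unfold KK
  rw [Complex.ofReal_add]
  congr 1
  · by_cases h : x = y
    · simp [h]
    · rw [if_neg (sub_ne_zero.2 h), if_neg h]
      simp
  · congr 2
    funext j
    push_cast
    rfl

/-! ### condition (N) -/

lemma μac_abs : μac ≪ volume := by
  unfold μac
  exact (Measure.absolutelyContinuous_of_le Measure.restrict_le_self).smul_left _

lemma μac_ne : μac ≠ 0 := by
  intro h
  have := μac_univ
  rw [h] at this
  simp at this

lemma μd_countable : ∃ C : Set ℝ, C.Countable ∧ μd Cᶜ = 0 := by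
  refine ⟨Set.range θ ∪ Set.range fun j => -θ j, (Set.countable_range _).union
    (Set.countable_range _), ?_⟩
  have hm : MeasurableSet (Set.range θ ∪ Set.range fun j => -θ j)ᶜ :=
    ((Set.countable_range _).union (Set.countable_range _)).measurableSet.compl
  rw [μd_apply hm, ENNReal.tsum_eq_zero]
  intro j
  rw [Measure.dirac_apply' _ hm, Measure.dirac_apply' _ hm]
  have h1 : θ j ∈ Set.range θ ∪ Set.range fun j => -θ j := Or.inl ⟨j, rfl⟩
  have h2 : -θ j ∈ Set.range θ ∪ Set.range fun j => -θ j := Or.inr ⟨j, rfl⟩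
  simp only [Set.indicator_of_notMem (fun h : θ j ∈ (Set.range θ ∪ Set.range fun j => -θ j)ᶜ => h h1),
    Set.indicator_of_notMem (fun h : -θ j ∈ (Set.range θ ∪ Set.range fun j => -θ j)ᶜ => h h2)]
  simp

/-! ### condition (S) -/

lemma N_le_inv {k : ℕ} : Real.log (1 / θ k) ≥ ((16 : ℝ) ^ k - 1) * Real.log 2 := by
  have hpi := Real.pi_pos
  have h1 : ((N k : ℝ)) / 2 ≤ 1 / θ k := by
    unfold θ
    rw [one_div_div]
    rw [div_le_div_iff₀ (by norm_num) hpi]
    have := Real.pi_lt_four
    have := N_posR k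
    nlinarith
  have h2 : Real.log ((N k : ℝ) / 2) = ((16 : ℝ) ^ k - 1) * Real.log 2 := by
    rw [Real.log_div (N_posR k).ne' (by norm_num)]
    unfold N
    push_cast
    rw [Real.log_pow]
    push_cast
    ring
  rw [ge_iff_le, ← h2]
  apply Real.log_le_log _ h1
  have := N_posR k
  positivity

lemma μs_ball_ge {k : ℕ} {δ : ℝ} (h : θ k < δ) : s k ^ 2 ≤ μs.real (Metric.ball 0 δ) := by
  have h1 : ({θ k} ∪ {-θ k} : Set ℝ) ⊆ Metric.ball 0 δ := by
    intro x hx
    have := θ_pos k
    rcases hx with rfl | rfl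
    · rw [Metric.mem_ball, dist_zero_right, Real.norm_eq_abs, abs_of_pos this]
      exact h
    · rw [Metric.mem_ball, dist_zero_right, Real.norm_eq_abs, abs_neg, abs_of_pos this]
      exact h
  have h2 : μs ({θ k} ∪ {-θ k} : Set ℝ) = ENNReal.ofReal (s k ^ 2) := by
    rw [measure_union _ (measurableSet_singleton _), μs_singleton, μs_singleton_neg,
      ← ENNReal.ofReal_add (by positivity) (by positivity)]
    · congr 1
      ring
    · rw [Set.disjoint_singleton]
      exact θ_ne_neg k k
  have h3 : μs.real ({θ k} ∪ {-θ k} : Set ℝ) = s k ^ 2 := by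
    rw [measureReal_def, h2, ENNReal.toReal_ofReal (by positivity)]
  rw [← h3]
  exact measureReal_mono h1

lemma tendsto_θ : Tendsto θ atTop (𝓝 0) := by
  unfold θ
  have h1 : Tendsto (fun k : ℕ => 2 * (N k : ℝ)) atTop atTop := by
    refine Tendsto.const_mul_atTop (by norm_num) ?_
    refine tendsto_natCast_atTop_atTop.comp ?_
    refine tendsto_atTop_mono (fun k => ?_) tendsto_id
    unfold N
    have h2 : k < 16 ^ k := Nat.lt_pow_self (by norm_num)
    have h3 : 16 ^ k < 2 ^ (16 ^ k) := Nat.lt_pow_self (by norm_num)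
    exact (h2.trans h3).le
  exact h1.const_div_atTop _

lemma θ_anti {i j : ℕ} (h : i ≤ j) : θ j ≤ θ i := by
  unfold θ
  have h1 : (N i : ℝ) ≤ N j := by
    exact_mod_cast Nat.le_of_dvd (N_pos j) (N_dvd h)
  have := N_posR i
  apply div_le_div_of_nonneg_left Real.pi_pos.le (by positivity)
  linarith

lemma condS : Tendsto (fun δ : ℝ => Real.log (μs.real (Metric.ball 0 δ)) / Real.log δ) (𝓝[>] 0) (𝓝 0) := by
  have hM : 0 < μs.real Set.univ := by
    rw [measureReal_def]
    apply ENNReal.toReal_pos _ (measure_ne_top _ _)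
    intro h
    have h2 := μs_singleton 0
    have h3 : μs {θ 0} ≤ μs Set.univ := measure_mono (Set.subset_univ _)
    rw [h, h2] at h3
    have := s_pos 0
    rw [le_zero_iff, ENNReal.ofReal_eq_zero] at h3
    have : 0 < s 0 ^ 2 / 2 := by positivity
    linarith
  have hlog : Tendsto Real.log (𝓝[>] 0) atBot := Real.tendsto_log_nhdsGT_zero
  rw [Metric.tendsto_nhds]
  intro ε hε
  -- upper side
  obtain ⟨K, hK1, hK2⟩ : ∃ K : ℕ, 1 ≤ K ∧ 5 * (1 / 2 : ℝ) ^ K < ε := by
    have h1 : Tendsto (fun K : ℕ => 5 * (1 / 2 : ℝ) ^ K) atTop (𝓝 (5 * 0)) :=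
      (tendsto_pow_atTop_nhds_zero_of_lt_one (by norm_num) (by norm_num)).const_mul _
    rw [mul_zero] at h1
    obtain ⟨K, hK⟩ := ((h1.eventually (gt_mem_nhds hε)).and (eventually_ge_atTop 1)).exists
    exact ⟨K, hK.2, hK.1⟩
  have hlow : Tendsto (fun δ : ℝ => Real.log (μs.real Set.univ) / Real.log δ) (𝓝[>] 0) (𝓝 0) :=
    hlog.const_div_atBot _
  have hlow' := (Metric.tendsto_nhds.1 hlow) ε hε
  have hδ : ∀ᶠ δ : ℝ in 𝓝[>] 0, 0 < δ ∧ δ < θ K := by
    filter_upwards [self_mem_nhdsWithin,
      mem_nhdsWithin_of_mem_nhds (gt_mem_nhds (θ_pos K))] with δ h1 h2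
    exact ⟨h1, h2⟩
  filter_upwards [hlow', hδ] with δ h1 ⟨h2, h3⟩
  have hθK : θ K < 1 := by
    have := θ_le K
    have := Real.pi_lt_four
    linarith
  have hlogδ : Real.log δ < 0 := Real.log_neg h2 (h3.trans hθK)
  -- the scale of δ
  obtain ⟨k, hk1, hk2⟩ : ∃ k, K ≤ k ∧ δ ≤ θ k ∧ θ (k + 1) < δ := by
    have hex : ∃ n, θ n < δ := (tendsto_θ.eventually (gt_mem_nhds h2)).exists
    classical
    have hf := Nat.find_spec hex
    have hKn : K < Nat.find hex := by
      by_contra h
      have := θ_anti (not_lt.1 h)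
      linarith
    refine ⟨Nat.find hex - 1, by omega, ?_, ?_⟩
    · have := Nat.find_min hex (m := Nat.find hex - 1) (by omega)
      exact not_lt.1 this
    · rw [Nat.sub_add_cancel (by omega)]
      exact hf
  have hb1 := μs_ball_ge hk2.2
  have hb0 : 0 < μs.real (Metric.ball 0 δ) := lt_of_lt_of_le (by have := s_pos (k + 1); positivity) hb1
  have hb2 : μs.real (Metric.ball 0 δ) ≤ μs.real Set.univ := measureReal_mono (Set.subset_univ _)
  have hl1 : Real.log (μs.real (Metric.ball 0 δ)) ≤ Real.log (μs.real Set.univ) :=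
    Real.log_le_log hb0 hb2
  have hl2 : -(2 * e (k + 1) * Real.log 2) ≤ Real.log (μs.real (Metric.ball 0 δ)) := by
    have h4 : Real.log (s (k + 1) ^ 2) = -(2 * e (k + 1) * Real.log 2) := by
      unfold s
      rw [Real.log_pow, Real.log_pow, one_div, Real.log_inv]
      push_cast
      ring
    rw [← h4]
    exact Real.log_le_log (by have := s_pos (k + 1); positivity) hb1
  have hl3 : ((16 : ℝ) ^ k - 1) * Real.log 2 ≤ -Real.log δ := by
    refine (N_le_inv (k := k)).trans ?_
    rw [one_div, Real.log_inv]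
    exact neg_le_neg (Real.log_le_log h2 hk2.1)
  have hlog2 : 0 < Real.log 2 := Real.log_pos (by norm_num)
  rw [Real.dist_eq, sub_zero, abs_lt] at h1 ⊢
  constructor
  · refine h1.1.trans_le ?_
    exact div_le_div_of_nonpos_of_le hlogδ.le hl1
  · rw [div_lt_iff_of_neg hlogδ]
    have h16 : (1 : ℝ) ≤ 16 ^ k / 16 := by
      rw [le_div_iff₀ (by norm_num)]
      calc (1 : ℝ) * 16 = 16 ^ 1 := by norm_num
        _ ≤ 16 ^ k := pow_le_pow_right₀ (by norm_num) (hK1.trans hk1)
    have h7 : (7 : ℝ) * e (k + 1) + 1 = 8 ^ (k + 1) := by exact_mod_cast seven_e (k + 1)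
    have h8 : (8 : ℝ) ^ (k + 1) = 8 * ((1 / 2) ^ k * 16 ^ k) := by
      rw [← mul_pow, pow_succ]
      norm_num
      ring
    have h9 : (1 / 2 : ℝ) ^ k ≤ (1 / 2) ^ K := pow_le_pow_of_le_one (by norm_num) (by norm_num) hk1
    have h10 : (0 : ℝ) < (1 / 2) ^ k := by positivity
    have h11 : (0 : ℝ) < 16 ^ k := by positivity
    have h12 : (2 : ℝ) * e (k + 1) ≤ 5 * (1 / 2) ^ k * (16 ^ k - 1) := by
      have h13 : (2 : ℝ) * e (k + 1) ≤ (16 / 7) * ((1 / 2) ^ k * 16 ^ k) := by linarith
      refine h13.trans ?_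
      have h14 : (16 / 7 : ℝ) * 16 ^ k ≤ 5 * (16 ^ k - 1) := by linarith
      nlinarith
    have h15 : 5 * (1 / 2 : ℝ) ^ k < ε := lt_of_le_of_lt (by linarith) hK2
    have h16' : (0 : ℝ) < 16 ^ k - 1 := by linarith
    have h17 : 2 * (e (k + 1) : ℝ) < ε * (16 ^ k - 1) := by nlinarith
    have h18 : 2 * (e (k + 1) : ℝ) * Real.log 2 < ε * (16 ^ k - 1) * Real.log 2 := by nlinarith
    nlinarith

end Q290.Ent
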