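import Mathlib
import Pool.Agent.Q290.Ent.Spec
import Pool.Agent.Q290.Ent.Pot

/-!
The equilibrium potentials of the field: existence, and their values at the quarter periods.
-/

set_option autoImplicit false

open MeasureTheory ProbabilityTheory Filter Topology
open scoped ENNReal NNReal

namespace Q290.Ent

attribute [local irreducible] e s N θ

/-- the two atoms at `± θ j` -/
def At (j : ℕ) : Set ℝ := {θ j} ∪ {-θ j}

lemma measurableSet_At (j : ℕ) : MeasurableSet (At j) :=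
  (measurableSet_singleton _).union (measurableSet_singleton _)

lemma μs_At (j : ℕ) : μs (At j) = ENNReal.ofReal (s j ^ 2) := by
  unfold At
  rw [measure_union _ (measurableSet_singleton _), μs_singleton, μs_singleton_neg,
    ← ENNReal.ofReal_add (by positivity) (by positivity)]
  · congr 1
    ring
  · rw [Set.disjoint_singleton]
    exact θ_ne_neg j j

lemma μs_real_At (j : ℕ) : μs.real (At j) = s j ^ 2 := by
  rw [measureReal_def, μs_At, ENNReal.toReal_ofReal (by positivity)]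

/-- multiple of the indicator function of the two atoms -/
noncomputable def comp (j : ℕ) (c : ℝ) : Lp ℂ 2 μs :=
  indicatorConstLp 2 (measurableSet_At j) (measure_ne_top _ _) (c : ℂ)

lemma norm_comp (j : ℕ) (c : ℝ) : ‖comp j c‖ ^ 2 = c ^ 2 * s j ^ 2 := by
  unfold comp
  rw [norm_indicatorConstLp (by norm_num) (by norm_num), μs_real_At, mul_pow]
  congr 1
  · rw [Complex.norm_real, Real.norm_eq_abs, sq_abs]
  · rw [← Real.rpow_natCast, ← Real.rpow_mul (by positivity)]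
    norm_num

lemma ft_comp (j : ℕ) (c : ℝ) (x : ℤ) :
    ft μs (comp j c) x = ((c * (s j ^ 2 * Real.cos (θ j * x)) : ℝ) : ℂ) := by
  unfold ft comp
  have h1 : ∫ l, Complex.exp (Complex.I * l * x) *
      (indicatorConstLp 2 (measurableSet_At j) (measure_ne_top μs (At j)) (c : ℂ)) l ∂μs =
      ∫ l in At j, Complex.exp (Complex.I * l * x) * (c : ℂ) ∂μs := by
    rw [← integral_indicator (measurableSet_At j)]
    apply integral_congr_ae
    filter_upwards [indicatorConstLp_coeFn (p := 2) (hs := measurableSet_At j)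
      (hμs := measure_ne_top μs (At j)) (c := (c : ℂ))] with l hl
    rw [hl]
    by_cases h : l ∈ At j
    · simp [h]
    · simp [h]
  rw [h1]
  unfold At
  have hint : ∀ S : Set ℝ, IntegrableOn (fun l : ℝ => Complex.exp (Complex.I * l * x) * (c : ℂ)) S μs := by
    intro S
    exact ((integrable_bdd (continuous_char x) (fun l => (norm_char l x).le) μs).mul_const _).integrableOn
  rw [setIntegral_union _ (measurableSet_singleton _) (hint _) (hint _), integral_singleton,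
    integral_singleton, measureReal_def, measureReal_def, μs_singleton, μs_singleton_neg,
    ENNReal.toReal_ofReal (by positivity), Complex.real_smul, Complex.real_smul]
  · push_cast
    have h2 : Complex.exp (Complex.I * (θ j : ℂ) * x) + Complex.exp (Complex.I * (-(θ j : ℂ)) * x) =
        2 * Complex.cos ((θ j : ℂ) * x) := by
      rw [Complex.two_cos]
      congr 2 <;> ring
    calc (s j : ℂ) ^ 2 / 2 * (Complex.exp (Complex.I * (θ j : ℂ) * x) * c) +
          (s j : ℂ) ^ 2 / 2 * (Complex.exp (Complex.I * (-(θ j : ℂ)) * x) * c) =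
          (s j : ℂ) ^ 2 / 2 * c * (Complex.exp (Complex.I * (θ j : ℂ) * x) +
            Complex.exp (Complex.I * (-(θ j : ℂ)) * x)) := by ring
      _ = _ := by rw [h2]; ring
  · rw [Set.disjoint_singleton]
    exact θ_ne_neg j j

/-- the cosine of the next mode is close to one on the ball of radius `N k` -/
lemma cos_next_ge {k : ℕ} {x : ℤ} (hx : |x| ≤ N k) : 4 / 5 ≤ Real.cos (θ (k + 1) * x) := by
  have h1 := one_sub_cos_le hx
  have h2 : (2 : ℝ) / (N k : ℝ) ^ 30 ≤ 1 / 5 := by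
    have h3 : (2 : ℝ) ≤ N k := by exact_mod_cast two_le_N k
    have h4 : (2 : ℝ) ^ 30 ≤ (N k : ℝ) ^ 30 := by gcongr
    rw [div_le_div_iff₀ (by positivity) (by norm_num)]
    norm_num at h4 ⊢
    linarith
  linarith

lemma comp_adm {k : ℕ} {T : ℝ} (hT : T ≤ N k) :
    comp (k + 1) (1 / (s (k + 1) ^ 2 * Real.cos (θ (k + 1) * N k))) ∈ Adm μs T := by
  have hs := s_pos (k + 1)
  have hc0 : 4 / 5 ≤ Real.cos (θ (k + 1) * N k) := by
    have := cos_next_ge (k := k) (x := (N k : ℤ)) (by simp)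
    simpa using this
  intro x
  rw [← ft_eq, ft_comp]
  simp only [Complex.ofReal_im, Complex.ofReal_re, true_and]
  intro hx
  have hx' : |(x : ℝ)| ≤ N k := hx.trans hT
  have hx2 : |x| ≤ (N k : ℤ) := by exact_mod_cast hx'
  have h1 : Real.cos (θ (k + 1) * N k) ≤ Real.cos (θ (k + 1) * x) := by
    rw [← Real.cos_abs (θ (k + 1) * x), abs_mul, abs_of_pos (θ_pos (k + 1))]
    apply Real.cos_le_cos_of_nonneg_of_le_pi
    · exact mul_nonneg (θ_pos _).le (abs_nonneg _)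
    · have h2 : θ (k + 1) * N k ≤ θ (k + 1) * N (k + 1) := by
        apply mul_le_mul_of_nonneg_left _ (θ_pos _).le
        exact_mod_cast Nat.le_of_dvd (N_pos _) (N_dvd (Nat.le_succ k))
      rw [θ_mul] at h2
      have := Real.pi_pos
      linarith
    · exact mul_le_mul_of_nonneg_left hx' (θ_pos _).le
  rw [div_mul_eq_mul_div, one_mul, le_div_iff₀ (by positivity), one_mul]
  exact mul_le_mul_of_nonneg_left h1 (by positivity)

lemma adm_nonempty (T : ℝ) : (Adm μs T).Nonempty := by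
  obtain ⟨k, hk⟩ := exists_nat_ge T
  have h : (k : ℝ) ≤ N k := by
    have h2 : k < 16 ^ k := Nat.lt_pow_self (by norm_num)
    have h3 : 16 ^ k < 2 ^ (16 ^ k) := Nat.lt_pow_self (by norm_num)
    have h4 : k ≤ N k := by
      unfold N
      exact (h2.trans h3).le
    exact_mod_cast h4
  exact ⟨_, comp_adm (hk.trans h)⟩

theorem existsUnique_eq (T : ℝ) : ∃! h, IsEquilibrium μs T h :=
  existsUnique_equilibrium (adm_nonempty T)

/-- length of the windows: `N (k+1) = (r k)^2` -/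
def r (k : ℕ) : ℕ := 2 ^ (8 * 16 ^ k)

lemma N_eq_r (k : ℕ) : N (k + 1) = r k * r k := by
  unfold N r
  rw [← pow_add]
  congr 1
  rw [pow_succ]
  ring

lemma r_pos (k : ℕ) : 0 < r k := by unfold r; positivity

lemma dvd_r {j k : ℕ} (h : j ≤ k) : 4 * N j ∣ r k := by
  unfold N r
  rw [show 4 * 2 ^ (16 ^ j) = 2 ^ (16 ^ j + 2) by rw [pow_add]; ring]
  apply pow_dvd_pow
  have h1 : 16 ^ j ≤ 16 ^ k := Nat.pow_le_pow_right (by norm_num) h
  have h2 : 1 ≤ 16 ^ k := Nat.one_le_pow _ _ (by norm_num)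
  omega

lemma double_cos (F : Finset ℤ) (t : ℝ) : ∑ x ∈ F, ∑ y ∈ F, Real.cos (t * ((x : ℝ) - y)) =
    (∑ x ∈ F, Real.cos (t * x)) ^ 2 + (∑ x ∈ F, Real.sin (t * x)) ^ 2 := by
  rw [sq, sq, Finset.sum_mul_sum, Finset.sum_mul_sum, ← Finset.sum_add_distrib]
  refine Finset.sum_congr rfl fun x _ => ?_
  rw [← Finset.sum_add_distrib]
  refine Finset.sum_congr rfl fun y _ => ?_
  rw [mul_sub, Real.cos_sub]

lemma sum_KK (F : Finset ℤ) : ∑ x ∈ F, ∑ y ∈ F, KK x y =
    F.card + ∑' j, s j ^ 2 * ((∑ x ∈ F, Real.cos (θ j * x)) ^ 2 + (∑ x ∈ F, Real.sin (θ j * x)) ^ 2) := by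
  unfold KK
  simp_rw [Finset.sum_add_distrib]
  congr 1
  · simp
  · have h1 : ∀ x ∈ F, ∀ y ∈ F, Summable fun j => s j ^ 2 * Real.cos (θ j * ((x : ℝ) - y)) :=
      fun x _ y _ => summable_KK _
    rw [Finset.sum_congr rfl fun x hx => (Summable.tsum_finsetSum (h1 x hx)).symm]
    rw [← Summable.tsum_finsetSum fun x hx => summable_sum (h1 x hx)]
    congr 1
    funext j
    rw [← double_cos, Finset.mul_sum]
    refine Finset.sum_congr rfl fun x _ => ?_
    rw [Finset.mul_sum]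

/-- the squares of the amplitudes decrease geometrically -/
lemma s_sq_tail (m i : ℕ) : s (i + m) ^ 2 ≤ s m ^ 2 * (1 / 2) ^ i := by
  induction i with
  | zero => simp
  | succ i ih =>
    have h1 : s (i + 1 + m) ≤ s (i + m) * (1 / 2) := by
      rw [show i + 1 + m = (i + m) + 1 by ring, s_succ]
      apply mul_le_mul_of_nonneg_left _ (s_pos _).le
      calc ((1 : ℝ) / 2) ^ (8 ^ (i + m)) ≤ (1 / 2) ^ 1 :=
            pow_le_pow_of_le_one (by norm_num) (by norm_num) (Nat.one_le_pow _ _ (by norm_num))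
        _ = 1 / 2 := pow_one _
    have h2 := s_pos (i + 1 + m)
    have h3 := s_pos (i + m)
    calc s (i + 1 + m) ^ 2 ≤ (s (i + m) * (1 / 2)) ^ 2 := by gcongr
      _ = s (i + m) ^ 2 * (1 / 4) := by ring
      _ ≤ s (i + m) ^ 2 * (1 / 2) := by
        apply mul_le_mul_of_nonneg_left (by norm_num) (by positivity)
      _ ≤ (s m ^ 2 * (1 / 2) ^ i) * (1 / 2) := by gcongr
      _ = _ := by rw [pow_succ]; ring

lemma tsum_s_sq_tail (m : ℕ) : ∑' i, s (i + m) ^ 2 ≤ 2 * s m ^ 2 := by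
  have h1 : Summable fun i : ℕ => s m ^ 2 * ((1 : ℝ) / 2) ^ i :=
    (summable_geometric_of_lt_one (by norm_num) (by norm_num)).mul_left _
  have h2 : Summable fun i => s (i + m) ^ 2 := (summable_nat_add_iff m).2 summable_s_sq
  calc ∑' i, s (i + m) ^ 2 ≤ ∑' i : ℕ, s m ^ 2 * ((1 : ℝ) / 2) ^ i :=
        h2.tsum_le_tsum (s_sq_tail m) h1
    _ = _ := by
      rw [tsum_mul_left, tsum_geometric_of_lt_one (by norm_num) (by norm_num)]
      norm_num
      ring

/-- bound of a weighted sum of squares -/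
lemma weighted (k : ℕ) (c : ℕ → ℝ) (B : ℝ) (hall : ∀ j, c j ^ 2 ≤ B ^ 2)
    (hlow : ∀ j, j ≤ k → c j = 0) (hmid : c (k + 1) ^ 2 ≤ 16) :
    ∑' j, s j ^ 2 * c j ^ 2 ≤ 16 + s (k + 2) ^ 2 * B ^ 2 + 2 * s (k + 3) ^ 2 * B ^ 2 := by
  have hsm : Summable fun j => s j ^ 2 * c j ^ 2 := by
    refine Summable.of_nonneg_of_le (fun j => by positivity) (fun j => ?_)
      (summable_s_sq.mul_right (B ^ 2))
    exact mul_le_mul_of_nonneg_left (hall j) (by positivity)
  rw [← hsm.sum_add_tsum_nat_add (k + 3)]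
  have h3 : ∑ j ∈ Finset.range (k + 3), s j ^ 2 * c j ^ 2 ≤ 16 + s (k + 2) ^ 2 * B ^ 2 := by
    rw [Finset.sum_range_succ, Finset.sum_range_succ]
    have h4 : ∑ j ∈ Finset.range (k + 1), s j ^ 2 * c j ^ 2 = 0 := by
      refine Finset.sum_eq_zero fun j hj => ?_
      rw [hlow j (by rw [Finset.mem_range] at hj; omega)]
      ring
    rw [h4, zero_add]
    have h5 : s (k + 1) ^ 2 ≤ 1 := pow_le_one₀ (s_pos _).le (s_le_one _)
    have h6 : s (k + 1) ^ 2 * c (k + 1) ^ 2 ≤ 1 * 16 :=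
      mul_le_mul h5 hmid (by positivity) (by norm_num)
    have h7 : s (k + 2) ^ 2 * c (k + 2) ^ 2 ≤ s (k + 2) ^ 2 * B ^ 2 :=
      mul_le_mul_of_nonneg_left (hall _) (by positivity)
    linarith
  have h8 : ∑' i, s (i + (k + 3)) ^ 2 * c (i + (k + 3)) ^ 2 ≤ 2 * s (k + 3) ^ 2 * B ^ 2 := by
    have hsm3 : Summable fun i => s (i + (k + 3)) ^ 2 * c (i + (k + 3)) ^ 2 :=
      (summable_nat_add_iff (f := fun j => s j ^ 2 * c j ^ 2) (k + 3)).2 hsm
    have hsm4 : Summable fun i => s (i + (k + 3)) ^ 2 * B ^ 2 :=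
      ((summable_nat_add_iff (f := fun j => s j ^ 2) (k + 3)).2 summable_s_sq).mul_right _
    have h9 : ∑' i, s (i + (k + 3)) ^ 2 * c (i + (k + 3)) ^ 2 ≤ ∑' i, s (i + (k + 3)) ^ 2 * B ^ 2 :=
      hsm3.tsum_le_tsum (fun i => mul_le_mul_of_nonneg_left (hall _) (by positivity)) hsm4
    rw [tsum_mul_right] at h9
    exact h9.trans (mul_le_mul_of_nonneg_right (tsum_s_sq_tail (k + 3)) (by positivity))
  linarith

/-- the end window of the ball of radius `N (k+1)` -/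
def EW (k : ℕ) : Finset ℤ := W (N (k + 1) - r k) (r k)

lemma r_le_N (k : ℕ) : r k ≤ N (k + 1) := by
  rw [N_eq_r]
  exact Nat.le_mul_of_pos_right _ (r_pos k)

lemma card_EW (k : ℕ) : ((EW k).card : ℝ) = 2 * r k := by
  unfold EW
  rw [card_W]
  push_cast
  ring

lemma mem_EW {k : ℕ} {x : ℤ} (hx : x ∈ EW k) :
    |x| ≤ (N (k + 1) : ℤ) ∧ (N (k + 1) : ℝ) - |(x : ℝ)| ≤ r k := by
  have hrN := r_le_N k
  unfold EW at hx
  rw [mem_W] at hx
  have h3 : |x| ≤ (N (k + 1) : ℤ) := by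
    have := hx.2
    push_cast [Nat.cast_sub hrN] at this
    linarith
  refine ⟨h3, ?_⟩
  have h4 := hx.1
  push_cast [Nat.cast_sub hrN] at h4
  have h5 : ((N (k + 1) : ℤ) : ℝ) - (r k : ℤ) < ((|x| : ℤ) : ℝ) := by exact_mod_cast h4
  push_cast at h5
  linarith

lemma cos_EW {k : ℕ} {x : ℤ} (hx : x ∈ EW k) : Real.cos (θ (k + 1) * x) ≤ 2 * (1 / (r k : ℝ)) := by
  have hr : (0 : ℝ) < r k := by exact_mod_cast r_pos k
  obtain ⟨h1, h2⟩ := mem_EW hx
  refine (cos_le h1).trans ?_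
  have h5 : ((N (k + 1) : ℝ) - |(x : ℝ)|) / N (k + 1) ≤ 1 / r k := by
    have hN : (N (k + 1) : ℝ) = r k * r k := by
      rw [N_eq_r]
      push_cast
      ring
    rw [hN] at h2 ⊢
    rw [div_le_div_iff₀ (by positivity) hr, one_mul]
    nlinarith
  have h6 : 0 ≤ ((N (k + 1) : ℝ) - |(x : ℝ)|) / N (k + 1) := by
    apply div_nonneg _ (Nat.cast_nonneg _)
    have : |(x : ℝ)| ≤ N (k + 1) := by exact_mod_cast h1
    linarith
  have h7 : Real.pi / 2 ≤ 2 := by
    have := Real.pi_lt_four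
    linarith
  calc Real.pi / 2 * (((N (k + 1) : ℝ) - |(x : ℝ)|) / N (k + 1))
      ≤ 2 * (((N (k + 1) : ℝ) - |(x : ℝ)|) / N (k + 1)) := mul_le_mul_of_nonneg_right h7 h6
    _ ≤ _ := mul_le_mul_of_nonneg_left h5 (by norm_num)

lemma sum_KK_EW (k : ℕ) : ∑ x ∈ EW k, ∑ y ∈ EW k, KK x y ≤
    ((EW k).card : ℝ) + (16 + s (k + 2) ^ 2 * ((EW k).card : ℝ) ^ 2 +
      2 * s (k + 3) ^ 2 * ((EW k).card : ℝ) ^ 2) := by
  rw [sum_KK]
  have hr : (0 : ℝ) < r k := by exact_mod_cast r_pos k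
  have hsin : ∀ j, (∑ x ∈ EW k, Real.cos (θ j * x)) ^ 2 + (∑ x ∈ EW k, Real.sin (θ j * x)) ^ 2 =
      (∑ x ∈ EW k, Real.cos (θ j * x)) ^ 2 := by
    intro j
    have : ∑ x ∈ EW k, Real.sin (θ j * x) = 0 := sum_sin_W _ _ _
    rw [this]
    ring
  simp_rw [hsin]
  have h := weighted k (fun j => ∑ x ∈ EW k, Real.cos (θ j * x)) ((EW k).card : ℝ) ?_ ?_ ?_
  · linarith
  · intro j
    rw [sq_le_sq, abs_of_nonneg (Nat.cast_nonneg (α := ℝ) (EW k).card)]
    refine (Finset.abs_sum_le_sum_abs _ _).trans ?_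
    calc ∑ x ∈ EW k, |Real.cos (θ j * x)| ≤ ∑ x ∈ EW k, (1 : ℝ) :=
          Finset.sum_le_sum fun x _ => Real.abs_cos_le_one _
      _ = (EW k).card := by simp
  · intro j hj
    exact sum_cos_W_zero (dvd_r hj)
  · have h3 : 0 ≤ ∑ x ∈ EW k, Real.cos (θ (k + 1) * x) :=
      Finset.sum_nonneg fun x hx => cos_nonneg_ball (mem_EW hx).1
    have h4 : ∑ x ∈ EW k, Real.cos (θ (k + 1) * x) ≤ 4 := by
      have h5 : ∑ x ∈ EW k, Real.cos (θ (k + 1) * x) ≤ ∑ x ∈ EW k, 2 * (1 / (r k : ℝ)) :=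
        Finset.sum_le_sum fun x hx => cos_EW hx
      rw [Finset.sum_const, nsmul_eq_mul, card_EW] at h5
      have h6 : 2 * (r k : ℝ) * (2 * (1 / (r k : ℝ))) = 4 := by
        field_simp
        norm_num
      linarith
    show (∑ x ∈ EW k, Real.cos (θ (k + 1) * x)) ^ 2 ≤ 16
    nlinarith

/-- the square norm of the window functional at the scale `k + 1` -/
lemma window_norm (k : ℕ) : ‖∑ x ∈ EW k, chi μs x‖ ^ 2 ≤
    (s (k + 2) ^ 2 + (4 / r k + 2 * s (k + 3) ^ 2)) * ((EW k).card : ℝ) ^ 2 := by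
  have h1 : ‖∑ x ∈ EW k, chi μs x‖ ^ 2 = ∑ x ∈ EW k, ∑ y ∈ EW k, KK x y := by
    have h := norm_sum_chi (μ := μs) (EW k)
    simp_rw [integral_μs] at h
    have h2 : ((∑ x ∈ EW k, ∑ y ∈ EW k, KK x y : ℝ) : ℂ) = ∑ x ∈ EW k, ∑ y ∈ EW k, (KK x y : ℂ) := by
      push_cast
      rfl
    rw [← h2] at h
    exact_mod_cast h
  rw [h1]
  refine (sum_KK_EW k).trans ?_
  have hr : (0 : ℝ) < r k := by exact_mod_cast r_pos k
  have h9 : ((EW k).card : ℝ) + 16 ≤ 4 / r k * ((EW k).card : ℝ) ^ 2 := by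
    rw [card_EW]
    have : 4 / (r k : ℝ) * (2 * r k) ^ 2 = 16 * r k := by
      field_simp
      ring
    rw [this]
    have hr8 : (2 : ℝ) ≤ r k := by
      unfold r
      push_cast
      calc (2 : ℝ) = 2 ^ 1 := by norm_num
        _ ≤ 2 ^ (8 * 16 ^ k) := pow_le_pow_right₀ (by norm_num) (by
          have : 1 ≤ 16 ^ k := Nat.one_le_pow _ _ (by norm_num)
          omega)
    linarith
  have h10 : (s (k + 2) ^ 2 + (4 / (r k : ℝ) + 2 * s (k + 3) ^ 2)) * ((EW k).card : ℝ) ^ 2 =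
      s (k + 2) ^ 2 * ((EW k).card : ℝ) ^ 2 + 4 / r k * ((EW k).card : ℝ) ^ 2 +
        2 * s (k + 3) ^ 2 * ((EW k).card : ℝ) ^ 2 := by ring
  rw [h10]
  linarith

/-- arithmetic of the scales -/
lemma scale_one {k : ℕ} (hk : 3 ≤ k) : 4 * e (k + 2) + 11 ≤ 8 * 16 ^ k := by
  have h1 := seven_e (k + 2)
  have h2 : 8 ^ (k + 2) = 64 * 8 ^ k := by rw [pow_add]; ring
  have h3 : 8 ^ k * 8 ≤ 16 ^ k := by
    have : 16 ^ k = 8 ^ k * 2 ^ k := by
      rw [← mul_pow]
      norm_num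
    rw [this]
    have : 2 ^ 3 ≤ 2 ^ k := Nat.pow_le_pow_right (by norm_num) hk
    exact Nat.mul_le_mul_left _ this
  have h4 : 1 ≤ 8 ^ k := Nat.one_le_pow _ _ (by norm_num)
  omega

lemma tot_mass : μs.real Set.univ ≤ 3 := by
  have h := norm_chi (μ := μs) 0
  have h1 := inner_chi (μ := μs) 0 0
  rw [integral_μs] at h1
  have h2 := inner_self_eq_norm_sq_to_K (𝕜 := ℂ) (chi μs 0)
  rw [h1] at h2
  have h3 : KK 0 0 = ‖chi μs 0‖ ^ 2 := by
    apply Complex.ofReal_injective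
    rw [h2]
    push_cast
    rfl
  rw [← h, ← h3]
  unfold KK
  simp only [if_true, sub_self, mul_zero, Real.cos_zero, mul_one]
  have h4 : ∑' j, s j ^ 2 ≤ ∑' j, s j := by
    refine summable_s_sq.tsum_le_tsum (fun j => ?_) summable_s
    have := s_pos j
    have := s_le_one j
    nlinarith
  have := tsum_s_le
  linarith

/-- at the quarter period of the mode `k + 1` the equilibrium potential is at most `3/2` -/
theorem potential_le {k : ℕ} (hk : 3 ≤ k) {h : ℤ → ℝ} (hh : IsEquilibrium μs (N (k + 1)) h)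
    (x : ℤ) : h x ≤ 3 / 2 := by
  obtain ⟨g, hg, hmin, hgh⟩ := isEquilibrium_iff.1 hh
  have hs := s_pos (k + 2)
  have hs1 := s_le_one (k + 2)
  have hr : (0 : ℝ) < r k := by exact_mod_cast r_pos k
  set C := Real.cos (θ (k + 2) * N (k + 1)) with hC
  have hC0 : 4 / 5 ≤ C := by
    have := cos_next_ge (k := k + 1) (x := (N (k + 1) : ℤ)) (by simp)
    simpa using this
  have hC1 : C ≤ 1 := Real.cos_le_one _
  have hC2 : 1 - C ≤ 2 / (N (k + 1) : ℝ) ^ 30 := by
    have := one_sub_cos_le (k := k + 1) (x := (N (k + 1) : ℤ)) (by simp)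
    simpa using this
  have hadm := comp_adm (k := k + 1) (le_refl (N (k + 1) : ℝ))
  set c := 1 / (s (k + 2) ^ 2 * C) with hc
  have hadm' : comp (k + 2) c ∈ Adm μs (N (k + 1)) := hadm
  have h1 := dist_min hg hmin hadm'
  have h2 : ‖comp (k + 2) c‖ ^ 2 = 1 / (s (k + 2) ^ 2 * C ^ 2) := by
    rw [norm_comp, hc]
    field_simp
  set η := 4 / (r k : ℝ) + 2 * s (k + 3) ^ 2 with hη
  have hη0 : 0 < η := by have := s_pos (k + 3); positivity
  have h3 : 1 ≤ (s (k + 2) ^ 2 + η) * ‖g‖ ^ 2 := by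
    refine dual_bound hg (F := EW k) ?_ ?_ (window_norm k)
    · rw [← Finset.card_pos]
      have := card_EW k
      have h5 : (0 : ℝ) < (EW k).card := by rw [this]; positivity
      exact_mod_cast h5
    · intro x hx
      have := (mem_EW hx).1
      exact_mod_cast this
  have h4 : 1 / (s (k + 2) ^ 2 + η) ≤ ‖g‖ ^ 2 := by
    rw [div_le_iff₀ (by positivity)]
    linarith
  -- the distance
  have h5 : ‖comp (k + 2) c - g‖ ^ 2 ≤ 1 / (s (k + 2) ^ 2 * C ^ 2) - 1 / (s (k + 2) ^ 2 + η) := by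
    rw [h2] at h1
    linarith
  have h6 : 1 / (s (k + 2) ^ 2 * C ^ 2) - 1 / (s (k + 2) ^ 2 + η) ≤
      4 * (1 - C) / s (k + 2) ^ 2 + η / s (k + 2) ^ 4 := by
    set S := s (k + 2) ^ 2 with hS
    have hS0 : 0 < S := by positivity
    have hS4 : s (k + 2) ^ 4 = S ^ 2 := by rw [hS]; ring
    rw [hS4]
    have e1 : 1 / (S * C ^ 2) - 1 / S ≤ 4 * (1 - C) / S := by
      have e2 : 1 / (S * C ^ 2) - 1 / S = (1 - C ^ 2) / C ^ 2 / S := by
        field_simp
      rw [e2]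
      apply div_le_div_of_nonneg_right _ hS0.le
      rw [div_le_iff₀ (by positivity)]
      have e5 : 0 ≤ (1 - C) * (4 * C ^ 2 - 1 - C) := mul_nonneg (by linarith) (by nlinarith)
      nlinarith
    have e3 : 1 / S - 1 / (S + η) ≤ η / S ^ 2 := by
      have e4 : 1 / S - 1 / (S + η) = η / (S * (S + η)) := by
        field_simp
        ring
      rw [e4]
      apply div_le_div_of_nonneg_left hη0.le (by positivity)
      nlinarith
    linarith
  -- numerical estimates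
  have hsinv : s (k + 2) ^ 4 * 2 ^ (4 * e (k + 2)) = 1 := by
    unfold s
    rw [← pow_mul, mul_comm (e (k + 2)) 4, ← mul_pow]
    norm_num
  have hr2 : (2 : ℝ) ^ (4 * e (k + 2)) * 2048 ≤ r k := by
    unfold r
    push_cast
    calc (2 : ℝ) ^ (4 * e (k + 2)) * 2048 = 2 ^ (4 * e (k + 2) + 11) := by rw [pow_add]; norm_num
      _ ≤ 2 ^ (8 * 16 ^ k) := pow_le_pow_right₀ (by norm_num) (scale_one hk)
  have hr3 : 2048 ≤ (r k : ℝ) * s (k + 2) ^ 4 := by
    calc (2048 : ℝ) = (2 ^ (4 * e (k + 2)) * 2048) * s (k + 2) ^ 4 := by linarith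
      _ ≤ _ := mul_le_mul_of_nonneg_right hr2 (by positivity)
  have ha : 4 / (r k : ℝ) / s (k + 2) ^ 4 ≤ 1 / 500 := by
    rw [div_div, div_le_div_iff₀ (by positivity) (by norm_num)]
    linarith
  have hb : 4 * (1 - C) / s (k + 2) ^ 2 ≤ 1 / 200 := by
    have hN : (r k : ℝ) ≤ (N (k + 1) : ℝ) ^ 30 := by
      have h7 : (r k : ℝ) ≤ N (k + 1) := by exact_mod_cast r_le_N k
      have h8 : (1 : ℝ) ≤ N (k + 1) := by exact_mod_cast N_pos (k + 1)
      exact h7.trans (le_self_pow₀ h8 (by norm_num))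
    have h9 : 1 - C ≤ 2 / (r k : ℝ) :=
      hC2.trans (div_le_div_of_nonneg_left (by norm_num) hr hN)
    have h10 : s (k + 2) ^ 4 ≤ s (k + 2) ^ 2 := pow_le_pow_of_le_one hs.le hs1 (by norm_num)
    have h11 : 2048 ≤ (r k : ℝ) * s (k + 2) ^ 2 := hr3.trans (mul_le_mul_of_nonneg_left h10 hr.le)
    calc 4 * (1 - C) / s (k + 2) ^ 2 ≤ 4 * (2 / (r k : ℝ)) / s (k + 2) ^ 2 := by gcongr
      _ = 8 / ((r k : ℝ) * s (k + 2) ^ 2) := by field_simp; norm_num
      _ ≤ 1 / 200 := by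
        rw [div_le_div_iff₀ (by positivity) (by norm_num)]
        linarith
  have hd : 2 * s (k + 3) ^ 2 / s (k + 2) ^ 4 ≤ 1 / 200 := by
    have h7 : s (k + 3) = s (k + 2) * (1 / 2) ^ (8 ^ (k + 2)) := s_succ (k + 2)
    have h8 : ((1 : ℝ) / 2) ^ (8 ^ (k + 2)) ≤ s (k + 2) * (1 / 32) := by
      unfold s
      rw [show (1 : ℝ) / 32 = (1 / 2) ^ 5 by norm_num, ← pow_add]
      apply pow_le_pow_of_le_one (by norm_num) (by norm_num)
      have := seven_e (k + 2)
      have := e_ge (k + 2)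
      omega
    have h9 : s (k + 3) ≤ s (k + 2) * (s (k + 2) * (1 / 32)) := by
      rw [h7]
      exact mul_le_mul_of_nonneg_left h8 hs.le
    have h10 : s (k + 3) ^ 2 ≤ (s (k + 2) * (s (k + 2) * (1 / 32))) ^ 2 := by
      have := s_pos (k + 3)
      gcongr
    rw [div_le_iff₀ (by positivity)]
    nlinarith [pow_pos hs 4]
  have h12 : ‖comp (k + 2) c - g‖ ^ 2 ≤ 1 / 60 := by
    have e1 : η / s (k + 2) ^ 4 = 4 / (r k : ℝ) / s (k + 2) ^ 4 + 2 * s (k + 3) ^ 2 / s (k + 2) ^ 4 := by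
      rw [hη, add_div]
    rw [e1] at h6
    linarith
  -- evaluation
  have h13 := norm_ft_le (comp (k + 2) c - g) x
  rw [ft_sub, ft_comp, ← hgh x] at h13
  have h14 : ‖((c * (s (k + 2) ^ 2 * Real.cos (θ (k + 2) * x)) : ℝ) : ℂ) - (h x : ℂ)‖ ^ 2 =
      (c * (s (k + 2) ^ 2 * Real.cos (θ (k + 2) * x)) - h x) ^ 2 := by
    rw [← Complex.ofReal_sub, Complex.norm_real, Real.norm_eq_abs, sq_abs]
  rw [h14] at h13
  have h15 : (c * (s (k + 2) ^ 2 * Real.cos (θ (k + 2) * x)) - h x) ^ 2 ≤ (1 / 4) ^ 2 := by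
    have h16 := tot_mass
    have h17 : 0 ≤ μs.real Set.univ := measureReal_nonneg
    calc _ ≤ μs.real Set.univ * ‖comp (k + 2) c - g‖ ^ 2 := h13
      _ ≤ 3 * (1 / 60) := mul_le_mul h16 h12 (by positivity) (by norm_num)
      _ ≤ _ := by norm_num
  have h18 := abs_le_of_sq_le_sq' h15 (by norm_num)
  have h19 : c * (s (k + 2) ^ 2 * Real.cos (θ (k + 2) * x)) ≤ 5 / 4 := by
    have e1 : c * (s (k + 2) ^ 2 * Real.cos (θ (k + 2) * x)) = Real.cos (θ (k + 2) * x) / C := by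
      rw [hc]
      field_simp
    rw [e1, div_le_iff₀ (by linarith)]
    have := Real.cos_le_one (θ (k + 2) * x)
    linarith
  linarith [h18.1]

end Q290.Ent
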