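import Mathlib
import Pool.Agent.Q290.Ent.Field

/-!
Fubini for the field: conditional probability of positivity given the modes; the sums of the modes
over windows.
-/

set_option autoImplicit false

open MeasureTheory ProbabilityTheory Filter Topology
open scoped ENNReal NNReal

namespace Q290.Ent

attribute [local irreducible] e s N θ

/-- positivity on a finite set, with a restriction on the modes -/
def PosOn (F : Finset ℤ) (E : Set (ℕ × Bool → ℝ)) : Set Om :=
  {w | w.2 ∈ E ∧ ∀ x ∈ F, 0 ≤ X x w}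

lemma measurableSet_PosOn (F : Finset ℤ) {E : Set (ℕ × Bool → ℝ)} (hE : MeasurableSet E) :
    MeasurableSet (PosOn F E) := by
  have : PosOn F E = (Prod.snd ⁻¹' E) ∩ ⋂ x ∈ F, {w | 0 ≤ X x w} := by
    ext w
    simp [PosOn]
  rw [this]
  refine (measurable_snd hE).inter ?_
  exact F.measurableSet_biInter fun x _ => measurableSet_le measurable_const (measurable_X x)

lemma PosOn_apply (F : Finset ℤ) {E : Set (ℕ × Bool → ℝ)} (hE : MeasurableSet E) :
    PP (PosOn F E) = ∫⁻ w in E, ∏ x ∈ F, γ (Set.Ici (-pp x w)) ∂Pp := by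
  unfold PP
  rw [Measure.prod_apply_symm (measurableSet_PosOn F hE), ← lintegral_indicator hE]
  congr 1
  funext y
  by_cases hy : y ∈ E
  · rw [Set.indicator_of_mem hy]
    have h1 : (fun x => (x, y)) ⁻¹' PosOn F E = Set.pi F (fun x => Set.Ici (-pp x y)) := by
      ext g
      simp only [PosOn, Set.mem_preimage, Set.mem_pi, X]
      constructor
      · rintro ⟨_, h⟩ x hx
        have := h x hx
        simp only [Set.mem_Ici]
        linarith
      · intro h
        refine ⟨hy, fun x hx => ?_⟩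
        have := h x hx
        simp only [Set.mem_Ici] at this
        linarith
    rw [h1]
    unfold Pg
    exact Measure.infinitePi_pi _ fun i _ => measurableSet_Ici
  · rw [Set.indicator_of_notMem hy]
    have h1 : (fun x => (x, y)) ⁻¹' PosOn F E = ∅ := by
      ext g
      simp [PosOn, hy]
    rw [h1, measure_empty]

lemma PosOn_le (F : Finset ℤ) {E : Set (ℕ × Bool → ℝ)} (hE : MeasurableSet E) {c : ℝ} (hc : 0 ≤ c)
    (h : ∀ w ∈ E, ∏ x ∈ F, γ.real (Set.Ici (-pp x w)) ≤ c) : PP.real (PosOn F E) ≤ c := by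
  rw [measureReal_def, PosOn_apply F hE]
  apply ENNReal.toReal_le_of_le_ofReal hc
  calc ∫⁻ w in E, ∏ x ∈ F, γ (Set.Ici (-pp x w)) ∂Pp ≤ ∫⁻ w in E, ENNReal.ofReal c ∂Pp := by
        refine setLIntegral_mono' hE fun w hw => ?_
        have h1 := h w hw
        rw [← ENNReal.ofReal_toReal (a := ∏ x ∈ F, γ (Set.Ici (-pp x w)))
          (ENNReal.prod_ne_top fun x _ => measure_ne_top _ _)]
        apply ENNReal.ofReal_le_ofReal
        rw [ENNReal.toReal_prod]
        exact h1
    _ ≤ ENNReal.ofReal c := by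
        rw [setLIntegral_const]
        exact mul_le_of_le_one_right bot_le prob_le_one

lemma le_PosOn (F : Finset ℤ) {E : Set (ℕ × Bool → ℝ)} (hE : MeasurableSet E) {c : ℝ}
    (h : ∀ w ∈ E, c ≤ ∏ x ∈ F, γ.real (Set.Ici (-pp x w))) : c * Pp.real E ≤ PP.real (PosOn F E) := by
  rcases le_or_gt c 0 with hc | hc
  · exact (mul_nonpos_of_nonpos_of_nonneg hc measureReal_nonneg).trans measureReal_nonneg
  rw [measureReal_def (μ := PP), PosOn_apply F hE, measureReal_def,
    ← ENNReal.toReal_ofReal hc.le, ← ENNReal.toReal_mul]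
  refine ENNReal.toReal_mono ?_ ?_
  · rw [← PosOn_apply F hE]
    exact measure_ne_top _ _
  · rw [← setLIntegral_const]
    refine setLIntegral_mono' hE fun w hw => ?_
    have h1 := h w hw
    rw [← ENNReal.ofReal_toReal (a := ∏ x ∈ F, γ (Set.Ici (-pp x w)))
      (ENNReal.prod_ne_top fun x _ => measure_ne_top _ _)]
    apply ENNReal.ofReal_le_ofReal
    rw [ENNReal.toReal_prod]
    exact h1

/-! ### sums over windows -/

lemma pp_split {k : ℕ} {w : ℕ × Bool → ℝ} (hw : w ∈ Tail k) (x : ℤ) :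
    pp x w = ∑ j ∈ Finset.range (k + 2), mode j x w + ∑' j, mode (j + (k + 2)) x w := by
  have hg : w ∈ Good := Set.mem_iUnion.2 ⟨k, hw⟩
  unfold pp
  rw [if_pos hg]
  exact ((summable_mode_good hg x).sum_add_tsum_nat_add (k + 2)).symm

lemma sum_mode_W (j A n : ℕ) (w : ℕ × Bool → ℝ) :
    ∑ x ∈ W A n, mode j x w = s j * w (j, false) * ∑ x ∈ W A n, Real.cos (θ j * x) := by
  unfold mode
  have h1 : ∀ x ∈ W A n, s j * (w (j, false) * Real.cos (θ j * x) + w (j, true) * Real.sin (θ j * x)) =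
      s j * w (j, false) * Real.cos (θ j * x) + s j * w (j, true) * Real.sin (θ j * x) := by
    intro x _
    ring
  rw [Finset.sum_congr rfl h1, Finset.sum_add_distrib, ← Finset.mul_sum, ← Finset.mul_sum,
    sum_sin_W, mul_zero, add_zero]

/-- the sum of the modes over a window of whole periods of the modes up to `k` -/
lemma sum_pp_W {k A n : ℕ} (hn : 4 * N k ∣ n) {w : ℕ × Bool → ℝ} (hw : w ∈ Tail (k + 1)) :
    |∑ x ∈ W A n, pp x w -
      (s (k + 1) * w (k + 1, false) * ∑ x ∈ W A n, Real.cos (θ (k + 1) * x) +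
       s (k + 2) * w (k + 2, false) * ∑ x ∈ W A n, Real.cos (θ (k + 2) * x))| ≤ (W A n).card := by
  have h1 : ∑ x ∈ W A n, pp x w =
      (s (k + 1) * w (k + 1, false) * ∑ x ∈ W A n, Real.cos (θ (k + 1) * x) +
       s (k + 2) * w (k + 2, false) * ∑ x ∈ W A n, Real.cos (θ (k + 2) * x)) +
      ∑ x ∈ W A n, ∑' j, mode (j + (k + 1 + 2)) x w := by
    rw [Finset.sum_congr rfl fun x _ => pp_split hw x, Finset.sum_add_distrib]
    congr 1
    rw [Finset.sum_comm, Finset.sum_range_succ, Finset.sum_range_succ]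
    have h2 : ∑ j ∈ Finset.range (k + 1), ∑ x ∈ W A n, mode j x w = 0 := by
      refine Finset.sum_eq_zero fun j hj => ?_
      rw [sum_mode_W, sum_cos_W_zero, mul_zero]
      rw [Finset.mem_range] at hj
      exact (Nat.mul_dvd_mul_left 4 (N_dvd (by omega))).trans hn
    rw [h2, zero_add, sum_mode_W, sum_mode_W]
  rw [h1, add_sub_cancel_left]
  refine (Finset.abs_sum_le_sum_abs _ _).trans ?_
  calc ∑ x ∈ W A n, |∑' j, mode (j + (k + 1 + 2)) x w| ≤ ∑ x ∈ W A n, (1 : ℝ) :=
        Finset.sum_le_sum fun x _ => tail_sum_le hw x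
    _ = (W A n).card := by simp

/-- lower deviations of the sum of the independent variables -/
lemma Pg_dev (F : Finset ℤ) : Pg.real {g | ∑ x ∈ F, g x ≤ -(F.card : ℝ)} ≤ Real.exp (-(F.card : ℝ) / 2) := by
  have hind : iIndepFun (fun (x : ℤ) (g : ℤ → ℝ) => -g x) Pg := by
    have := iIndepFun_infinitePi (P := fun _ : ℤ => γ) (X := fun _ => fun x : ℝ => -x)
      (fun m => by fun_prop)
    exact this
  have hlaw : ∀ x : ℤ, Pg.map (fun g : ℤ → ℝ => -g x) = gaussianReal 0 1 := by
    intro x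
    have e2 : (fun g : ℤ → ℝ => -g x) = (fun x : ℝ => -x) ∘ (fun g : ℤ → ℝ => g x) := rfl
    rw [e2, ← Measure.map_map (by fun_prop) (by fun_prop)]
    have e3 : Pg.map (fun g : ℤ → ℝ => g x) = γ :=
      (measurePreserving_eval_infinitePi (fun _ : ℤ => γ) x).map_eq
    rw [e3]
    unfold γ
    rw [gaussianReal_map_neg, neg_zero]
  have hm := hind.mgf_sum (t := 1) (fun x => by fun_prop) F
  have hm2 : mgf (∑ x ∈ F, fun g : ℤ → ℝ => -g x) Pg 1 = Real.exp ((F.card : ℝ) / 2) := by
    rw [hm]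
    have h3 : ∀ x ∈ F, mgf (fun g : ℤ → ℝ => -g x) Pg 1 = Real.exp (1 / 2) := by
      intro x _
      rw [mgf_gaussianReal (hlaw x)]
      norm_num
    rw [Finset.prod_congr rfl h3, Finset.prod_const, ← Real.exp_nat_mul]
    congr 1
    ring
  have hint : Integrable (fun g => Real.exp (1 * (∑ x ∈ F, fun g : ℤ → ℝ => -g x) g)) Pg := by
    by_contra h
    have := mgf_undef (X := ∑ x ∈ F, fun g : ℤ → ℝ => -g x) (μ := Pg) (t := 1) h
    rw [hm2] at this
    exact (Real.exp_pos _).ne' this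
  have h := measure_ge_le_exp_mul_mgf (μ := Pg) (X := ∑ x ∈ F, fun g : ℤ → ℝ => -g x)
    (F.card : ℝ) (t := 1) (by norm_num) hint
  rw [hm2, ← Real.exp_add] at h
  refine le_trans (le_of_eq ?_) (h.trans (le_of_eq ?_))
  · congr 1
    ext g
    simp only [Set.mem_ofPred_eq, Finset.sum_apply, Finset.sum_neg_distrib]
    constructor <;> intro h <;> linarith
  · congr 1
    ring

end Q290.Ent
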