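import Mathlib
import Pool.Agent.Q290.Ent.Fub
import Pool.Agent.Q290.Ent.Eq

/-!
Upper bound for the probability of positivity with a small mean in the centre.
-/

set_option autoImplicit false

open MeasureTheory ProbabilityTheory Filter Topology
open scoped ENNReal NNReal

namespace Q290.Ent

attribute [local irreducible] e s N θ

/-- the ball of radius `N (k+1)` -/
noncomputable def Bk (k : ℕ) : Finset ℤ := Finset.Icc (-(N (k + 1) : ℤ)) (N (k + 1))

lemma mem_Bk {k : ℕ} {x : ℤ} : x ∈ Bk k ↔ |x| ≤ (N (k + 1) : ℤ) := by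
  unfold Bk
  rw [Finset.mem_Icc, abs_le]

/-- width of the two boundary layers -/
def wd (k : ℕ) : ℕ := 2 ^ (16 ^ (k + 1) - (2 * k + 8))

lemma N_eq_wd (k : ℕ) : N (k + 1) = wd k * 2 ^ (2 * k + 8) := by
  unfold N wd
  rw [← pow_add]
  congr 1
  have h : 2 * k + 8 ≤ 16 ^ (k + 1) := by
    induction k with
    | zero => norm_num
    | succ k ih => rw [pow_succ]; omega
  omega

lemma wd_pos (k : ℕ) : 0 < wd k := by unfold wd; positivity

lemma wd_le (k : ℕ) : wd k ≤ N (k + 1) := by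
  rw [N_eq_wd]
  exact Nat.le_mul_of_pos_right _ (by positivity)

lemma dvd_wd {k : ℕ} (hk : 1 ≤ k) : 4 * N k ∣ wd k := by
  unfold N wd
  rw [show 4 * 2 ^ (16 ^ k) = 2 ^ (16 ^ k + 2) by rw [pow_add]; ring]
  apply pow_dvd_pow
  have h : 2 * k + 10 ≤ 16 ^ k := by
    induction k, hk using Nat.le_induction with
    | base => norm_num
    | succ k _ ih => rw [pow_succ]; omega
  rw [pow_succ]
  omega

/-- the boundary layers -/
def Rk (k : ℕ) : Finset ℤ := W (N (k + 1) - wd k) (wd k)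

/-- the central window -/
def Ck (k : ℕ) : Finset ℤ := W 0 (r k)

lemma card_Rk (k : ℕ) : ((Rk k).card : ℝ) = 2 * wd k := by
  unfold Rk
  rw [card_W]
  push_cast
  ring

lemma card_Ck (k : ℕ) : ((Ck k).card : ℝ) = 2 * r k := by
  unfold Ck
  rw [card_W]
  push_cast
  ring

lemma mem_Rk {k : ℕ} {x : ℤ} (hx : x ∈ Rk k) :
    |x| ≤ (N (k + 1) : ℤ) ∧ (N (k + 1) : ℝ) - |(x : ℝ)| ≤ wd k := by
  have hrN := wd_le k
  unfold Rk at hx
  rw [mem_W] at hx
  have h3 : |x| ≤ (N (k + 1) : ℤ) := by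
    have := hx.2
    push_cast [Nat.cast_sub hrN] at this
    linarith
  refine ⟨h3, ?_⟩
  have h4 := hx.1
  push_cast [Nat.cast_sub hrN] at h4
  have h5 : ((N (k + 1) : ℤ) : ℝ) - (wd k : ℤ) < ((|x| : ℤ) : ℝ) := by exact_mod_cast h4
  push_cast at h5
  linarith

lemma mem_Ck {k : ℕ} {x : ℤ} (hx : x ∈ Ck k) : |x| ≤ (r k : ℤ) := by
  unfold Ck at hx
  rw [mem_W] at hx
  simpa using hx.2

lemma Rk_sub (k : ℕ) : Rk k ⊆ Bk k := fun _ hx => mem_Bk.2 (mem_Rk hx).1

lemma Ck_sub (k : ℕ) : Ck k ⊆ Bk k := by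
  intro x hx
  rw [mem_Bk]
  have h := mem_Ck hx
  have h2 : (r k : ℤ) ≤ N (k + 1) := by exact_mod_cast r_le_N k
  linarith

/-- sums of the cosine of the quarter-period mode over the boundary layers -/
lemma cos_Rk (k : ℕ) : 0 ≤ ∑ x ∈ Rk k, Real.cos (θ (k + 1) * x) ∧
    ∑ x ∈ Rk k, Real.cos (θ (k + 1) * x) ≤ (Rk k).card * (2 / 2 ^ (2 * k + 8)) := by
  constructor
  · exact Finset.sum_nonneg fun x hx => cos_nonneg_ball (mem_Rk hx).1
  · have hw : (0 : ℝ) < wd k := by exact_mod_cast wd_pos k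
    calc ∑ x ∈ Rk k, Real.cos (θ (k + 1) * x) ≤ ∑ x ∈ Rk k, (2 / 2 ^ (2 * k + 8) : ℝ) := by
          refine Finset.sum_le_sum fun x hx => ?_
          obtain ⟨h1, h2⟩ := mem_Rk hx
          refine (cos_le h1).trans ?_
          have hN : (N (k + 1) : ℝ) = wd k * 2 ^ (2 * k + 8) := by
            rw [N_eq_wd]
            push_cast
            ring
          have h5 : ((N (k + 1) : ℝ) - |(x : ℝ)|) / N (k + 1) ≤ 1 / 2 ^ (2 * k + 8) := by
            rw [div_le_div_iff₀ (N_posR _) (by positivity), one_mul]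
            calc ((N (k + 1) : ℝ) - |(x : ℝ)|) * 2 ^ (2 * k + 8) ≤ wd k * 2 ^ (2 * k + 8) := by
                  gcongr
              _ = _ := hN.symm
          have h6 : 0 ≤ ((N (k + 1) : ℝ) - |(x : ℝ)|) / N (k + 1) := by
            apply div_nonneg _ (Nat.cast_nonneg _)
            have : |(x : ℝ)| ≤ N (k + 1) := by exact_mod_cast h1
            linarith
          have h7 : Real.pi / 2 ≤ 2 := by
            have := Real.pi_lt_four
            linarith
          calc Real.pi / 2 * (((N (k + 1) : ℝ) - |(x : ℝ)|) / N (k + 1))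
              ≤ 2 * (((N (k + 1) : ℝ) - |(x : ℝ)|) / N (k + 1)) := mul_le_mul_of_nonneg_right h7 h6
            _ ≤ 2 * (1 / 2 ^ (2 * k + 8)) := mul_le_mul_of_nonneg_left h5 (by norm_num)
            _ = _ := by ring
      _ = _ := by rw [Finset.sum_const, nsmul_eq_mul]

lemma cos_Ck (k : ℕ) : (Ck k).card * (1 / 2 : ℝ) ≤ ∑ x ∈ Ck k, Real.cos (θ (k + 1) * x) := by
  calc (Ck k).card * (1 / 2 : ℝ) = ∑ x ∈ Ck k, (1 / 2 : ℝ) := by
        rw [Finset.sum_const, nsmul_eq_mul]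
    _ ≤ _ := by
      refine Finset.sum_le_sum fun x hx => ?_
      have h1 := mem_Bk.1 (Ck_sub k hx)
      refine le_trans ?_ (cos_ge h1)
      have h2 : |(x : ℝ)| ≤ r k := by exact_mod_cast mem_Ck hx
      have hr2 : (2 : ℝ) ≤ r k := by
        unfold r
        push_cast
        calc (2 : ℝ) = 2 ^ 1 := by norm_num
          _ ≤ 2 ^ (8 * 16 ^ k) := pow_le_pow_right₀ (by norm_num) (by
            have : 1 ≤ 16 ^ k := Nat.one_le_pow _ _ (by norm_num)
            omega)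
      have h3 : |(x : ℝ)| / N (k + 1) ≤ 1 / 2 := by
        have hN : (N (k + 1) : ℝ) = r k * r k := by
          rw [N_eq_r]
          push_cast
          ring
        rw [hN, div_le_div_iff₀ (by positivity) (by norm_num)]
        nlinarith
      linarith

lemma cos_next_sum {k : ℕ} {F : Finset ℤ} (hF : F ⊆ Bk k) :
    F.card * (4 / 5 : ℝ) ≤ ∑ x ∈ F, Real.cos (θ (k + 2) * x) ∧
      ∑ x ∈ F, Real.cos (θ (k + 2) * x) ≤ F.card := by
  constructor
  · calc F.card * (4 / 5 : ℝ) = ∑ x ∈ F, (4 / 5 : ℝ) := by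
          rw [Finset.sum_const, nsmul_eq_mul]
      _ ≤ _ := Finset.sum_le_sum fun x hx => cos_next_ge (mem_Bk.1 (hF hx))
  · calc ∑ x ∈ F, Real.cos (θ (k + 2) * x) ≤ ∑ x ∈ F, (1 : ℝ) :=
          Finset.sum_le_sum fun x _ => Real.cos_le_one _
      _ = _ := by simp

lemma layer_arith {n m a1 a2 b1 b2 B C L c P : ℝ} (hn : 0 < n) (hm : 0 < m) (f1 : n * (1 / 2) ≤ a1)
    (f2 : 0 ≤ b1) (f3 : b1 ≤ m * (2 / P)) (f4 : n * (4 / 5) ≤ a2) (f5 : a2 ≤ n)
    (f6 : m * (4 / 5) ≤ b2) (f7 : b2 ≤ m) (hP : 256 ≤ P) (hL : L + 1 ≤ P / 4) (hL0 : 0 ≤ L)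
    (hc : 0 ≤ c) (h2 : C ≤ c) (g1 : B * a1 + C * a2 ≤ n * (L + 1)) :
    B * b1 + C * b2 + m ≤ m * (c + 2) := by
  have ha1p : 0 < a1 := by linarith
  have hP0 : 0 < P := by linarith
  obtain ⟨ρ, hρ⟩ : ∃ ρ, ρ = b1 / a1 := ⟨_, rfl⟩
  have hρ0 : 0 ≤ ρ := by rw [hρ]; exact div_nonneg f2 ha1p.le
  have hρa : ρ * a1 = b1 := by rw [hρ]; field_simp
  have hρn : ρ * n ≤ m * (4 / P) := by
    have h3 : ρ * (n * (1 / 2)) ≤ b1 := by
      rw [← hρa]
      exact mul_le_mul_of_nonneg_left f1 hρ0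
    have h4 : m * (4 / P) = 2 * (m * (2 / P)) := by ring
    linarith
  have g3 : B * b1 ≤ ρ * (n * (L + 1)) - ρ * (C * a2) := by
    rw [← hρa, ← mul_sub, show B * (ρ * a1) = ρ * (B * a1) by ring]
    apply mul_le_mul_of_nonneg_left _ hρ0
    linarith
  have g4 : ρ * (n * (L + 1)) ≤ m := by
    calc ρ * (n * (L + 1)) = (ρ * n) * (L + 1) := by ring
      _ ≤ (m * (4 / P)) * (P / 4) := by
        apply mul_le_mul hρn hL (by linarith) (by positivity)
      _ = m := by field_simp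
  have g5 : C * (b2 - ρ * a2) ≤ c * m := by
    have h3 : ρ * a2 ≤ m * (4 / P) := (mul_le_mul_of_nonneg_left f5 hρ0).trans hρn
    have h4 : (4 : ℝ) / P ≤ 1 / 5 := by
      rw [div_le_div_iff₀ hP0 (by norm_num)]
      linarith
    have h4' : m * (4 / P) ≤ m * (1 / 5) := mul_le_mul_of_nonneg_left h4 hm.le
    have h5 : 0 ≤ b2 - ρ * a2 := by linarith
    have ha2 : 0 ≤ a2 := by linarith
    have h6 : b2 - ρ * a2 ≤ m := by
      have : 0 ≤ ρ * a2 := mul_nonneg hρ0 ha2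
      linarith
    calc C * (b2 - ρ * a2) ≤ c * (b2 - ρ * a2) := mul_le_mul_of_nonneg_right h2 h5
      _ ≤ c * m := mul_le_mul_of_nonneg_left h6 hc
  have g7 : C * b2 = C * (b2 - ρ * a2) + ρ * (C * a2) := by ring
  linarith

/-- the deterministic part of the argument: if the mean in the centre is at most `L` and the
slow mode is at most `c`, then the mean in the boundary layers is at most `c + 2` -/
lemma layer_mean {k : ℕ} (hk : 1 ≤ k) {w : ℕ × Bool → ℝ} (hw : w ∈ Tail (k + 1)) {L c : ℝ}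
    (hL : L ≤ 2 ^ (2 * k + 5)) (hL0 : 0 ≤ L) (hc : 0 ≤ c)
    (h1 : ∑ x ∈ Ck k, pp x w ≤ (Ck k).card * L) (h2 : s (k + 2) * w (k + 2, false) ≤ c) :
    ∑ x ∈ Rk k, pp x w ≤ (Rk k).card * (c + 2) := by
  have e1 := sum_pp_W (A := 0) (dvd_r (le_refl k)) hw
  have e2 := sum_pp_W (A := N (k + 1) - wd k) (dvd_wd hk) hw
  rw [show W 0 (r k) = Ck k from rfl] at e1
  rw [show W (N (k + 1) - wd k) (wd k) = Rk k from rfl] at e2
  have e1' := (abs_le.1 e1).1
  have e2' := (abs_le.1 e2).2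
  have hr : (0 : ℝ) < r k := by exact_mod_cast r_pos k
  have hwd : (0 : ℝ) < wd k := by exact_mod_cast wd_pos k
  have hn : (0 : ℝ) < ((Ck k).card : ℝ) := by rw [card_Ck]; positivity
  have hm : (0 : ℝ) < ((Rk k).card : ℝ) := by rw [card_Rk]; positivity
  obtain ⟨f2, f3⟩ := cos_Rk k
  obtain ⟨f4, f5⟩ := cos_next_sum (Ck_sub k)
  obtain ⟨f6, f7⟩ := cos_next_sum (Rk_sub k)
  have hP : (256 : ℝ) ≤ 2 ^ (2 * k + 8) := by
    have : (2 : ℝ) ^ 8 ≤ 2 ^ (2 * k + 8) := pow_le_pow_right₀ (by norm_num) (by omega)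
    norm_num at this ⊢
    linarith
  have hL' : L + 1 ≤ 2 ^ (2 * k + 8) / 4 := by
    have h5 : (2 : ℝ) ^ (2 * k + 8) = 2 ^ (2 * k + 5) * 8 := by
      rw [show 2 * k + 8 = (2 * k + 5) + 3 by ring, pow_add]
      norm_num
    have h6 : (1 : ℝ) ≤ 2 ^ (2 * k + 5) := one_le_pow₀ (by norm_num)
    rw [h5]
    linarith
  have h := layer_arith (B := s (k + 1) * w (k + 1, false)) (C := s (k + 2) * w (k + 2, false))
    (L := L) (c := c) hn hm (cos_Ck k) f2 f3 f4 f5 f6 f7 hP hL' hL0 hc h2 (by linarith)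
  linarith

/-- the sum of the field over the central window -/
noncomputable def Sc (k : ℕ) (w : Om) : ℝ := ∑ x ∈ Ck k, X x w

lemma measurable_Sc (k : ℕ) : Measurable (Sc k) :=
  Finset.measurable_fun_sum _ fun x _ => measurable_X x

/-- upper bound for the probability that the field is positive with a small mean in the centre -/
theorem upper {k : ℕ} (hk : 1 ≤ k) {L c : ℝ} (hL : L + 1 ≤ 2 ^ (2 * k + 5)) (hL0 : 0 ≤ L)
    (hc : 0 ≤ c) :
    PP.real ({w | ∀ x ∈ Bk k, 0 ≤ X x w} ∩ {w | Sc k w ≤ (Ck k).card * L}) ≤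
      Real.exp (-(16 : ℝ) ^ e (k + 2) / 4) + Real.exp (-(r k : ℝ)) +
      Real.exp (-(c / s (k + 2)) ^ 2 / 2) +
      Real.exp (-(Real.exp (-(c + 5) ^ 2 / 2) * (Rk k).card)) := by
  -- the four events
  set E3 : Set (ℕ × Bool → ℝ) := {w | ∑ x ∈ Rk k, pp x w ≤ (Rk k).card * (c + 2)} with hE3
  have hE3m : MeasurableSet E3 :=
    measurableSet_le (Finset.measurable_fun_sum _ fun x _ => measurable_pp x) measurable_const
  have hsub : ({w | ∀ x ∈ Bk k, 0 ≤ X x w} ∩ {w | Sc k w ≤ (Ck k).card * L}) ⊆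
      ((Prod.snd ⁻¹' (Tail (k + 1))ᶜ ∪
        Prod.fst ⁻¹' {g : ℤ → ℝ | ∑ x ∈ Ck k, g x ≤ -((Ck k).card : ℝ)}) ∪
        Prod.snd ⁻¹' {w : ℕ × Bool → ℝ | w (k + 2, false) ∈ Set.Ici (c / s (k + 2))}) ∪
        PosOn (Rk k) E3 := by
    rintro w ⟨h1, h2⟩
    by_contra hcon
    simp only [Set.mem_union, Set.mem_preimage, not_or, Set.mem_compl_iff, not_not] at hcon
    obtain ⟨⟨⟨h3, h4⟩, h5⟩, h6⟩ := hcon
    apply h6
    refine ⟨?_, fun x hx => h1 x (Rk_sub k hx)⟩
    have h4' : -((Ck k).card : ℝ) < ∑ x ∈ Ck k, w.1 x := not_le.1 h4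
    have h5' : w.2 (k + 2, false) < c / s (k + 2) := not_le.1 h5
    have h2' : Sc k w ≤ (Ck k).card * L := h2
    have h7 : Sc k w = ∑ x ∈ Ck k, w.1 x + ∑ x ∈ Ck k, pp x w.2 := by
      unfold Sc X
      rw [Finset.sum_add_distrib]
    refine layer_mean hk h3 hL (by linarith) hc ?_ ?_
    · have : (Ck k).card * (L + 1) = (Ck k).card * L + ((Ck k).card : ℝ) := by ring
      linarith
    · have := s_pos (k + 2)
      rw [lt_div_iff₀ this] at h5'
      linarith
  have m1 : PP.real (Prod.snd ⁻¹' (Tail (k + 1))ᶜ) ≤ Real.exp (-(16 : ℝ) ^ e (k + 2) / 4) := by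
    have h := Tail_compl (k + 1)
    have h2 : PP.real (Prod.snd ⁻¹' (Tail (k + 1))ᶜ) = Pp.real (Tail (k + 1))ᶜ := by
      have : PP.map Prod.snd = Pp := by
        unfold PP
        rw [Measure.map_snd_prod]
        simp
      rw [← this, measureReal_def, measureReal_def,
        Measure.map_apply measurable_snd (measurableSet_Tail _).compl]
    rw [h2]
    exact h
  have m2 : PP.real (Prod.fst ⁻¹' {g : ℤ → ℝ | ∑ x ∈ Ck k, g x ≤ -((Ck k).card : ℝ)}) ≤
      Real.exp (-(r k : ℝ)) := by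
    have h := Pg_dev (Ck k)
    have hm : MeasurableSet {g : ℤ → ℝ | ∑ x ∈ Ck k, g x ≤ -((Ck k).card : ℝ)} :=
      measurableSet_le (Finset.measurable_fun_sum _ fun x _ => measurable_pi_apply x) measurable_const
    have h2 : PP.real (Prod.fst ⁻¹' {g : ℤ → ℝ | ∑ x ∈ Ck k, g x ≤ -((Ck k).card : ℝ)}) =
        Pg.real {g : ℤ → ℝ | ∑ x ∈ Ck k, g x ≤ -((Ck k).card : ℝ)} := by
      have : PP.map Prod.fst = Pg := by
        unfold PP
        rw [Measure.map_fst_prod]
        simp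
      conv_rhs => rw [← this]
      rw [measureReal_def, measureReal_def, Measure.map_apply measurable_fst hm]
    rw [h2]
    refine h.trans (le_of_eq ?_)
    rw [card_Ck]
    congr 1
    ring
  have m3 : PP.real (Prod.snd ⁻¹' {w : ℕ × Bool → ℝ | w (k + 2, false) ∈ Set.Ici (c / s (k + 2))}) ≤
      Real.exp (-(c / s (k + 2)) ^ 2 / 2) := by
    have hm : MeasurableSet {w : ℕ × Bool → ℝ | w (k + 2, false) ∈ Set.Ici (c / s (k + 2))} :=
      measurableSet_le measurable_const (measurable_pi_apply _)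
    have h2 : PP.real (Prod.snd ⁻¹' {w : ℕ × Bool → ℝ | w (k + 2, false) ∈ Set.Ici (c / s (k + 2))}) =
        γ.real (Set.Ici (c / s (k + 2))) := by
      have : PP.map Prod.snd = Pp := by
        unfold PP
        rw [Measure.map_snd_prod]
        simp
      rw [measureReal_def, measureReal_def, ← Measure.map_apply measurable_snd hm, this,
        Pp_coord _ measurableSet_Ici]
    rw [h2]
    exact γ_upper (div_nonneg hc (s_pos _).le)
  have m4 : PP.real (PosOn (Rk k) E3) ≤ Real.exp (-(Real.exp (-(c + 5) ^ 2 / 2) * (Rk k).card)) := by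
    refine PosOn_le (Rk k) hE3m (Real.exp_pos _).le fun w hw => ?_
    have hw' : ∑ x ∈ Rk k, pp x w ≤ (Rk k).card * (c + 2) := hw
    calc ∏ x ∈ Rk k, γ.real (Set.Ici (-pp x w))
        ≤ ∏ x ∈ Rk k, Real.exp (-(Real.exp (-((c + 2) + 3) ^ 2 / 2) * ((c + 2) + 1 - pp x w))) :=
          Finset.prod_le_prod (fun _ _ => measureReal_nonneg) fun x _ => γ_C1 (by linarith) _
      _ = Real.exp (∑ x ∈ Rk k, -(Real.exp (-((c + 2) + 3) ^ 2 / 2) * ((c + 2) + 1 - pp x w))) :=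
          (Real.exp_sum _ _).symm
      _ ≤ _ := by
        apply Real.exp_le_exp.2
        rw [Finset.sum_neg_distrib, ← Finset.mul_sum, Finset.sum_sub_distrib, Finset.sum_const,
          nsmul_eq_mul]
        have h3 : ((c + 2) + 3) = c + 5 := by ring
        rw [h3]
        apply neg_le_neg
        apply mul_le_mul_of_nonneg_left _ (Real.exp_pos _).le
        linarith
  calc PP.real ({w | ∀ x ∈ Bk k, 0 ≤ X x w} ∩ {w | Sc k w ≤ (Ck k).card * L})
      ≤ PP.real _ := measureReal_mono hsub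
    _ ≤ PP.real _ + PP.real _ := measureReal_union_le _ _
    _ ≤ (PP.real _ + PP.real _) + PP.real _ := by
        gcongr
        exact measureReal_union_le _ _
    _ ≤ ((PP.real _ + PP.real _) + PP.real _) + PP.real _ := by
        gcongr
        exact measureReal_union_le _ _
    _ ≤ _ := by
        gcongr

end Q290.Ent
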