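import Mathlib
import Pool.Agent.Q290.Ent.Upper

/-!
Lower bound for the probability of positivity.
-/

set_option autoImplicit false

open MeasureTheory ProbabilityTheory Filter Topology
open scoped ENNReal NNReal

namespace Q290.Ent

attribute [local irreducible] e s N θ

/-- large coefficients of the modes beyond `k + 1` are unlikely -/
lemma γ_coord (k i : ℕ) : γ {x : ℝ | (4 : ℝ) ^ e (i + (k + 1)) < |x|} ≤
      ENNReal.ofReal (Real.exp (-(16 : ℝ) ^ e (k + 1) / 4) * ((1 / 4) * (1 / 2) ^ i / 2)) := by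
  rw [← ofReal_measureReal]
  apply ENNReal.ofReal_le_ofReal
  refine (γ_two_sided (by positivity)).trans ?_
  have h2 : ((4 : ℝ) ^ e (i + (k + 1))) ^ 2 = 16 ^ e (i + (k + 1)) := by
    rw [← pow_mul, mul_comm, pow_mul]; norm_num
  rw [h2]
  have h3 : (16 : ℝ) ^ e (k + 1) ≤ 16 ^ e (i + (k + 1)) :=
    pow_le_pow_right₀ (by norm_num) (e_mono (by omega))
  have h4 : (4 : ℝ) * (i + 4) ≤ 16 ^ e (i + (k + 1)) := by
    have h5 : i + 1 ≤ e (i + (k + 1)) := by
      have := e_ge (i + (k + 1))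
      omega
    have h6 : (16 : ℝ) ^ (i + 1) ≤ 16 ^ e (i + (k + 1)) := pow_le_pow_right₀ (by norm_num) h5
    refine le_trans ?_ h6
    have h7 : ∀ i : ℕ, (4 : ℝ) * (i + 4) ≤ 16 ^ (i + 1) := by
      intro i
      induction i with
      | zero => norm_num
      | succ i ih =>
        rw [pow_succ]
        push_cast
        have : (0 : ℝ) ≤ i := Nat.cast_nonneg i
        linarith
    exact h7 i
  have h8 : Real.exp (-(16 : ℝ) ^ e (i + (k + 1)) / 2) ≤
      Real.exp (-(16 : ℝ) ^ e (k + 1) / 4) * Real.exp (-(i + 4 : ℝ)) := by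
    rw [← Real.exp_add]
    apply Real.exp_le_exp.2
    linarith
  have h9 : Real.exp (-(i + 4 : ℝ)) ≤ (1 / 2) ^ (i + 4) := by
    have : Real.exp (-1) ≤ 1 / 2 := by
      rw [Real.exp_neg]
      have := Real.exp_one_gt_d9
      rw [inv_eq_one_div]
      apply one_div_le_one_div_of_le (by norm_num)
      linarith
    calc Real.exp (-(i + 4 : ℝ)) = Real.exp (-1) ^ (i + 4) := by
          rw [← Real.exp_nat_mul]; congr 1; push_cast; ring
      _ ≤ _ := by gcongr
  calc 2 * Real.exp (-(16 : ℝ) ^ e (i + (k + 1)) / 2)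
      ≤ 2 * (Real.exp (-(16 : ℝ) ^ e (k + 1) / 4) * (1 / 2) ^ (i + 4)) := by
        apply mul_le_mul_of_nonneg_left _ (by norm_num)
        exact h8.trans (mul_le_mul_of_nonneg_left h9 (Real.exp_pos _).le)
    _ = _ := by rw [pow_add]; ring

/-- the coordinates of the first modes -/
def Jk (k : ℕ) : Finset (ℕ × Bool) := Finset.range (k + 3) ×ˢ Finset.univ

/-- the constraints on the coordinates -/
noncomputable def tk (k : ℕ) (c : ℝ) (m : ℕ × Bool) : Set ℝ :=
  if m = (k + 1, false) then Set.Ici (2 ^ e (k + 2)) else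
    if m = (k + 2, false) then Set.Ici ((c + 3) * 2 ^ e (k + 2)) else Set.Icc (-(1 / 4)) (1 / 4)

lemma measurableSet_tk (k : ℕ) (c : ℝ) (m : ℕ × Bool) : MeasurableSet (tk k c m) := by
  unfold tk
  split_ifs
  · exact measurableSet_Ici
  · exact measurableSet_Ici
  · exact measurableSet_Icc

/-- the box -/
noncomputable def Cyl (k : ℕ) (c : ℝ) : Set (ℕ × Bool → ℝ) := Set.pi (Jk k) (tk k c)

lemma measurableSet_Cyl (k : ℕ) (c : ℝ) : MeasurableSet (Cyl k c) :=
  MeasurableSet.pi (Finset.countable_toSet _) fun m _ => measurableSet_tk k c m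

lemma Pp_Cyl (k : ℕ) (c : ℝ) : Pp (Cyl k c) = ∏ m ∈ Jk k, γ (tk k c m) :=
  Measure.infinitePi_pi _ fun m _ => measurableSet_tk k c m

lemma Cyl_ge (k : ℕ) {c : ℝ} (hc : 0 ≤ c) :
    Real.exp (-(6 * k + 18)) * Real.exp (-(2 ^ e (k + 2) + 2) ^ 2 / 2) *
      Real.exp (-((c + 3) * 2 ^ e (k + 2) + 2) ^ 2 / 2) ≤ Pp.real (Cyl k c) := by
  rw [measureReal_def, Pp_Cyl, ENNReal.toReal_prod]
  have h0 : ∀ m ∈ Jk k, Real.exp (-3) *
      (if m = (k + 1, false) then Real.exp (-(2 ^ e (k + 2) + 2) ^ 2 / 2) else 1) *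
      (if m = (k + 2, false) then Real.exp (-((c + 3) * 2 ^ e (k + 2) + 2) ^ 2 / 2) else 1) ≤
      (γ (tk k c m)).toReal := by
    intro m _
    have he3 : Real.exp (-3) ≤ 1 := Real.exp_le_one_iff.2 (by norm_num)
    have hne : ((k + 1, false) : ℕ × Bool) ≠ (k + 2, false) := by simp
    by_cases h1 : m = (k + 1, false)
    · subst h1
      rw [if_pos rfl, if_neg hne, mul_one]
      unfold tk
      rw [if_pos rfl]
      refine le_trans ?_ (γ_lower (by positivity))
      exact mul_le_of_le_one_left (Real.exp_pos _).le he3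
    · rw [if_neg h1, mul_one]
      by_cases h2 : m = (k + 2, false)
      · subst h2
        rw [if_pos rfl]
        unfold tk
        rw [if_neg hne.symm, if_pos rfl]
        refine le_trans ?_ (γ_lower (by positivity))
        exact mul_le_of_le_one_left (Real.exp_pos _).le he3
      · rw [if_neg h2, mul_one]
        unfold tk
        rw [if_neg h1, if_neg h2]
        exact γ_small
  refine le_trans (le_of_eq ?_) (Finset.prod_le_prod (fun m _ => by positivity) h0)
  rw [Finset.prod_mul_distrib, Finset.prod_mul_distrib, Finset.prod_const, Finset.prod_ite_eq',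
    Finset.prod_ite_eq', if_pos (by simp [Jk]), if_pos (by simp [Jk]), ← Real.exp_nat_mul]
  congr 3
  unfold Jk
  rw [Finset.card_product]
  simp
  ring

lemma Cyl_inter (k : ℕ) (c : ℝ) {m : ℕ × Bool} (hm : m ∉ Jk k) {S : Set ℝ} (hS : MeasurableSet S) :
    Pp (Cyl k c ∩ {w | w m ∈ S}) = γ S * Pp (Cyl k c) := by
  classical
  let t' : ℕ × Bool → Set ℝ := fun m' => if m' = m then S else tk k c m'
  have h1 : Cyl k c ∩ {w | w m ∈ S} = Set.pi ((insert m (Jk k) : Finset (ℕ × Bool)) : Set (ℕ × Bool)) t' := by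
    ext w
    simp only [Cyl, Set.mem_inter_iff, Set.mem_pi, Finset.coe_insert, Set.mem_insert_iff, t']
    constructor
    · rintro ⟨h2, h3⟩ m' (rfl | hm')
      · rw [if_pos rfl]
        exact h3
      · have : m' ≠ m := by
          rintro rfl
          exact hm hm'
        rw [if_neg this]
        exact h2 m' hm'
    · intro h
      constructor
      · intro m' hm'
        have h2 := h m' (Or.inr hm')
        have : m' ≠ m := by
          rintro rfl
          exact hm hm'
        rwa [if_neg this] at h2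
      · have h2 := h m (Or.inl rfl)
        rwa [if_pos rfl] at h2
  have h2 : Pp (Set.pi ((insert m (Jk k) : Finset (ℕ × Bool)) : Set (ℕ × Bool)) t') =
      ∏ m' ∈ insert m (Jk k), γ (t' m') := by
    refine Measure.infinitePi_pi _ fun m' _ => ?_
    simp only [t']
    split_ifs
    · exact hS
    · exact measurableSet_tk _ _ _
  rw [h1, h2, Finset.prod_insert hm, Pp_Cyl]
  congr 1
  · simp [t']
  · refine Finset.prod_congr rfl fun m' hm' => ?_
    have : m' ≠ m := by
      rintro rfl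
      exact hm hm'
    simp [t', this]

lemma Cyl_Tail (k : ℕ) (c : ℝ) : Pp.real (Cyl k c) / 2 ≤ Pp.real (Cyl k c ∩ Tail (k + 1)) := by
  have hsub : Cyl k c ∩ (Tail (k + 1))ᶜ ⊆ ⋃ i : ℕ,
      ((Cyl k c ∩ {w | w (i + (k + 1 + 1) + 1, false) ∈ {x : ℝ | (4 : ℝ) ^ e (i + (k + 1 + 1)) < |x|}}) ∪
      (Cyl k c ∩ {w | w (i + (k + 1 + 1) + 1, true) ∈ {x : ℝ | (4 : ℝ) ^ e (i + (k + 1 + 1)) < |x|}})) := by
    rintro w ⟨hw1, hw⟩
    simp only [Tail, Set.mem_compl_iff] at hw
    by_contra h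
    apply hw
    intro i hi
    simp only [Set.mem_iUnion, Set.mem_union, not_exists, not_or, Set.mem_inter_iff, not_and] at h
    have := h (i - (k + 1 + 1))
    rw [Nat.sub_add_cancel hi] at this
    exact ⟨not_lt.1 (this.1 hw1), not_lt.1 (this.2 hw1)⟩
  have hb : ∀ (i : ℕ) (b : Bool),
      Pp (Cyl k c ∩ {w | w (i + (k + 1 + 1) + 1, b) ∈ {x : ℝ | (4 : ℝ) ^ e (i + (k + 1 + 1)) < |x|}}) ≤
      ENNReal.ofReal ((1 / 4) * (1 / 2) ^ i / 2) * Pp (Cyl k c) := by
    intro i b
    rw [Cyl_inter]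
    · gcongr
      refine (γ_coord (k + 1) i).trans ?_
      apply ENNReal.ofReal_le_ofReal
      refine mul_le_of_le_one_left (by positivity) ?_
      rw [Real.exp_le_one_iff]
      have : (0 : ℝ) < 16 ^ e (k + 1 + 1) := by positivity
      linarith
    · simp [Jk]
    · exact measurableSet_lt measurable_const (by fun_prop)
  have hsum : ∑' i : ℕ, ENNReal.ofReal ((1 / 4) * (1 / 2) ^ i) * Pp (Cyl k c) ≤
      ENNReal.ofReal (1 / 2) * Pp (Cyl k c) := by
    rw [ENNReal.tsum_mul_right]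
    gcongr
    have hsm : Summable fun i : ℕ => ((1 : ℝ) / 4) * (1 / 2) ^ i :=
      (summable_geometric_of_lt_one (by norm_num) (by norm_num)).mul_left _
    rw [← ENNReal.ofReal_tsum_of_nonneg (fun i => by positivity) hsm]
    apply ENNReal.ofReal_le_ofReal
    rw [tsum_mul_left, tsum_geometric_of_lt_one (by norm_num) (by norm_num)]
    norm_num
  have h1 : Pp (Cyl k c ∩ (Tail (k + 1))ᶜ) ≤ ENNReal.ofReal (1 / 2) * Pp (Cyl k c) := by
    calc Pp (Cyl k c ∩ (Tail (k + 1))ᶜ) ≤ Pp (⋃ i : ℕ, _) := measure_mono hsub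
      _ ≤ ∑' i : ℕ, Pp _ := measure_iUnion_le _
      _ ≤ ∑' i : ℕ, ENNReal.ofReal ((1 / 4) * (1 / 2) ^ i) * Pp (Cyl k c) := by
          refine ENNReal.tsum_le_tsum fun i => ?_
          refine (measure_union_le _ _).trans ((add_le_add (hb i false) (hb i true)).trans ?_)
          rw [← add_mul, ← ENNReal.ofReal_add (by positivity) (by positivity)]
          gcongr
          linarith
      _ ≤ _ := hsum
  have h2 : Pp.real (Cyl k c ∩ (Tail (k + 1))ᶜ) ≤ 1 / 2 * Pp.real (Cyl k c) := by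
    rw [measureReal_def, measureReal_def]
    have := ENNReal.toReal_mono (ENNReal.mul_ne_top ENNReal.ofReal_ne_top (measure_ne_top _ _)) h1
    rwa [ENNReal.toReal_mul, ENNReal.toReal_ofReal (by norm_num)] at this
  have h3 : Pp.real (Cyl k c ∩ Tail (k + 1)) + Pp.real (Cyl k c ∩ (Tail (k + 1))ᶜ) =
      Pp.real (Cyl k c) := by
    rw [← measureReal_union _ ((measurableSet_Cyl k c).inter (measurableSet_Tail _).compl),
      Set.inter_union_compl]
    exact Set.disjoint_left.2 fun w h3 h4 => h4.2 h3.2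
  linarith

/-- amplitudes: `2^(8^(k+1)) = s (k+1) 2^(e (k+2))` -/
lemma s_mul_beta (k : ℕ) : s (k + 1) * 2 ^ e (k + 2) = 2 ^ (8 ^ (k + 1)) := by
  unfold s
  rw [e_succ (k + 1), pow_add, ← mul_assoc, ← mul_pow]
  norm_num

lemma s_mul_beta' (k : ℕ) : s (k + 2) * 2 ^ e (k + 2) = 1 := by
  unfold s
  rw [← mul_pow]
  norm_num

/-- in the box the field of the modes is large -/
lemma pp_ge {k : ℕ} {c : ℝ} (hc : 0 ≤ c) (hcN : (c + 3) * 2 ≤ (N (k + 1) : ℝ) ^ 30)
    {w : ℕ × Bool → ℝ} (hw : w ∈ Cyl k c ∩ Tail (k + 1)) {x : ℤ} (hx : x ∈ Bk k) :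
    c + 2 ^ (8 ^ (k + 1)) * Real.cos (θ (k + 1) * x) ≤ pp x w := by
  obtain ⟨h1, h2⟩ := hw
  have hx' := mem_Bk.1 hx
  have hmem : ∀ m ∈ Jk k, w m ∈ tk k c m := fun m hm => h1 m hm
  have hsmall : ∀ m ∈ Jk k, m ≠ (k + 1, false) → m ≠ (k + 2, false) → |w m| ≤ 1 / 4 := by
    intro m hm h3 h4
    have := hmem m hm
    unfold tk at this
    rw [if_neg h3, if_neg h4] at this
    exact abs_le.2 ⟨by linarith [this.1], this.2⟩
  have hJ : ∀ j b, j < k + 3 → ((j, b) : ℕ × Bool) ∈ Jk k := by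
    intro j b hj
    simp [Jk, hj]
  have hB : 2 ^ e (k + 2) ≤ w (k + 1, false) := by
    have := hmem (k + 1, false) (hJ _ _ (by omega))
    unfold tk at this
    rw [if_pos rfl] at this
    exact this
  have hC : (c + 3) * 2 ^ e (k + 2) ≤ w (k + 2, false) := by
    have := hmem (k + 2, false) (hJ _ _ (by omega))
    unfold tk at this
    rw [if_neg (by simp), if_pos rfl] at this
    exact this
  rw [pp_split h2, show k + 1 + 2 = (k + 1 + 1) + 1 by ring, Finset.sum_range_succ,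
    Finset.sum_range_succ]
  have ht := (abs_le.1 (tail_sum_le h2 x)).1
  rw [show k + 1 + 2 = (k + 1 + 1) + 1 by ring] at ht
  -- the fast modes
  have hfast : ∀ j ∈ Finset.range (k + 1), -(s j * (1 / 2)) ≤ mode j x w := by
    intro j hj
    rw [Finset.mem_range] at hj
    have h5 := hsmall (j, false) (hJ _ _ (by omega)) (by simp; omega) (by simp; omega)
    have h6 := hsmall (j, true) (hJ _ _ (by omega)) (by simp) (by simp)
    have h7 : |w (j, false) * Real.cos (θ j * x) + w (j, true) * Real.sin (θ j * x)| ≤ 1 / 2 := by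
      refine (abs_add_le _ _).trans ?_
      rw [abs_mul, abs_mul]
      have h8 := mul_le_mul h5 (Real.abs_cos_le_one (θ j * x)) (abs_nonneg _) (by norm_num)
      have h9 := mul_le_mul h6 (Real.abs_sin_le_one (θ j * x)) (abs_nonneg _) (by norm_num)
      linarith
    unfold mode
    have h10 := mul_le_mul_of_nonneg_left (abs_le.1 h7).1 (s_pos j).le
    linarith
  have hsumfast : -(∑ j ∈ Finset.range (k + 1), s j * (1 / 2)) ≤ ∑ j ∈ Finset.range (k + 1), mode j x w := by
    rw [← Finset.sum_neg_distrib]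
    exact Finset.sum_le_sum hfast
  have hsin : ∀ j, j < k + 3 → -(s j * (1 / 4)) ≤ s j * (w (j, true) * Real.sin (θ j * x)) := by
    intro j hj
    have h6 := hsmall (j, true) (hJ _ _ hj) (by simp) (by simp)
    have h9 : |w (j, true) * Real.sin (θ j * x)| ≤ 1 / 4 := by
      rw [abs_mul]
      have := mul_le_mul h6 (Real.abs_sin_le_one (θ j * x)) (abs_nonneg _) (by norm_num)
      linarith
    have h10 := mul_le_mul_of_nonneg_left (abs_le.1 h9).1 (s_pos j).le
    linarith
  -- the quarter-period mode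
  have hq : 2 ^ (8 ^ (k + 1)) * Real.cos (θ (k + 1) * x) - s (k + 1) * (1 / 4) ≤ mode (k + 1) x w := by
    unfold mode
    have h5 := hsin (k + 1) (by omega)
    have h6 : 2 ^ (8 ^ (k + 1)) * Real.cos (θ (k + 1) * x) ≤
        s (k + 1) * (w (k + 1, false) * Real.cos (θ (k + 1) * x)) := by
      rw [← s_mul_beta, mul_assoc]
      apply mul_le_mul_of_nonneg_left _ (s_pos _).le
      exact mul_le_mul_of_nonneg_right hB (cos_nonneg_ball hx')
    linarith
  -- the slow mode
  have hslow : c + 2 - s (k + 2) * (1 / 4) ≤ mode (k + 1 + 1) x w := by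
    unfold mode
    have h5 := hsin (k + 2) (by omega)
    have h6 : (c + 3) * Real.cos (θ (k + 2) * x) ≤
        s (k + 2) * (w (k + 2, false) * Real.cos (θ (k + 2) * x)) := by
      have h7 : (c + 3) = s (k + 2) * ((c + 3) * 2 ^ e (k + 2)) := by
        calc (c + 3) = (c + 3) * (s (k + 2) * 2 ^ e (k + 2)) := by rw [s_mul_beta', mul_one]
          _ = _ := by ring
      calc (c + 3) * Real.cos (θ (k + 2) * x)
          = s (k + 2) * ((c + 3) * 2 ^ e (k + 2) * Real.cos (θ (k + 2) * x)) := by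
            conv_lhs => rw [h7]
            ring
        _ ≤ _ := by
          apply mul_le_mul_of_nonneg_left _ (s_pos _).le
          apply mul_le_mul_of_nonneg_right hC
          have := cos_next_ge (k := k + 1) hx'
          exact le_trans (by norm_num) this
    have h8 : (c + 3) - 1 ≤ (c + 3) * Real.cos (θ (k + 2) * x) := by
      have h9 := one_sub_cos_le (k := k + 1) hx'
      have hNp : (0 : ℝ) < (N (k + 1) : ℝ) ^ 30 := by have := N_posR (k + 1); positivity
      have h10 : (c + 3) * (1 - Real.cos (θ (k + 1 + 1) * x)) ≤ (c + 3) * (2 / (N (k + 1) : ℝ) ^ 30) :=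
        mul_le_mul_of_nonneg_left h9 (by linarith)
      have h11 : (c + 3) * (2 / (N (k + 1) : ℝ) ^ 30) ≤ 1 := by
        rw [← mul_div_assoc, div_le_one hNp]
        exact hcN
      have h12 : (c + 3) * (1 - Real.cos (θ (k + 1 + 1) * x)) =
          (c + 3) - (c + 3) * Real.cos (θ (k + 2) * x) := by ring
      linarith
    have h13 : mode (k + 1 + 1) x w = s (k + 2) * (w (k + 2, false) * Real.cos (θ (k + 2) * x)) +
        s (k + 2) * (w (k + 2, true) * Real.sin (θ (k + 2) * x)) := by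
      unfold mode
      ring
    show c + 2 - s (k + 2) * (1 / 4) ≤ s (k + 1 + 1) * _
    have h14 : s (k + 1 + 1) * (w (k + 1 + 1, false) * Real.cos (θ (k + 1 + 1) * x) +
        w (k + 1 + 1, true) * Real.sin (θ (k + 1 + 1) * x)) =
        s (k + 2) * (w (k + 2, false) * Real.cos (θ (k + 2) * x)) +
        s (k + 2) * (w (k + 2, true) * Real.sin (θ (k + 2) * x)) := by ring
    rw [h14]
    linarith
  have hs3 := sum_s_le (k + 3)
  rw [Finset.sum_range_succ, Finset.sum_range_succ] at hs3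
  have hs4 : ∑ j ∈ Finset.range (k + 1), s j * (1 / 2) = (∑ j ∈ Finset.range (k + 1), s j) * (1 / 2) :=
    (Finset.sum_mul _ _ _).symm
  have hp1 := s_pos (k + 1)
  have hp2 := s_pos (k + 2)
  rw [hs4] at hsumfast
  linarith

/-- a sum over the ball -/
lemma sum_ball {M : ℕ} (hM : 0 < M) {b : ℝ} (hb : 0 < b) (hbM : b ≤ M) :
    ∑ x ∈ Finset.Icc (-(M : ℤ)) M, Real.exp (-(b * (1 - |(x : ℝ)| / M))) ≤ 4 * M / b := by
  have hMr : (0 : ℝ) < M := by exact_mod_cast hM
  set q := Real.exp (-(b / M)) with hq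
  have hq0 : 0 < q := Real.exp_pos _
  have hu0 : 0 < b / M := by positivity
  have hu1 : b / M ≤ 1 := (div_le_one hMr).2 hbM
  have hq1 : b / M / 2 ≤ 1 - q := by
    have h1 : 1 + b / M ≤ Real.exp (b / M) := by
      have := Real.add_one_le_exp (b / M)
      linarith
    have h2 : q ≤ (1 + b / M)⁻¹ := by
      rw [hq, Real.exp_neg]
      exact inv_anti₀ (by linarith) h1
    have h3 : (1 + b / M)⁻¹ ≤ 1 - b / M / 2 := by
      rw [inv_eq_one_div, div_le_iff₀ (by linarith)]
      nlinarith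
    linarith
  have hq2 : q < 1 := by linarith
  have hpow : ∀ n : ℕ, q ^ n = Real.exp (-(b * (n / M))) := by
    intro n
    rw [hq, ← Real.exp_nat_mul]
    congr 1
    ring
  have hset : Finset.Icc (-(M : ℤ)) M = insert 0 (W 0 M) := by
    ext x
    rw [Finset.mem_Icc, Finset.mem_insert, mem_W]
    constructor
    · intro h
      by_cases h0 : x = 0
      · exact Or.inl h0
      · refine Or.inr ⟨?_, ?_⟩
        · have := abs_pos.2 h0
          simpa using this
        · rw [Nat.cast_zero, zero_add, abs_le]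
          exact h
    · rintro (rfl | ⟨_, h⟩)
      · constructor <;> omega
      · rw [Nat.cast_zero, zero_add, abs_le] at h
        exact h
  have h0 : (0 : ℤ) ∉ W 0 M := by
    rw [mem_W]
    simp
  rw [hset, Finset.sum_insert h0, sum_W]
  have h1 : ∀ i ∈ Finset.range M,
      (Real.exp (-(b * (1 - |(((0 : ℕ) + 1 + i : ℤ) : ℝ)| / M))) +
        Real.exp (-(b * (1 - |((-((0 : ℕ) + 1 + i) : ℤ) : ℝ)| / M)))) = 2 * q ^ (M - 1 - i) := by
    intro i hi
    rw [Finset.mem_range] at hi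
    have e1 : |(((0 : ℕ) + 1 + i : ℤ) : ℝ)| = 1 + i := by
      rw [abs_of_nonneg]
      · push_cast
        ring
      · push_cast
        positivity
    have e2 : |((-((0 : ℕ) + 1 + i) : ℤ) : ℝ)| = 1 + i := by
      rw [Int.cast_neg, abs_neg, e1]
    rw [e1, e2, hpow, ← two_mul]
    congr 3
    rw [Nat.sub_sub, Nat.cast_sub (by omega)]
    push_cast
    field_simp
  rw [Finset.sum_congr rfl h1, ← Finset.mul_sum, Finset.sum_range_reflect (fun j => q ^ j) M]
  have h2 : Real.exp (-(b * (1 - |((0 : ℤ) : ℝ)| / M))) = q ^ M := by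
    rw [hpow]
    congr 2
    simp
    field_simp
  rw [h2]
  have h3 : q ^ M + 2 * ∑ j ∈ Finset.range M, q ^ j ≤ 2 * ∑ j ∈ Finset.range (M + 1), q ^ j := by
    rw [Finset.sum_range_succ]
    have : 0 < q ^ M := by positivity
    linarith
  refine h3.trans ?_
  have h4 : ∑ j ∈ Finset.range (M + 1), q ^ j ≤ (1 - q)⁻¹ := by
    rw [← tsum_geometric_of_lt_one hq0.le hq2]
    exact (summable_geometric_of_lt_one hq0.le hq2).sum_le_tsum _ fun i _ => by positivity
  have h5 : (1 - q)⁻¹ ≤ 2 * M / b := by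
    calc (1 - q)⁻¹ ≤ (b / M / 2)⁻¹ := inv_anti₀ (by positivity) hq1
      _ = _ := by field_simp
  calc 2 * ∑ j ∈ Finset.range (M + 1), q ^ j ≤ 2 * (2 * M / b) := by linarith
    _ = _ := by ring

/-- lower bound for the probability of positivity -/
theorem lower {k : ℕ} {c : ℝ} (hc : 2 ≤ c) (hcN : (c + 3) * 2 ≤ (N (k + 1) : ℝ) ^ 30)
    (hbN : (2 : ℝ) ^ (8 ^ (k + 1)) ≤ N (k + 1)) :
    Real.exp (-(8 * Real.exp (-c ^ 2 / 2) * N (k + 1) / 2 ^ (8 ^ (k + 1)))) *
      (Real.exp (-(6 * k + 18)) * Real.exp (-(2 ^ e (k + 2) + 2) ^ 2 / 2) *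
      Real.exp (-((c + 3) * 2 ^ e (k + 2) + 2) ^ 2 / 2) / 2) ≤
      PP.real {w | ∀ x ∈ Bk k, 0 ≤ X x w} := by
  have hE : MeasurableSet (Cyl k c ∩ Tail (k + 1)) :=
    (measurableSet_Cyl k c).inter (measurableSet_Tail _)
  have h1 : ∀ w ∈ Cyl k c ∩ Tail (k + 1),
      Real.exp (-(8 * Real.exp (-c ^ 2 / 2) * N (k + 1) / 2 ^ (8 ^ (k + 1)))) ≤
        ∏ x ∈ Bk k, γ.real (Set.Ici (-pp x w)) := by
    intro w hw
    have h2 : ∀ x ∈ Bk k, Real.exp (-(2 * (Real.exp (-c ^ 2 / 2) *
        Real.exp (-(2 ^ (8 ^ (k + 1)) * (1 - |(x : ℝ)| / N (k + 1))))))) ≤ γ.real (Set.Ici (-pp x w)) := by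
      intro x hx
      have h3 := pp_ge (by linarith) hcN hw hx
      have h4 := cos_ge (mem_Bk.1 hx)
      have h5 := cos_nonneg_ball (mem_Bk.1 hx)
      have hb : (0 : ℝ) < 2 ^ (8 ^ (k + 1)) := by positivity
      set b : ℝ := 2 ^ (8 ^ (k + 1)) with hbdef
      have h6 : c ≤ pp x w := by nlinarith
      refine le_trans ?_ (γ_D1 (hc.trans h6))
      apply Real.exp_le_exp.2
      apply neg_le_neg
      apply mul_le_mul_of_nonneg_left _ (by norm_num)
      rw [← Real.exp_add]
      apply Real.exp_le_exp.2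
      have h7 : b * (1 - |(x : ℝ)| / N (k + 1)) ≤ b * Real.cos (θ (k + 1) * x) :=
        mul_le_mul_of_nonneg_left h4 hb.le
      have h8 : c + b * Real.cos (θ (k + 1) * x) ≤ pp x w := h3
      have h9 : 0 ≤ b * Real.cos (θ (k + 1) * x) := mul_nonneg hb.le h5
      nlinarith
    calc Real.exp (-(8 * Real.exp (-c ^ 2 / 2) * N (k + 1) / 2 ^ (8 ^ (k + 1))))
        ≤ Real.exp (∑ x ∈ Bk k, -(2 * (Real.exp (-c ^ 2 / 2) *
        Real.exp (-(2 ^ (8 ^ (k + 1)) * (1 - |(x : ℝ)| / N (k + 1))))))) := by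
          apply Real.exp_le_exp.2
          rw [Finset.sum_neg_distrib, ← Finset.mul_sum, ← Finset.mul_sum]
          apply neg_le_neg
          have h3 := sum_ball (N_pos (k + 1)) (b := 2 ^ (8 ^ (k + 1))) (by positivity) hbN
          have h4 : 8 * Real.exp (-c ^ 2 / 2) * (N (k + 1) : ℝ) / 2 ^ (8 ^ (k + 1)) =
              2 * (Real.exp (-c ^ 2 / 2) * (4 * (N (k + 1) : ℝ) / 2 ^ (8 ^ (k + 1)))) := by ring
          rw [h4]
          apply mul_le_mul_of_nonneg_left _ (by norm_num)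
          exact mul_le_mul_of_nonneg_left h3 (Real.exp_pos _).le
      _ = ∏ x ∈ Bk k, Real.exp (-(2 * (Real.exp (-c ^ 2 / 2) *
        Real.exp (-(2 ^ (8 ^ (k + 1)) * (1 - |(x : ℝ)| / N (k + 1))))))) := Real.exp_sum _ _
      _ ≤ _ := Finset.prod_le_prod (fun _ _ => (Real.exp_pos _).le) h2
  have h2 := le_PosOn (Bk k) hE h1
  have h3 : PP.real (PosOn (Bk k) (Cyl k c ∩ Tail (k + 1))) ≤ PP.real {w | ∀ x ∈ Bk k, 0 ≤ X x w} :=
    measureReal_mono fun w hw => hw.2
  refine le_trans ?_ (h2.trans h3)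
  apply mul_le_mul_of_nonneg_left _ (Real.exp_pos _).le
  refine le_trans ?_ (Cyl_Tail k c)
  have := Cyl_ge k (c := c) (by linarith)
  linarith

end Q290.Ent
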