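import Mathlib
import Pool.Agent.Q290.Ent.Lower

/-!
At the quarter periods the conditional means exceed the equilibrium potential.
-/

set_option autoImplicit false

open MeasureTheory ProbabilityTheory Filter Topology
open scoped ENNReal NNReal

namespace Q290.Ent

attribute [local irreducible] e s N θ

/-- the event of positivity on the ball -/
def Per {Ω : Type} (Y : ℤ → Ω → ℝ) (T : ℝ) : Set Ω := {ω | ∀ x : ℤ, |(x : ℝ)| ≤ T → 0 ≤ Y x ω}

lemma Per_eq (k : ℕ) : Per X (N (k + 1)) = {w | ∀ x ∈ Bk k, 0 ≤ X x w} := by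
  ext w
  simp only [Per]
  constructor
  · intro h x hx
    apply h
    have := mem_Bk.1 hx
    exact_mod_cast this
  · intro h x hx
    apply h
    rw [mem_Bk]
    exact_mod_cast hx

lemma arith_nat {k : ℕ} (hk : 6 ≤ k) :
    2 * e (k + 2) + 8 ^ (k + 1) ≤ 16 ^ (k + 1) ∧ 2 * k + 10 ≤ 8 ^ (k + 1) ∧ 2 * k + 4 ≤ e (k + 2) ∧
      64 * 4 ^ (k + 1) ≤ 8 ^ (k + 1) ∧ 128 * (k + 1) ≤ 4 ^ (k + 1) := by
  have h1 := seven_e (k + 2)
  have h2 : 8 ^ (k + 2) = 8 * 8 ^ (k + 1) := by rw [pow_succ]; ring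
  have h3 : 8 ^ (k + 1) * 4 ≤ 16 ^ (k + 1) := by
    have : 16 ^ (k + 1) = 8 ^ (k + 1) * 2 ^ (k + 1) := by
      rw [← mul_pow]
      norm_num
    rw [this]
    have : 2 ^ 2 ≤ 2 ^ (k + 1) := Nat.pow_le_pow_right (by norm_num) (by omega)
    exact Nat.mul_le_mul_left _ this
  have h4 : 64 * 4 ^ (k + 1) ≤ 8 ^ (k + 1) := by
    have : 8 ^ (k + 1) = 2 ^ (k + 1) * 4 ^ (k + 1) := by
      rw [← mul_pow]
      norm_num
    rw [this]
    have : 2 ^ 6 ≤ 2 ^ (k + 1) := Nat.pow_le_pow_right (by norm_num) (by omega)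
    exact Nat.mul_le_mul_right _ this
  have h5 : 128 * (k + 1) ≤ 4 ^ (k + 1) := by
    induction k, hk using Nat.le_induction with
    | base => norm_num
    | succ k hk ih =>
      have := ih (seven_e (k + 2)) (by rw [pow_succ]; ring) ?_ ?_
      · rw [pow_succ]
        omega
      · have : 16 ^ (k + 1) = 8 ^ (k + 1) * 2 ^ (k + 1) := by
          rw [← mul_pow]
          norm_num
        rw [this]
        have : 2 ^ 2 ≤ 2 ^ (k + 1) := Nat.pow_le_pow_right (by norm_num) (by omega)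
        exact Nat.mul_le_mul_left _ this
      · have : 8 ^ (k + 1) = 2 ^ (k + 1) * 4 ^ (k + 1) := by
          rw [← mul_pow]
          norm_num
        rw [this]
        have : 2 ^ 6 ≤ 2 ^ (k + 1) := Nat.pow_le_pow_right (by norm_num) (by omega)
        exact Nat.mul_le_mul_right _ this
  refine ⟨by omega, by omega, by omega, h4, h5⟩

/-- the level -/
noncomputable def lev (k : ℕ) : ℝ :=
  √(2 * Real.log 2 * ((16 : ℝ) ^ (k + 1) - (2 * e (k + 2) + 8 ^ (k + 1) - 3)))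

lemma lev_sq {k : ℕ} (hk : 6 ≤ k) : lev k ^ 2 =
    2 * Real.log 2 * ((16 : ℝ) ^ (k + 1) - (2 * e (k + 2) + 8 ^ (k + 1) - 3)) := by
  unfold lev
  rw [Real.sq_sqrt]
  have h1 : (2 * e (k + 2) + 8 ^ (k + 1) : ℝ) ≤ 16 ^ (k + 1) := by exact_mod_cast (arith_nat hk).1
  have h2 : 0 < Real.log 2 := Real.log_pos (by norm_num)
  have h3 : 0 ≤ (16 : ℝ) ^ (k + 1) - (2 * e (k + 2) + 8 ^ (k + 1) - 3) := by linarith
  positivity

lemma two_le_lev {k : ℕ} (hk : 6 ≤ k) : 2 ≤ lev k := by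
  unfold lev
  apply Real.le_sqrt_of_sq_le
  have h1 : (2 * e (k + 2) + 8 ^ (k + 1) : ℝ) ≤ 16 ^ (k + 1) := by exact_mod_cast (arith_nat hk).1
  have h2 := Real.log_two_gt_d9
  have h3 : 3 ≤ (16 : ℝ) ^ (k + 1) - (2 * e (k + 2) + 8 ^ (k + 1) - 3) := by linarith
  nlinarith

lemma lev_le {k : ℕ} (hk : 6 ≤ k) : lev k ≤ 6 / 5 * 4 ^ (k + 1) := by
  unfold lev
  rw [Real.sqrt_le_left (by positivity)]
  have h2 := Real.log_two_lt_d9
  have h2' := Real.log_two_gt_d9
  have h3 : ((6 : ℝ) / 5 * 4 ^ (k + 1)) ^ 2 = 36 / 25 * 16 ^ (k + 1) := by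
    rw [mul_pow, ← pow_mul, mul_comm (k + 1) 2, pow_mul]
    norm_num
  rw [h3]
  have h5 : (3 : ℝ) ≤ 2 * e (k + 2) + 8 ^ (k + 1) := by
    have := (arith_nat hk).2.1
    have h6 : 3 ≤ 2 * e (k + 2) + 8 ^ (k + 1) := by omega
    exact_mod_cast h6
  have h6 : (0 : ℝ) < 16 ^ (k + 1) := by positivity
  have h7 : (16 : ℝ) ^ (k + 1) - (2 * e (k + 2) + 8 ^ (k + 1) - 3) ≤ 16 ^ (k + 1) := by linarith
  calc 2 * Real.log 2 * ((16 : ℝ) ^ (k + 1) - (2 * e (k + 2) + 8 ^ (k + 1) - 3))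
      ≤ 2 * Real.log 2 * 16 ^ (k + 1) := by
        apply mul_le_mul_of_nonneg_left h7
        linarith
    _ ≤ _ := by nlinarith

/-- `exp(-lev² / 2)` -/
lemma exp_lev {k : ℕ} (hk : 6 ≤ k) : Real.exp (-lev k ^ 2 / 2) * (8 * 2 ^ (16 ^ (k + 1))) =
    4 ^ e (k + 2) * 2 ^ (8 ^ (k + 1)) := by
  rw [lev_sq hk]
  have h8 : (8 : ℝ) * 2 ^ (16 ^ (k + 1)) = 2 ^ (3 + 16 ^ (k + 1)) := by
    rw [pow_add (2 : ℝ) 3 (16 ^ (k + 1))]
    norm_num
  have hp : ∀ n : ℕ, (2 : ℝ) ^ n = Real.exp (n * Real.log 2) := by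
    intro n
    rw [Real.exp_nat_mul, Real.exp_log (by norm_num)]
  have h4 : (4 : ℝ) ^ e (k + 2) = Real.exp ((2 * e (k + 2)) * Real.log 2) := by
    rw [show (4 : ℝ) = 2 ^ 2 by norm_num, ← pow_mul, hp]
    push_cast
    rfl
  rw [h8, hp, h4, hp, ← Real.exp_add, ← Real.exp_add]
  congr 1
  push_cast
  ring

lemma N_pow (k : ℕ) : (N (k + 1) : ℝ) = 2 ^ (16 ^ (k + 1)) := by
  unfold N
  push_cast
  rfl

/-- the exponent -/
noncomputable def QQ (k : ℕ) : ℝ := (lev k + 5) ^ 2 / 2 + 4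

lemma QQ_le {k : ℕ} (hk : 6 ≤ k) : 4 * (QQ k + 1) ≤ 4 ^ e (k + 2) := by
  unfold QQ
  have h1 := lev_le hk
  have h2 := two_le_lev hk
  have h3 : lev k ^ 2 ≤ 36 / 25 * 16 ^ (k + 1) := by
    have h4 : ((6 : ℝ) / 5 * 4 ^ (k + 1)) ^ 2 = 36 / 25 * 16 ^ (k + 1) := by
      rw [mul_pow, ← pow_mul, mul_comm (k + 1) 2, pow_mul]
      norm_num
    rw [← h4]
    gcongr
  have h5 : (4 : ℝ) ^ (2 * k + 4) ≤ 4 ^ e (k + 2) :=
    pow_le_pow_right₀ (by norm_num) (arith_nat hk).2.2.1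
  have h6 : (4 : ℝ) ^ (2 * k + 4) = 16 * 16 ^ (k + 1) := by
    rw [show 2 * k + 4 = 2 * (k + 1) + 2 by ring, pow_add, pow_mul]
    norm_num
    ring
  have h7 : (100 : ℝ) ≤ 16 ^ (k + 1) := by
    calc (100 : ℝ) ≤ 16 ^ 2 := by norm_num
      _ ≤ 16 ^ (k + 1) := pow_le_pow_right₀ (by norm_num) (by omega)
  nlinarith [sq_nonneg (lev k - 5)]

lemma beta_large {k : ℕ} (hk : 6 ≤ k) : (6 * k + 19 : ℝ) ≤ 4 ^ e (k + 2) := by
  have h5 : (4 : ℝ) ^ (k + 1) ≤ 4 ^ e (k + 2) :=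
    pow_le_pow_right₀ (by norm_num) (by have := (arith_nat hk).2.2.1; omega)
  have h6 : (128 * (k + 1) : ℝ) ≤ 4 ^ (k + 1) := by exact_mod_cast (arith_nat hk).2.2.2.2
  have : (0 : ℝ) ≤ k := Nat.cast_nonneg k
  linarith

lemma four_pow_eq (k : ℕ) : ((2 : ℝ) ^ e (k + 2)) ^ 2 = 4 ^ e (k + 2) := by
  rw [← pow_mul, mul_comm, pow_mul]
  norm_num

/-- lower bound of the persistence probability -/
lemma lower' {k : ℕ} (hk : 6 ≤ k) : Real.exp (-(4 ^ e (k + 2) * QQ k)) ≤ PP.real (Per X (N (k + 1))) := by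
  rw [Per_eq]
  have hc := two_le_lev hk
  have hc1 := lev_le hk
  obtain ⟨a1, a2, a3, a4, a5⟩ := arith_nat hk
  have hN1 : (4 : ℝ) * 4 ^ (k + 1) ≤ N (k + 1) := by
    rw [N_pow, show (4 : ℝ) * 4 ^ (k + 1) = 2 ^ (2 * k + 4) by
      rw [show 2 * k + 4 = 2 * (k + 2) by ring, pow_mul]; norm_num; ring]
    apply pow_le_pow_right₀ (by norm_num)
    omega
  have hN30 : (lev k + 3) * 2 ≤ (N (k + 1) : ℝ) ^ 30 := by
    have h1 : (1 : ℝ) ≤ N (k + 1) := by exact_mod_cast N_pos (k + 1)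
    have h2 : (N (k + 1) : ℝ) ≤ (N (k + 1) : ℝ) ^ 30 := le_self_pow₀ h1 (by norm_num)
    have h3 : (128 * (k + 1) : ℝ) ≤ 4 ^ (k + 1) := by exact_mod_cast a5
    have h4 : (0 : ℝ) ≤ k := Nat.cast_nonneg k
    linarith
  have hbN : (2 : ℝ) ^ (8 ^ (k + 1)) ≤ N (k + 1) := by
    rw [N_pow]
    apply pow_le_pow_right₀ (by norm_num)
    omega
  refine le_trans ?_ (lower hc hN30 hbN)
  have h1 : 8 * Real.exp (-lev k ^ 2 / 2) * N (k + 1) / 2 ^ (8 ^ (k + 1)) = 4 ^ e (k + 2) := by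
    rw [N_pow, div_eq_iff (by positivity), ← exp_lev hk]
    ring
  rw [h1]
  have hβ := beta_large hk
  have hsq := four_pow_eq k
  set B : ℝ := 2 ^ e (k + 2) with hB
  have hB2 : 2 ≤ B := by
    rw [hB]
    calc (2 : ℝ) = 2 ^ 1 := by norm_num
      _ ≤ 2 ^ e (k + 2) := pow_le_pow_right₀ (by norm_num) (by omega)
  rw [← hsq] at hβ ⊢
  have h2 : (1 : ℝ) / 2 ≥ Real.exp (-1) := by
    rw [Real.exp_neg, ge_iff_le, inv_eq_one_div]
    have := Real.exp_one_gt_d9
    apply one_div_le_one_div_of_le (by norm_num)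
    linarith
  calc Real.exp (-(B ^ 2 * QQ k))
      ≤ Real.exp (-B ^ 2 + (-(6 * (k : ℝ) + 18) + (-(B + 2) ^ 2 / 2) +
          (-((lev k + 3) * B + 2) ^ 2 / 2) + (-1))) := by
        apply Real.exp_le_exp.2
        unfold QQ
        have h3 : ((lev k + 3) * B + 2) ^ 2 ≤ (lev k + 5) ^ 2 * B ^ 2 := by
          rw [← mul_pow]
          apply pow_le_pow_left₀ (by positivity)
          nlinarith
        have h4 : (B + 2) ^ 2 ≤ 4 * B ^ 2 := by nlinarith
        have h5 : B ^ 2 * ((lev k + 5) ^ 2 / 2 + 4) = (lev k + 5) ^ 2 * B ^ 2 / 2 + 4 * B ^ 2 := by ring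
        rw [h5]
        linarith
    _ = Real.exp (-B ^ 2) * (Real.exp (-(6 * (k : ℝ) + 18)) * Real.exp (-(B + 2) ^ 2 / 2) *
          Real.exp (-((lev k + 3) * B + 2) ^ 2 / 2) * Real.exp (-1)) := by
        rw [Real.exp_add, Real.exp_add, Real.exp_add, Real.exp_add]
    _ ≤ _ := by
        apply mul_le_mul_of_nonneg_left _ (Real.exp_pos _).le
        have h6 : 0 < Real.exp (-(6 * (k : ℝ) + 18)) * Real.exp (-(B + 2) ^ 2 / 2) *
          Real.exp (-((lev k + 3) * B + 2) ^ 2 / 2) := by positivity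
        have h7 := mul_le_mul_of_nonneg_left h2 h6.le
        linarith

/-- upper bound of the probability of persistence with small mean in the centre -/
lemma upper' {k : ℕ} (hk : 6 ≤ k) {L : ℝ} (hL : L + 1 ≤ 2 ^ (2 * k + 5)) (hL0 : 0 ≤ L) :
    PP.real (Per X (N (k + 1)) ∩ {w | Sc k w ≤ (Ck k).card * L}) ≤
      4 * Real.exp (-(4 ^ e (k + 2) * (QQ k + 1))) := by
  rw [Per_eq]
  have hc := two_le_lev hk
  have hc1 := lev_le hk
  have hQ := QQ_le hk
  obtain ⟨a1, a2, a3, a4, a5⟩ := arith_nat hk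
  refine (upper (by omega) hL hL0 (c := lev k + 7) (by linarith)).trans ?_
  have hQ0 : 0 < QQ k + 1 := by unfold QQ; positivity
  set F : ℝ := 4 ^ e (k + 2) with hF
  have hF0 : 0 < F := by positivity
  have hF1 : 1 ≤ F := one_le_pow₀ (by norm_num)
  -- first term
  have t1 : Real.exp (-(16 : ℝ) ^ e (k + 2) / 4) ≤ Real.exp (-(F * (QQ k + 1))) := by
    apply Real.exp_le_exp.2
    have h1 : (16 : ℝ) ^ e (k + 2) = F * F := by
      rw [hF, ← mul_pow]
      norm_num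
    rw [h1]
    nlinarith
  -- second term
  have t2 : Real.exp (-(r k : ℝ)) ≤ Real.exp (-(F * (QQ k + 1))) := by
    apply Real.exp_le_exp.2
    apply neg_le_neg
    have h1 : F * F ≤ (r k : ℝ) := by
      rw [hF, ← mul_pow]
      unfold r
      push_cast
      rw [show ((4 : ℝ) * 4) = 2 ^ 4 by norm_num, ← pow_mul]
      apply pow_le_pow_right₀ (by norm_num)
      have := scale_one (show 3 ≤ k by omega)
      omega
    nlinarith
  -- third term
  have t3 : Real.exp (-((lev k + 7) / s (k + 2)) ^ 2 / 2) ≤ Real.exp (-(F * (QQ k + 1))) := by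
    apply Real.exp_le_exp.2
    have h1 : (lev k + 7) / s (k + 2) = (lev k + 7) * 2 ^ e (k + 2) := by
      rw [div_eq_iff (s_pos _).ne', mul_assoc, mul_comm (2 ^ e (k + 2)), s_mul_beta', mul_one]
    rw [h1, mul_pow, four_pow_eq]
    unfold QQ
    have h2 : (lev k + 5) ^ 2 / 2 + 4 + 1 ≤ (lev k + 7) ^ 2 / 2 := by nlinarith
    have h3 : F * ((lev k + 5) ^ 2 / 2 + 4 + 1) ≤ F * ((lev k + 7) ^ 2 / 2) :=
      mul_le_mul_of_nonneg_left h2 hF0.le
    have h4 : -((lev k + 7) ^ 2 * 4 ^ e (k + 2)) / 2 = -(F * ((lev k + 7) ^ 2 / 2)) := by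
      rw [hF]; ring
    rw [h4]
    linarith
  -- fourth term
  have t4 : Real.exp (-(Real.exp (-((lev k + 7) + 5) ^ 2 / 2) * (Rk k).card)) ≤
      Real.exp (-(F * (QQ k + 1))) := by
    apply Real.exp_le_exp.2
    apply neg_le_neg
    rw [card_Rk]
    have h1 : Real.exp (-((lev k + 7) + 5) ^ 2 / 2) =
        Real.exp (-lev k ^ 2 / 2) * Real.exp (-(12 * lev k + 72)) := by
      rw [← Real.exp_add]
      congr 1
      ring
    have h2 := exp_lev hk
    have h3 : (wd k : ℝ) * 2 ^ (2 * k + 8) = 2 ^ (16 ^ (k + 1)) := by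
      rw [← N_pow, N_eq_wd]
      push_cast
      rfl
    have h4 : Real.exp (-lev k ^ 2 / 2) * (2 * (wd k : ℝ)) * 2 ^ (2 * k + 10) = F * 2 ^ (8 ^ (k + 1)) := by
      rw [hF, ← h2, ← h3, show 2 * k + 10 = (2 * k + 8) + 2 by ring, pow_add]
      ring
    have h5 : QQ k + 1 ≤ Real.exp (lev k + 5) := by
      have := Real.quadratic_le_exp_of_nonneg (show 0 ≤ lev k + 5 by linarith)
      unfold QQ
      linarith
    have h6 : Real.exp (lev k + 5) * 2 ^ (2 * k + 10) * Real.exp (12 * lev k + 72) ≤ 2 ^ (8 ^ (k + 1)) := by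
      have hp : ∀ n : ℕ, (2 : ℝ) ^ n = Real.exp (n * Real.log 2) := by
        intro n
        rw [Real.exp_nat_mul, Real.exp_log (by norm_num)]
      rw [hp, hp, ← Real.exp_add, ← Real.exp_add]
      apply Real.exp_le_exp.2
      have b1 := Real.log_two_gt_d9
      have b2 := Real.log_two_lt_d9
      have b3 : (64 * 4 ^ (k + 1) : ℝ) ≤ 8 ^ (k + 1) := by exact_mod_cast a4
      have b4 : (128 * (k + 1) : ℝ) ≤ 4 ^ (k + 1) := by exact_mod_cast a5
      have b5 : (0 : ℝ) ≤ k := Nat.cast_nonneg k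
      have b6 : (6 : ℝ) ≤ k := by exact_mod_cast hk
      push_cast
      have b7 : 44 * 4 ^ (k + 1) ≤ (8 : ℝ) ^ (k + 1) * Real.log 2 := by nlinarith
      have b8 : (2 * (k : ℝ) + 10) * Real.log 2 ≤ 2 * k + 10 := by nlinarith
      linarith
    have h7 : Real.exp (-(12 * lev k + 72)) * Real.exp (12 * lev k + 72) = 1 := by
      rw [← Real.exp_add]
      simp
    have hpos : (0 : ℝ) < 2 ^ (2 * k + 10) := by positivity
    have hpos2 : (0 : ℝ) < Real.exp (12 * lev k + 72) := Real.exp_pos _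
    -- multiply by positive factors
    have h8 : F * (QQ k + 1) * (2 ^ (2 * k + 10) * Real.exp (12 * lev k + 72)) ≤
        (Real.exp (-((lev k + 7) + 5) ^ 2 / 2) * (2 * (wd k : ℝ))) *
          (2 ^ (2 * k + 10) * Real.exp (12 * lev k + 72)) := by
      have h9 : (Real.exp (-((lev k + 7) + 5) ^ 2 / 2) * (2 * (wd k : ℝ))) *
          (2 ^ (2 * k + 10) * Real.exp (12 * lev k + 72)) = F * 2 ^ (8 ^ (k + 1)) := by
        rw [h1, ← h4]
        calc _ = (Real.exp (-lev k ^ 2 / 2) * (2 * (wd k : ℝ)) * 2 ^ (2 * k + 10)) *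
              (Real.exp (-(12 * lev k + 72)) * Real.exp (12 * lev k + 72)) := by ring
          _ = _ := by rw [h7, mul_one]
      rw [h9]
      calc F * (QQ k + 1) * (2 ^ (2 * k + 10) * Real.exp (12 * lev k + 72))
          ≤ F * Real.exp (lev k + 5) * (2 ^ (2 * k + 10) * Real.exp (12 * lev k + 72)) := by
            gcongr
        _ = F * (Real.exp (lev k + 5) * 2 ^ (2 * k + 10) * Real.exp (12 * lev k + 72)) := by ring
        _ ≤ _ := mul_le_mul_of_nonneg_left h6 hF0.le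
    exact le_of_mul_le_mul_right h8 (by positivity)
  linarith

/-- the level of repulsion at the radius `N (k+1)` -/
lemma level_eq (k : ℕ) : 4 * √(2 * 1 * (1 - 0) * Real.log (N (k + 1))) + 1 ≤ 2 ^ (2 * k + 5) := by
  have h1 : Real.log (N (k + 1)) = 16 ^ (k + 1) * Real.log 2 := by
    rw [N_pow, Real.log_pow]
    push_cast
    rfl
  rw [h1]
  obtain ⟨S, hS⟩ : ∃ S, S = √(2 * 1 * (1 - 0) * ((16 : ℝ) ^ (k + 1) * Real.log 2)) := ⟨_, rfl⟩
  rw [← hS]
  have h2 : S ≤ 6 / 5 * 4 ^ (k + 1) := by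
    rw [hS, Real.sqrt_le_left (by positivity)]
    have h3 : ((6 : ℝ) / 5 * 4 ^ (k + 1)) ^ 2 = 36 / 25 * 16 ^ (k + 1) := by
      rw [mul_pow, ← pow_mul, mul_comm (k + 1) 2, pow_mul]
      norm_num
    rw [h3]
    have := Real.log_two_lt_d9
    have h4 : (0 : ℝ) < 16 ^ (k + 1) := by positivity
    nlinarith
  have h5 : (2 : ℝ) ^ (2 * k + 5) = 8 * 4 ^ (k + 1) := by
    rw [show 2 * k + 5 = 2 * (k + 1) + 3 by ring, pow_add, pow_mul]
    norm_num
    ring
  rw [h5]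
  have h6 : (1 : ℝ) ≤ 4 ^ (k + 1) := one_le_pow₀ (by norm_num)
  linarith

/-- statement (E) for the field fails -/
theorem not_repulsion (h : ℝ → ℤ → ℝ) (hh : ∀ T, IsEquilibrium μs T (h T))
    (hE : ∀ ε : ℝ, 0 < ε → ∀ᶠ T : ℝ in atTop, ∀ x : ℤ, |(x : ℝ)| ≤ T →
      |(∫ ω in Per X T, X x ω ∂PP) / PP.real (Per X T) / √(2 * 1 * (1 - 0) * Real.log T) - h T x| ≤ ε) :
    False := by
  have h1 := hE (1 / 2) (by norm_num)
  have htop : Tendsto (fun k : ℕ => (N (k + 1) : ℝ)) atTop atTop := by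
    refine tendsto_natCast_atTop_atTop.comp ?_
    refine tendsto_atTop_mono (fun k => ?_) tendsto_id
    unfold N
    have h2 : k + 1 < 16 ^ (k + 1) := Nat.lt_pow_self (by norm_num)
    have h3 : 16 ^ (k + 1) < 2 ^ (16 ^ (k + 1)) := Nat.lt_pow_self (by norm_num)
    simp only [id]
    omega
  obtain ⟨k, hk1, hk⟩ := ((htop.eventually h1).and (eventually_ge_atTop 6)).exists
  set T : ℝ := (N (k + 1) : ℝ) with hT
  set l : ℝ := √(2 * 1 * (1 - 0) * Real.log T) with hl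
  have hlev := level_eq k
  rw [← hT, ← hl] at hlev
  have hp := lower' hk
  rw [← hT] at hp
  set p := PP.real (Per X T) with hpdef
  have hp0 : 0 < p := lt_of_lt_of_le (Real.exp_pos _) hp
  have hl0 : 0 < l := by
    rw [hl]
    apply Real.sqrt_pos.2
    have h2 : 0 < Real.log T := by
      apply Real.log_pos
      have := two_le_N (k + 1)
      have h3 : (2 : ℝ) ≤ N (k + 1) := by exact_mod_cast this
      linarith
    simpa using h2
  -- conditional means
  have hmean : ∀ x ∈ Ck k, ∫ ω in Per X T, X x ω ∂PP ≤ 2 * l * p := by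
    intro x hx
    have hx' : |(x : ℝ)| ≤ T := by
      have := mem_Bk.1 (Ck_sub k hx)
      rw [hT]
      exact_mod_cast this
    have h2 := (abs_le.1 (hk1 x hx')).2
    have h3 := potential_le (show 3 ≤ k by omega) (hh T) x
    have h4 : (∫ ω in Per X T, X x ω ∂PP) / p / l ≤ 2 := by linarith
    rw [div_div, div_le_iff₀ (by positivity)] at h4
    linarith
  have hmeasPer : MeasurableSet (Per X T) := by
    rw [hT, Per_eq]
    have : {w : Om | ∀ x ∈ Bk k, 0 ≤ X x w} = ⋂ x ∈ Bk k, {w | 0 ≤ X x w} := by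
      ext w
      simp
    rw [this]
    exact (Bk k).measurableSet_biInter fun x _ => measurableSet_le measurable_const (measurable_X x)
  have hint : ∀ x, Integrable (X x) PP := fun x => (memLp_X x).integrable (by norm_num)
  have hSint : Integrable (Sc k) PP := integrable_finsetSum _ fun x _ => hint x
  have hSum : ∫ ω in Per X T, Sc k ω ∂PP ≤ (Ck k).card * (2 * l * p) := by
    unfold Sc
    rw [integral_finsetSum _ fun x _ => (hint x).integrableOn]
    calc ∑ x ∈ Ck k, ∫ ω in Per X T, X x ω ∂PP ≤ ∑ x ∈ Ck k, 2 * l * p :=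
          Finset.sum_le_sum hmean
      _ = _ := by rw [Finset.sum_const, nsmul_eq_mul]
  -- Markov
  set n : ℝ := ((Ck k).card : ℝ) with hn
  have hn0 : 0 < n := by
    rw [hn, card_Ck]
    have : (0 : ℝ) < r k := by exact_mod_cast r_pos k
    positivity
  set A := Per X T ∩ {w | n * (4 * l) < Sc k w} with hA
  have hAm : MeasurableSet A := hmeasPer.inter (measurableSet_lt measurable_const (measurable_Sc k))
  have hnonneg : ∀ w ∈ Per X T, 0 ≤ Sc k w := by
    intro w hw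
    refine Finset.sum_nonneg fun x hx => hw x ?_
    have := mem_Bk.1 (Ck_sub k hx)
    rw [hT]
    exact_mod_cast this
  have hMar : n * (4 * l) * PP.real A ≤ ∫ ω in Per X T, Sc k ω ∂PP := by
    have h2 : ∫ ω in A, Sc k ω ∂PP ≤ ∫ ω in Per X T, Sc k ω ∂PP := by
      apply setIntegral_mono_set hSint.integrableOn
      · filter_upwards [ae_restrict_mem hmeasPer] with w hw
        exact hnonneg w hw
      · exact (Set.inter_subset_left (s := Per X T)).eventuallyLE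
    have h3 : ∫ ω in A, n * (4 * l) ∂PP ≤ ∫ ω in A, Sc k ω ∂PP := by
      refine setIntegral_mono_on (integrable_const _).integrableOn hSint.integrableOn hAm fun w hw => ?_
      exact hw.2.le
    rw [setIntegral_const, smul_eq_mul] at h3
    linarith
  have hA2 : PP.real A ≤ p / 2 := by
    have h2 : n * (4 * l) * PP.real A ≤ n * (4 * l) * (p / 2) := by
      calc n * (4 * l) * PP.real A ≤ n * (2 * l * p) := hMar.trans hSum
        _ = _ := by ring
    exact le_of_mul_le_mul_left h2 (by positivity)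
  have hup := upper' hk (L := 4 * l) hlev (by positivity)
  rw [← hT, ← hn] at hup
  have hcover : p ≤ PP.real A + PP.real (Per X T ∩ {w | Sc k w ≤ n * (4 * l)}) := by
    rw [hpdef]
    refine le_trans (measureReal_mono ?_) (measureReal_union_le _ _)
    intro w hw
    rcases le_or_gt (Sc k w) (n * (4 * l)) with h2 | h2
    · exact Or.inr ⟨hw, h2⟩
    · exact Or.inl ⟨hw, h2⟩
  have hfin : p / 2 ≤ 4 * Real.exp (-(4 ^ e (k + 2) * (QQ k + 1))) := by linarith
  have hexp : Real.exp (-(4 ^ e (k + 2) * (QQ k + 1))) =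
      Real.exp (-(4 ^ e (k + 2) * QQ k)) * Real.exp (-(4 : ℝ) ^ e (k + 2)) := by
    rw [← Real.exp_add]
    congr 1
    ring
  rw [hexp] at hfin
  set u := Real.exp (-(4 ^ e (k + 2) * QQ k)) with hu
  have hu0 : 0 < u := Real.exp_pos _
  have h8 : Real.exp (-(4 : ℝ) ^ e (k + 2)) < 1 / 8 := by
    have h9 : (7 : ℝ) < 4 ^ e (k + 2) := by
      have := beta_large hk
      have h10 : (0 : ℝ) ≤ k := Nat.cast_nonneg k
      linarith
    have h11 : 8 < Real.exp ((4 : ℝ) ^ e (k + 2)) := by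
      have := Real.add_one_le_exp ((4 : ℝ) ^ e (k + 2))
      linarith
    rw [Real.exp_neg, inv_eq_one_div]
    exact one_div_lt_one_div_of_lt (by norm_num) h11
  nlinarith

end Q290.Ent
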