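import Mathlib
import Pool.Agent.Q290.Ent.Main

/-!
Remaining properties of the spectral measure and of the persistence events.
-/

set_option autoImplicit false

open MeasureTheory ProbabilityTheory Filter Topology
open scoped ENNReal NNReal

namespace Q290.Ent

lemma μac_symm : μac.map (fun l => -l) = μac := by
  unfold μac
  rw [Measure.map_smul]
  congr 1
  have h1 : (volume : Measure ℝ).map (fun l => -l) = volume := by
    have := Measure.map_neg_eq_self (volume : Measure ℝ)
    exact this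
  have h2 : (fun l : ℝ => -l) ⁻¹' (Set.Ico (-Real.pi) Real.pi) = Set.Ioc (-Real.pi) Real.pi := by
    ext l
    simp only [Set.mem_preimage, Set.mem_Ico, Set.mem_Ioc]
    constructor <;> rintro ⟨h3, h4⟩ <;> constructor <;> linarith
  rw [← h2, ← Measure.restrict_map (by fun_prop) measurableSet_Ico, h1, h2]
  exact Measure.restrict_congr_set Ico_ae_eq_Ioc

lemma μd_symm : μd.map (fun l => -l) = μd := by
  refine Measure.ext fun S hS => ?_
  have hS' : MeasurableSet ((fun l : ℝ => -l) ⁻¹' S) := (by fun_prop : Measurable fun l : ℝ => -l) hS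
  rw [Measure.map_apply (by fun_prop) hS, μd_apply hS, μd_apply hS']
  congr 1
  funext j
  congr 1
  rw [Measure.dirac_apply' _ hS', Measure.dirac_apply' _ hS', Measure.dirac_apply' _ hS,
    Measure.dirac_apply' _ hS, add_comm]
  congr 1
  by_cases h : θ j ∈ S
  · simp [h]
  · simp [h]

lemma μs_symm : μs.map (fun l => -l) = μs := by
  unfold μs
  rw [Measure.map_add _ _ (by fun_prop), μac_symm, μd_symm]

lemma μs_carried : μs (Set.Icc (-Real.pi) Real.pi)ᶜ = 0 := by
  have hm : MeasurableSet (Set.Icc (-Real.pi) Real.pi)ᶜ := measurableSet_Icc.compl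
  unfold μs
  rw [Measure.add_apply]
  have h1 : μac (Set.Icc (-Real.pi) Real.pi)ᶜ = 0 := by
    unfold μac
    rw [Measure.smul_apply, Measure.restrict_apply hm]
    have : (Set.Icc (-Real.pi) Real.pi)ᶜ ∩ Set.Ioc (-Real.pi) Real.pi = ∅ := by
      ext x
      simp only [Set.mem_inter_iff, Set.mem_compl_iff, Set.mem_Icc, Set.mem_Ioc,
        Set.mem_empty_iff_false, iff_false]
      rintro ⟨h2, h3, h4⟩
      exact h2 ⟨h3.le, h4⟩
    rw [this, measure_empty, smul_zero]
  have h2 : μd (Set.Icc (-Real.pi) Real.pi)ᶜ = 0 := by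
    rw [μd_apply hm, ENNReal.tsum_eq_zero]
    intro j
    have h3 := θ_pos j
    have h4 := θ_le j
    have h5 := Real.pi_pos
    have h6 : θ j ∉ (Set.Icc (-Real.pi) Real.pi)ᶜ := by
      simp only [Set.mem_compl_iff, Set.mem_Icc, not_not]
      constructor <;> linarith
    have h7 : -θ j ∉ (Set.Icc (-Real.pi) Real.pi)ᶜ := by
      simp only [Set.mem_compl_iff, Set.mem_Icc, not_not]
      constructor <;> linarith
    rw [Measure.dirac_apply' _ hm, Measure.dirac_apply' _ hm, Set.indicator_of_notMem h6,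
      Set.indicator_of_notMem h7, add_zero, mul_zero]
  rw [h1, h2, add_zero]

lemma Per_pos (T : ℝ) : 0 < PP (Per X T) := by
  obtain ⟨k, hk⟩ := exists_nat_ge T
  have h1 : T ≤ N ((k + 6) + 1) := by
    refine hk.trans ?_
    have h2 : k + 7 < 16 ^ (k + 7) := Nat.lt_pow_self (by norm_num)
    have h3 : 16 ^ (k + 7) < 2 ^ (16 ^ (k + 7)) := Nat.lt_pow_self (by norm_num)
    have h4 : k ≤ N ((k + 6) + 1) := by
      unfold N
      show k ≤ 2 ^ (16 ^ (k + 7))
      omega
    exact_mod_cast h4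
  have h2 : Per X (N ((k + 6) + 1)) ⊆ Per X T := fun w hw x hx => hw x (hx.trans h1)
  have h3 := lower' (k := k + 6) (by omega)
  have h4 : 0 < PP.real (Per X (N ((k + 6) + 1))) := lt_of_lt_of_le (Real.exp_pos _) h3
  have h5 : 0 < PP (Per X (N ((k + 6) + 1))) := by
    rw [measureReal_def] at h4
    exact (ENNReal.toReal_pos_iff.1 h4).1
  exact h5.trans_le (measure_mono h2)

lemma cov_field (x y : ℤ) : ((∫ w, X x w * X y w ∂PP : ℝ) : ℂ) =
    ∫ l, Complex.exp (Complex.I * l * ((x - y : ℤ) : ℂ)) ∂μs := by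
  rw [cov_X, integral_μs]

lemma condN : μs = μac + μd ∧ μac ≪ volume ∧ μac ≠ 0 ∧ μac.real Set.univ = 1 ∧
    ∃ C : Set ℝ, C.Countable ∧ μd Cᶜ = 0 := by
  refine ⟨rfl, μac_abs, μac_ne, ?_, μd_countable⟩
  rw [measureReal_def, μac_univ, ENNReal.toReal_one]

end Q290.Ent
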